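import Pool.Agent.Helper724_BK.Defs
import Pool.Agent.H815.HF.InvDom

/-!
JOB BK1 (MP_20bec2_an): an injective continuous map of a ball whose boundary values stay away from the
image of the centre covers a ball.
-/

set_option autoImplicit false
open MeasureTheory Metric Set Filter Topology

namespace Pool.Agent.Helper724BK

/-- TARGET -/
theorem ball_lemma {m : ℕ} (f : E m → E m) (x : E m) (R ρ : ℝ) (hR : 0 < R) (hρ : 0 ≤ ρ)
    (hc : ContinuousOn f (closedBall x R)) (hi : InjOn f (closedBall x R))
    (hs : ∀ q ∈ sphere x R, ρ < dist (f q) (f x)) : closedBall (f x) ρ ⊆ f '' ball x R := by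
  have hopen : IsOpen (f '' ball x R) := by
    rw [isOpen_iff_mem_nhds]
    rintro _ ⟨q, hq, rfl⟩
    have hd : 0 < R - dist q x := by
      have := mem_ball.1 hq
      linarith
    have hsub : closedBall q ((R - dist q x) / 2) ⊆ ball x R := by
      intro y hy
      rw [mem_ball]
      have h1 := mem_closedBall.1 hy
      have h2 := dist_triangle y q x
      linarith
    have hsub' : closedBall q ((R - dist q x) / 2) ⊆ closedBall x R :=
      hsub.trans ball_subset_closedBall
    have h := Pool.Agent.H815.HF.InvDom.image_mem_nhds f q ((R - dist q x) / 2) (by linarith)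
      (hc.mono hsub') (hi.mono hsub')
    exact Filter.mem_of_superset h (image_mono hsub)
  have hclosed : IsClosed (f '' closedBall x R) :=
    ((isCompact_closedBall x R).image_of_continuousOn hc).isClosed
  have hpre : IsPreconnected (closedBall (f x) ρ) := (convex_closedBall (f x) ρ).isPreconnected
  have hcov : closedBall (f x) ρ ⊆ f '' ball x R ∪ (f '' closedBall x R)ᶜ := by
    intro y hy
    by_cases h : y ∈ f '' closedBall x R
    · left
      obtain ⟨q, hq, rfl⟩ := h
      refine ⟨q, ?_, rfl⟩
      rw [mem_ball]
      rcases lt_or_eq_of_le (mem_closedBall.1 hq) with h1 | h1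
      · exact h1
      · exact absurd (mem_closedBall.1 hy) (not_le.2 (hs q (mem_sphere.2 h1)))
    · right
      exact h
  exact hpre.subset_left_of_subset_union hopen hclosed.isOpen_compl
    (Set.disjoint_left.2 fun y h1 h2 => h2 (image_mono ball_subset_closedBall h1)) hcov
    ⟨f x, mem_closedBall_self hρ, x, mem_ball_self hR, rfl⟩

end Pool.Agent.Helper724BK
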