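import Pool.Agent.Helper724_BK.Defs

/-!
JOB BK2 (MP_20bec2_an, owner helper724). Needs on disk (on origin/main): Pool/Agent/Helper724_BK/Defs.lean.
Prove the TARGET, statement unchanged; auxiliary lemmas get the prefix `BK2_`.
PROOF. Induction on the natural number (q 0 - p 0).toNat, with q fixed and p general. If q 0 = p 0, all q i.succ = p i.succ, so p = q.
Otherwise: if some q j.succ ≠ p j.succ, take s = sign (q j.succ - p j.succ), p' = p + dir j s: the sum of |.| drops by one, q 0 - p' 0 drops
by one, the parity stays even, |p' i.succ| ≤ B since p' j.succ is between p j.succ and q j.succ. If all q i.succ = p i.succ then q 0 - p 0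
is even and positive, so ≥ 2; take j0 (m ≥ 1) and s = 1: the sum of |.| becomes 1 ≤ q 0 - p 0 - 1, and |q j0.succ + 1| ≤ B.
In both cases ψ p ≤ ψ (p + dir j s) by `hstep`, and the induction hypothesis gives ψ (p + dir j s) ≤ ψ q.
(dir j s is Fin.cons 1 (fun i => if i = j then s else 0); sums over Fin (m+1) : Fin.sum_univ_succ.)
-/

set_option autoImplicit false

namespace Pool.Agent.Helper724BK

theorem BK2_dir_zero {m : ℕ} (j : Fin m) (s : ℤ) : dir j s 0 = 1 := rfl

theorem BK2_dir_succ {m : ℕ} (j : Fin m) (s : ℤ) (i : Fin m) :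
    dir j s i.succ = if i = j then s else 0 := rfl

theorem BK2_sum {m : ℕ} (p : Zv m) (j : Fin m) (s : ℤ) :
    ∑ i, (p + dir j s) i = ∑ i, p i + (1 + s) := by
  have h : ∑ i, (p + dir j s) i = ∑ i, p i + ∑ i, dir j s i := by
    rw [← Finset.sum_add_distrib]; rfl
  rw [h, Fin.sum_univ_succ (f := fun i => dir j s i), BK2_dir_zero]
  simp only [BK2_dir_succ]
  rw [Finset.sum_ite_eq' Finset.univ j]
  simp

theorem BK2_even {m : ℕ} {p : Zv m} (j : Fin m) {s : ℤ} (hs : s = 1 ∨ s = -1)
    (hp : Even (∑ i, p i)) : Even (∑ i, (p + dir j s) i) := by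
  rw [BK2_sum]
  rcases hs with rfl | rfl
  · exact hp.add ⟨1, by norm_num⟩
  · exact hp.add ⟨0, by norm_num⟩

theorem BK2_eq {m : ℕ} {p q : Zv m} (h0 : q 0 = p 0) (h : ∀ i : Fin m, q i.succ = p i.succ) :
    p = q := by
  funext i
  refine Fin.cases ?_ ?_ i
  · exact h0.symm
  · intro i; exact (h i).symm

theorem BK2_main {m : ℕ} (hm : 1 ≤ m) (ψ : Zv m → ℝ) (B T : ℤ)
    (hstep : ∀ (b : Zv m) (j : Fin m) (s : ℤ), (s = 1 ∨ s = -1) → 0 ≤ b 0 → b 0 + 1 ≤ T →
      (∀ i : Fin m, |b i.succ| ≤ B) → |b j.succ + s| ≤ B → Even (∑ i, b i) → ψ b ≤ ψ (b + dir j s))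
    (q : Zv m) (hqB : ∀ i : Fin m, |q i.succ| ≤ B - 1) (hqT : q 0 ≤ T) (hqe : Even (∑ i, q i)) :
    ∀ (N : ℕ) (p : Zv m), q 0 - p 0 = N → (∀ i : Fin m, |p i.succ| ≤ B) → 0 ≤ p 0 →
      Even (∑ i, p i) → ∑ i : Fin m, |q i.succ - p i.succ| ≤ q 0 - p 0 → ψ p ≤ ψ q := by
  intro N
  induction N with
  | zero =>
    intro p hN hpB hp0 hpe hsum
    have h0 : ∑ i : Fin m, |q i.succ - p i.succ| = 0 := by
      apply le_antisymm
      · rw [hN] at hsum; simpa using hsum
      · exact Finset.sum_nonneg fun i _ => abs_nonneg _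
    rw [Finset.sum_eq_zero_iff_of_nonneg (fun i _ => abs_nonneg _)] at h0
    have : p = q := by
      apply BK2_eq
      · simp only [Nat.cast_zero] at hN; linarith
      · intro i
        have := h0 i (Finset.mem_univ i)
        rw [abs_eq_zero] at this
        linarith
    rw [this]
  | succ N ih =>
    intro p hN hpB hp0 hpe hsum
    push_cast at hN
    by_cases hex : ∃ j : Fin m, q j.succ ≠ p j.succ
    · obtain ⟨j, hj⟩ := hex
      obtain ⟨s, hs, hs1⟩ : ∃ s : ℤ, (s = 1 ∨ s = -1) ∧
          |q j.succ - (p j.succ + s)| = |q j.succ - p j.succ| - 1 ∧ |p j.succ + s| ≤ B := by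
        have h1 := abs_le.1 (hqB j)
        have h2 := abs_le.1 (hpB j)
        rcases lt_or_gt_of_ne hj with h | h
        · refine ⟨-1, Or.inr rfl, ?_, ?_⟩
          · rw [abs_of_nonpos (by linarith), abs_of_neg (by linarith)]; ring
          · rw [abs_le]; constructor <;> linarith
        · refine ⟨1, Or.inl rfl, ?_, ?_⟩
          · rw [abs_of_nonneg (by linarith), abs_of_pos (by linarith)]; ring
          · rw [abs_le]; constructor <;> linarith
      obtain ⟨hs1, hs2⟩ := hs1
      refine (hstep p j s hs hp0 (by linarith) hpB hs2 hpe).trans ?_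
      apply ih (p + dir j s)
      · rw [Pi.add_apply, BK2_dir_zero]; linarith
      · intro i
        rw [Pi.add_apply, BK2_dir_succ]
        split_ifs with hij
        · rw [hij]; exact hs2
        · rw [add_zero]; exact hpB i
      · rw [Pi.add_apply, BK2_dir_zero]; linarith
      · exact BK2_even j hs hpe
      · have e : ∑ i : Fin m, |q i.succ - (p + dir j s) i.succ| =
            ∑ i : Fin m, (|q i.succ - p i.succ| - if i = j then 1 else 0) := by
          apply Finset.sum_congr rfl
          intro i _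
          rw [Pi.add_apply, BK2_dir_succ]
          split_ifs with hij
          · rw [hij, hs1]
          · rw [add_zero, sub_zero]
        rw [e, Finset.sum_sub_distrib, Finset.sum_ite_eq' Finset.univ j]
        simp only [Finset.mem_univ, if_true]
        rw [Pi.add_apply, BK2_dir_zero]
        linarith
    · push Not at hex
      have hparity : Even (q 0 - p 0) := by
        have h1 : ∑ i, q i - ∑ i, p i = q 0 - p 0 := by
          rw [Fin.sum_univ_succ, Fin.sum_univ_succ (f := fun i => p i)]
          have : ∑ i : Fin m, q i.succ = ∑ i : Fin m, p i.succ :=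
            Finset.sum_congr rfl fun i _ => hex i
          rw [this]; ring
        rw [← h1]
        exact hqe.sub hpe
      have h2 : 2 ≤ q 0 - p 0 := by
        obtain ⟨r, hr⟩ := hparity
        omega
      set j : Fin m := ⟨0, hm⟩
      have hs2 : |p j.succ + 1| ≤ B := by
        have h1 := abs_le.1 (hqB j)
        rw [hex j] at h1
        rw [abs_le]; constructor <;> linarith
      refine (hstep p j 1 (Or.inl rfl) hp0 (by linarith) hpB hs2 hpe).trans ?_
      apply ih (p + dir j 1)
      · rw [Pi.add_apply, BK2_dir_zero]; linarith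
      · intro i
        rw [Pi.add_apply, BK2_dir_succ]
        split_ifs with hij
        · rw [hij]; exact hs2
        · rw [add_zero]; exact hpB i
      · rw [Pi.add_apply, BK2_dir_zero]; linarith
      · exact BK2_even j (Or.inl rfl) hpe
      · have e : ∑ i : Fin m, |q i.succ - (p + dir j 1) i.succ| =
            ∑ i : Fin m, (if i = j then 1 else 0) := by
          apply Finset.sum_congr rfl
          intro i _
          rw [Pi.add_apply, BK2_dir_succ, hex i]
          split_ifs with hij
          · rw [show p i.succ - (p i.succ + 1) = (-1 : ℤ) by ring]; norm_num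
          · simp
        rw [e, Finset.sum_ite_eq' Finset.univ j]
        simp only [Finset.mem_univ, if_true]
        rw [Pi.add_apply, BK2_dir_zero]
        linarith

/-- TARGET: monotonicity for the cone order from monotonicity along the edges. -/
theorem cone_mono {m : ℕ} (hm : 1 ≤ m) (ψ : Zv m → ℝ) (B T : ℤ)
    (hstep : ∀ (b : Zv m) (j : Fin m) (s : ℤ), (s = 1 ∨ s = -1) → 0 ≤ b 0 → b 0 + 1 ≤ T →
      (∀ i : Fin m, |b i.succ| ≤ B) → |b j.succ + s| ≤ B → Even (∑ i, b i) → ψ b ≤ ψ (b + dir j s)) :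
    ∀ p q : Zv m, (∀ i : Fin m, |p i.succ| ≤ B) → (∀ i : Fin m, |q i.succ| ≤ B - 1) →
      0 ≤ p 0 → q 0 ≤ T → Even (∑ i, p i) → Even (∑ i, q i) →
      ∑ i : Fin m, |q i.succ - p i.succ| ≤ q 0 - p 0 → ψ p ≤ ψ q := by
  intro p q hpB hqB hp0 hqT hpe hqe hsum
  have h0 : 0 ≤ q 0 - p 0 := (Finset.sum_nonneg fun i _ => abs_nonneg _).trans hsum
  exact BK2_main hm ψ B T hstep q hqB hqT hqe (q 0 - p 0).toNat p (Int.toNat_of_nonneg h0).symm
    hpB hp0 hpe hsum

end Pool.Agent.Helper724BK
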