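import Pool.Agent.Helper724_BK.Defs

/-!
JOB BK3 (MP_20bec2_an, owner helper724). Needs on disk (on origin/main): Pool/Agent/Helper724_BK/Defs.lean.
Prove the TARGETS, statements unchanged; auxiliary lemmas get the prefix `BK3_`.
PROOFS. `rot_e0`: ‖dv j s‖ = 1 = ‖e0‖, so a reflection maps e0 to dv (Mathlib: `reflection_sub`, for e0 ≠ dv; or
`Submodule.reflection_sub`), hence `h.choose_spec`.
`theta_zero`, `theta_e0`: V (b + dir j s) - V b = ell • dv j s (as ell = tau √(1+ep²)), kap = (1 - 2 sg) ell.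
Shape of a point of a tube: z = theta b j s y = V b + θ • (V (b + dir j s) - V b) + ζ with θ = sg + (1 - 2 sg) y 0 ∈ [sg, 1 - sg] and
ζ = kap • Rot (y - y 0 • e0), ‖ζ‖ ≤ kap * nu * m ≤ ρt := 2 tau nu m = tau ep sg / 8  (norm of y - y0 e0 is ≤ the sum of the |y i.succ| ≤ m nu;
kap ≤ ell ≤ 2 tau). Hence z 0 = tau (b 0 + θ) + ζ 0, z i.succ = tau ep (b i.succ + θ s_i) + ζ i.succ, s_i = s if i = j, else 0.
`tube_sub`: 0 ≤ b 0, b 0 + 1 ≤ T = 1/tau, ρt ≤ sg tau give 0 ≤ z 0 ≤ 1; |b i + θ s_i| ≤ B and tau ep B + ρt ≤ nu by h5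
(tau ep B = ep W + tau ep).
`tube_disj`: two representations of z. From z 0: b 0 - b' 0 = θ' - θ + O(2ρt/tau) with |θ' - θ| ≤ 1 - 2 sg and 2ρt/tau < 2 sg, so
b 0 = b' 0 and |θ - θ'| ≤ 2ρt/tau ≤ ep sg/4. Then b i.succ - b' i.succ = θ' s'_i - θ s_i + err, |err| ≤ 2ρt/(tau ep) ≤ sg/4, so it equals
θ (s'_i - s_i) + err', |err'| ≤ sg/2 < sg. If j ≠ j': coordinate i = j gives an integer within sg/2 of ∓θ, θ ∈ [sg, 1-sg]: impossible.
If j = j', s' = -s: for i ≠ j the integer b i - b' i is 0 (it is < 1 in absolute value), for i = j it is within sg/2 of ∓2θ ∈ ±[2sg, 2-2sg],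
so it is ±1, which contradicts the parity (both sums even, b 0 = b' 0). If j = j', s = s' all b i = b' i.
-/

set_option autoImplicit false
open MeasureTheory Metric Set Filter Topology

namespace Pool.Agent.Helper724BK

theorem BK3_sq {m : ℕ} (p : Par m) : 0 < 1 + p.ep ^ 2 := by positivity

theorem BK3_sqrt_pos {m : ℕ} (p : Par m) : 0 < Real.sqrt (1 + p.ep ^ 2) :=
  Real.sqrt_pos.2 (BK3_sq p)

theorem BK3_dv_zero {m : ℕ} (p : Par m) (j : Fin m) (s : ℤ) :
    p.dv j s 0 = 1 / Real.sqrt (1 + p.ep ^ 2) := by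
  simp [Par.dv, e0, et]

theorem BK3_dv_succ {m : ℕ} (p : Par m) (j : Fin m) (s : ℤ) (i : Fin m) :
    p.dv j s i.succ = 1 / Real.sqrt (1 + p.ep ^ 2) * (if i = j then (s : ℝ) * p.ep else 0) := by
  by_cases h : i = j
  · subst h; simp [Par.dv, e0, et]
  · simp [Par.dv, e0, et, h]

theorem BK3_s_sq {s : ℤ} (hs : s = 1 ∨ s = -1) : (s : ℝ) ^ 2 = 1 := by
  rcases hs with rfl | rfl <;> norm_num

theorem BK3_norm_dv {m : ℕ} (p : Par m) (j : Fin m) (s : ℤ) (hs : s = 1 ∨ s = -1) :
    ‖p.dv j s‖ = 1 := by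
  have h1 : ‖p.dv j s‖ ^ 2 = 1 := by
    rw [EuclideanSpace.real_norm_sq_eq, Fin.sum_univ_succ, BK3_dv_zero]
    simp only [BK3_dv_succ]
    rw [Finset.sum_eq_single j]
    · rw [if_pos rfl, mul_pow, mul_pow, BK3_s_sq hs, div_pow, Real.sq_sqrt (BK3_sq p).le]
      have := (BK3_sq p).ne'
      field_simp
    · intro i _ hi
      rw [if_neg hi]
      simp
    · simp
  have h2 := norm_nonneg (p.dv j s)
  nlinarith [sq_nonneg (‖p.dv j s‖ - 1), sq_nonneg (‖p.dv j s‖ + 1)]

/-- TARGET 1 -/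
theorem rot_e0 {m : ℕ} (p : Par m) (j : Fin m) (s : ℤ) (hs : s = 1 ∨ s = -1) :
    p.Rot j s (e0 m) = p.dv j s := by
  have h0 : ‖e0 m‖ = ‖p.dv j s‖ := by
    rw [BK3_norm_dv p j s hs, e0]
    simp
  have h : ∃ R : E m ≃ₗᵢ[ℝ] E m, R (e0 m) = p.dv j s :=
    ⟨_, Submodule.reflection_sub h0⟩
  rw [Par.Rot, dif_pos h]
  exact h.choose_spec

theorem BK3_V_zero {m : ℕ} (p : Par m) (b : Zv m) : p.V b 0 = p.tau * b 0 := by
  simp [Par.V, vert]

theorem BK3_V_succ {m : ℕ} (p : Par m) (b : Zv m) (i : Fin m) :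
    p.V b i.succ = p.tau * p.ep * b i.succ := by
  simp [Par.V, vert]

theorem BK3_edge {m : ℕ} (p : Par m) (b : Zv m) (j : Fin m) (s : ℤ) :
    p.V (b + dir j s) - p.V b = p.ell • p.dv j s := by
  have hs := (BK3_sqrt_pos p).ne'
  ext i
  refine Fin.cases ?_ (fun i => ?_) i
  · simp only [PiLp.sub_apply, PiLp.smul_apply, BK3_V_zero, BK3_dv_zero, smul_eq_mul, Par.ell,
      Pi.add_apply, dir, Fin.cons_zero]
    push_cast
    field_simp
    ring
  · simp only [PiLp.sub_apply, PiLp.smul_apply, BK3_V_succ, BK3_dv_succ, smul_eq_mul, Par.ell,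
      Pi.add_apply, dir, Fin.cons_succ]
    by_cases h : i = j
    · rw [if_pos h, if_pos h]
      push_cast
      field_simp
      ring
    · rw [if_neg h, if_neg h]
      simp

/-- TARGET 2 -/
theorem theta_zero {m : ℕ} (p : Par m) (b : Zv m) (j : Fin m) (s : ℤ) :
    p.theta b j s 0 = p.V b + p.sg • (p.V (b + dir j s) - p.V b) := by
  rw [BK3_edge, Par.theta, map_zero, smul_zero, add_zero, smul_smul]

/-- TARGET 3 -/
theorem theta_e0 {m : ℕ} (p : Par m) (b : Zv m) (j : Fin m) (s : ℤ) (hs : s = 1 ∨ s = -1) :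
    p.theta b j s (e0 m) = p.V b + (1 - p.sg) • (p.V (b + dir j s) - p.V b) := by
  rw [BK3_edge, Par.theta, rot_e0 p j s hs, smul_smul, add_assoc, ← add_smul, Par.kap]
  congr 2
  ring

theorem BK3_tau_pos {m : ℕ} (p : Par m) : 0 < p.tau := by
  have h1 : (0 : ℝ) < p.M := by exact_mod_cast p.hM
  have h2 : (0 : ℝ) < p.n := by exact_mod_cast p.hn
  have h3 : (0 : ℝ) < p.N := by exact_mod_cast p.hN
  rw [Par.tau]
  positivity

theorem BK3_ell_pos {m : ℕ} (p : Par m) : 0 < p.ell :=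
  mul_pos (BK3_tau_pos p) (BK3_sqrt_pos p)

theorem BK3_ell_le {m : ℕ} (p : Par m) : p.ell ≤ 2 * p.tau := by
  have h1 : Real.sqrt (1 + p.ep ^ 2) ≤ 2 := by
    rw [Real.sqrt_le_left (by norm_num)]
    have := p.hep0
    have := p.hep1
    nlinarith
  have := BK3_tau_pos p
  rw [Par.ell]
  nlinarith

/-- TARGET 4 -/
theorem dist_edge {m : ℕ} (p : Par m) (b : Zv m) (j : Fin m) (s : ℤ) (hs : s = 1 ∨ s = -1) :
    dist (p.V (b + dir j s)) (p.V b) = p.ell := by
  rw [dist_eq_norm, BK3_edge, norm_smul, BK3_norm_dv p j s hs, mul_one, Real.norm_eq_abs,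
    abs_of_pos (BK3_ell_pos p)]

/-- coordinates of the points of a tube -/
theorem BK3_rep {m : ℕ} (p : Par m) (b : Zv m) (j : Fin m) (s : ℤ) (hs : s = 1 ∨ s = -1) (z : E m)
    (hz : z ∈ p.tube b j s) : ∃ θ : ℝ, p.sg ≤ θ ∧ θ ≤ 1 - p.sg ∧ ∃ ζ : E m,
      (∀ i, |ζ i| ≤ p.tau * p.ep * p.sg / 8) ∧ z 0 = p.tau * (b 0 + θ) + ζ 0 ∧
      ∀ i : Fin m, z i.succ = p.tau * p.ep * (b i.succ + θ * (if i = j then (s : ℝ) else 0)) +
        ζ i.succ := by
  obtain ⟨y, ⟨hy0, hy1, hy⟩, rfl⟩ := hz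
  have hsg0 := p.hsg0
  have hsg1 := p.hsg1
  have hell := BK3_ell_pos p
  have htau := BK3_tau_pos p
  have hep := p.hep0
  have hsq := (BK3_sqrt_pos p).ne'
  obtain ⟨u, hu⟩ : ∃ u : E m, u = y - y 0 • e0 m := ⟨_, rfl⟩
  have hyu : y = y 0 • e0 m + u := by rw [hu]; abel
  have hkap0 : 0 ≤ p.kap := by
    rw [Par.kap]
    exact mul_nonneg (by linarith) hell.le
  have hkap : p.kap ≤ 2 * p.tau := by
    refine le_trans ?_ (BK3_ell_le p)
    rw [Par.kap]
    nlinarith
  have hm : (0 : ℝ) < m := by exact_mod_cast p.hm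
  have hnu : 0 ≤ p.nu := by
    rw [Par.nu]
    positivity
  have hunorm : ‖u‖ ≤ m * p.nu := by
    have h1 : ‖u‖ ≤ ∑ i, |u i| := by
      rw [EuclideanSpace.norm_eq]
      refine Real.sqrt_le_iff.2 ⟨Finset.sum_nonneg fun i _ => abs_nonneg _, ?_⟩
      simp only [Real.norm_eq_abs]
      exact Finset.sum_sq_le_sq_sum_of_nonneg (fun i _ => abs_nonneg _)
    refine h1.trans ?_
    rw [Fin.sum_univ_succ]
    have h2 : u 0 = 0 := by simp [hu, e0]
    have h3 : ∀ i : Fin m, u i.succ = y i.succ := fun i => by simp [hu, e0]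
    simp only [h2, h3, abs_zero, zero_add]
    calc ∑ i : Fin m, |y i.succ| ≤ ∑ i : Fin m, p.nu := Finset.sum_le_sum fun i _ => hy i
      _ = m * p.nu := by simp
  refine ⟨p.sg + (1 - 2 * p.sg) * y 0, ?_, ?_, p.kap • p.Rot j s u, fun i => ?_, ?_, fun i => ?_⟩
  · nlinarith
  · nlinarith
  · have h1 : |(p.kap • p.Rot j s u) i| ≤ ‖p.kap • p.Rot j s u‖ := by
      rw [← Real.norm_eq_abs]
      exact PiLp.norm_apply_le _ i
    refine h1.trans ?_
    rw [norm_smul, LinearIsometryEquiv.norm_map, Real.norm_eq_abs, abs_of_nonneg hkap0]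
    have h2 : m * p.nu = p.ep * p.sg / 16 := by
      rw [Par.nu]
      field_simp
    calc p.kap * ‖u‖ ≤ (2 * p.tau) * (m * p.nu) :=
          mul_le_mul hkap hunorm (norm_nonneg _) (by positivity)
      _ = p.tau * p.ep * p.sg / 8 := by rw [h2]; ring
  · rw [Par.theta]
    conv_lhs => rw [hyu]
    rw [map_add, map_smul, rot_e0 p j s hs]
    simp only [PiLp.add_apply, PiLp.smul_apply, smul_eq_mul, BK3_V_zero, BK3_dv_zero, Par.kap,
      Par.ell]
    field_simp
    ring
  · rw [Par.theta]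
    conv_lhs => rw [hyu]
    rw [map_add, map_smul, rot_e0 p j s hs]
    simp only [PiLp.add_apply, PiLp.smul_apply, smul_eq_mul, BK3_V_succ, BK3_dv_succ, Par.kap,
      Par.ell]
    by_cases h : i = j
    · rw [if_pos h, if_pos h]
      field_simp
      ring
    · rw [if_neg h, if_neg h]
      field_simp
      ring

theorem BK3_tauT {m : ℕ} (p : Par m) : p.tau * (p.T : ℝ) = 1 := by
  have h1 : (0 : ℝ) < p.M := by exact_mod_cast p.hM
  have h2 : (0 : ℝ) < p.n := by exact_mod_cast p.hn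
  have h3 : (0 : ℝ) < p.N := by exact_mod_cast p.hN
  rw [Par.tau, Par.T]
  push_cast
  field_simp

theorem BK3_tauB {m : ℕ} (p : Par m) : p.tau * (p.B : ℝ) = 1 / (5 * p.N) + p.tau := by
  have h1 : (0 : ℝ) < p.M := by exact_mod_cast p.hM
  have h2 : (0 : ℝ) < p.n := by exact_mod_cast p.hn
  have h3 : (0 : ℝ) < p.N := by exact_mod_cast p.hN
  rw [Par.tau, Par.B]
  push_cast
  field_simp
  ring

theorem BK3_w {m : ℕ} (p : Par m) : p.w = p.tau * (2 * p.M) := by
  have h1 : (0 : ℝ) < p.M := by exact_mod_cast p.hM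
  have h2 : (0 : ℝ) < p.n := by exact_mod_cast p.hn
  have h3 : (0 : ℝ) < p.N := by exact_mod_cast p.hN
  rw [Par.tau, Par.w]
  field_simp
  ring

/-- TARGET 5 -/
theorem tube_sub {m : ℕ} (p : Par m) (b : Zv m) (j : Fin m) (s : ℤ) (h : p.IsEdge b j s) :
    p.tube b j s ⊆ K m p.nu := by
  obtain ⟨hs, -, hb0, hbT, hB, hBj⟩ := h
  intro z hz
  obtain ⟨θ, hθ0, hθ1, ζ, hζ, hz0, hz1⟩ := BK3_rep p b j s hs z hz
  have hsg0 := p.hsg0
  have hsg1 := p.hsg1
  have htau := BK3_tau_pos p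
  have hep := p.hep0
  have hep1 := p.hep1
  have hr : p.tau * p.ep * p.sg / 8 ≤ p.tau * p.sg := by
    have : p.tau * p.sg * p.ep ≤ p.tau * p.sg * 1 :=
      mul_le_mul_of_nonneg_left hep1 (by positivity)
    have h0 : 0 < p.tau * p.sg := by positivity
    nlinarith
  have hb0' : (0 : ℝ) ≤ b 0 := by exact_mod_cast hb0
  have hbT' : (b 0 : ℝ) + 1 ≤ p.T := by exact_mod_cast hbT
  have hζ0 := abs_le.1 (hζ 0)
  refine ⟨?_, ?_, fun i => ?_⟩
  · rw [hz0]
    nlinarith [mul_nonneg htau.le hb0', mul_le_mul_of_nonneg_left hθ0 htau.le]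
  · rw [hz0, ← BK3_tauT p]
    nlinarith [mul_le_mul_of_nonneg_left hbT' htau.le, mul_le_mul_of_nonneg_left hθ1 htau.le]
  · rw [hz1]
    have hBr : ∀ i : Fin m, |(b i.succ : ℝ)| ≤ p.B := fun i => by
      have := hB i
      exact_mod_cast this
    have hBj' : |(b j.succ : ℝ) + s| ≤ p.B := by exact_mod_cast hBj
    have h1 : |(b i.succ : ℝ) + θ * (if i = j then (s : ℝ) else 0)| ≤ p.B := by
      by_cases hij : i = j
      · subst hij
        rw [if_pos rfl]
        have a1 := abs_le.1 (hBr i)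
        have a2 := abs_le.1 hBj'
        have t0 : 0 ≤ θ := by linarith
        have t1 : 0 ≤ 1 - θ := by linarith
        have e : (b i.succ : ℝ) + θ * s = (1 - θ) * b i.succ + θ * (b i.succ + s) := by ring
        rw [e, abs_le]
        constructor <;> nlinarith
      · rw [if_neg hij, mul_zero, add_zero]
        exact hBr i
    have h2 : |ζ i.succ| ≤ p.tau * p.ep := by
      refine (hζ i.succ).trans ?_
      have : 0 < p.tau * p.ep := by positivity
      nlinarith
    have h5 : p.ep * (1 / (5 * p.N)) + 4 * p.tau * p.ep ≤ p.nu := by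
      have := p.h5
      rw [Par.nu, Par.tau]
      exact this
    have h3 : |p.tau * p.ep * (b i.succ + θ * (if i = j then (s : ℝ) else 0))| ≤
        p.tau * p.ep * p.B := by
      rw [abs_mul, abs_of_pos (show (0 : ℝ) < p.tau * p.ep by positivity)]
      exact mul_le_mul_of_nonneg_left h1 (by positivity)
    have h4 : p.tau * p.ep * p.B = p.ep * (1 / (5 * p.N)) + p.tau * p.ep := by
      have := BK3_tauB p
      calc p.tau * p.ep * p.B = p.ep * (p.tau * p.B) := by ring
        _ = _ := by rw [this]; ring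
    have h6 : 0 < p.tau * p.ep := by positivity
    refine (abs_add_le _ _).trans ?_
    linarith

/-- TARGET 6 -/
theorem tube_disj {m : ℕ} (p : Par m) (b b' : Zv m) (j j' : Fin m) (s s' : ℤ)
    (hs : s = 1 ∨ s = -1) (hs' : s' = 1 ∨ s' = -1) (hb : Even (∑ i, b i)) (hb' : Even (∑ i, b' i))
    (z : E m) (hz : z ∈ p.tube b j s) (hz' : z ∈ p.tube b' j' s') : b = b' ∧ j = j' ∧ s = s' := by
  obtain ⟨θ, hθ0, hθ1, ζ, hζ, hz0, hz1⟩ := BK3_rep p b j s hs z hz
  obtain ⟨θ', hθ0', hθ1', ζ', hζ', hz0', hz1'⟩ := BK3_rep p b' j' s' hs' z hz'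
  have hsg0 := p.hsg0
  have hsg1 := p.hsg1
  have htau := BK3_tau_pos p
  have hep := p.hep0
  have hep1 := p.hep1
  have hz0z := abs_le.1 (hζ 0)
  have hz0z' := abs_le.1 (hζ' 0)
  have hes : p.ep * p.sg ≤ p.sg := by nlinarith
  -- the coordinate `0`
  have e1 : |((b 0 : ℝ) - b' 0) + (θ - θ')| ≤ p.ep * p.sg / 4 := by
    have h1 : p.tau * (((b 0 : ℝ) - b' 0) + (θ - θ')) = ζ' 0 - ζ 0 := by
      rw [hz0] at hz0'
      linarith
    have h2 : |p.tau * (((b 0 : ℝ) - b' 0) + (θ - θ'))| ≤ p.tau * (p.ep * p.sg / 4) := by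
      rw [h1, abs_le]
      constructor <;> nlinarith
    rw [abs_mul, abs_of_pos htau] at h2
    exact le_of_mul_le_mul_left h2 htau
  have e1' := abs_le.1 e1
  have hb0 : b 0 = b' 0 := by
    have h1 : ((b 0 - b' 0 : ℤ) : ℝ) < 1 := by push_cast; linarith
    have h2 : (-1 : ℝ) < ((b 0 - b' 0 : ℤ) : ℝ) := by push_cast; linarith
    have h1' : b 0 - b' 0 < 1 := by exact_mod_cast h1
    have h2' : -1 < b 0 - b' 0 := by exact_mod_cast h2
    omega
  have hθ : |θ - θ'| ≤ p.ep * p.sg / 4 := by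
    rw [hb0, sub_self, zero_add] at e1
    exact e1
  have hθ'' := abs_le.1 hθ
  -- the other coordinates
  have e2 : ∀ i : Fin m, |((b i.succ : ℝ) - b' i.succ) + (θ * (if i = j then (s : ℝ) else 0) -
      θ' * (if i = j' then (s' : ℝ) else 0))| ≤ p.sg / 4 := by
    intro i
    have hzz := abs_le.1 (hζ i.succ)
    have hzz' := abs_le.1 (hζ' i.succ)
    have hte : 0 < p.tau * p.ep := by positivity
    have h1 : (p.tau * p.ep) * (((b i.succ : ℝ) - b' i.succ) +
        (θ * (if i = j then (s : ℝ) else 0) - θ' * (if i = j' then (s' : ℝ) else 0))) =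
        ζ' i.succ - ζ i.succ := by
      have a1 := hz1 i
      rw [hz1' i] at a1
      linarith
    have h2 : |(p.tau * p.ep) * (((b i.succ : ℝ) - b' i.succ) +
        (θ * (if i = j then (s : ℝ) else 0) - θ' * (if i = j' then (s' : ℝ) else 0)))| ≤
        (p.tau * p.ep) * (p.sg / 4) := by
      rw [h1, abs_le]
      constructor <;> nlinarith
    rw [abs_mul, abs_of_pos hte] at h2
    exact le_of_mul_le_mul_left h2 hte
  have hint : ∀ a b : ℤ, |((a : ℝ) - b)| < 1 → a = b := by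
    intro a b h
    have h' := abs_lt.1 h
    have h1 : ((a - b : ℤ) : ℝ) < 1 := by push_cast; linarith
    have h2 : (-1 : ℝ) < ((a - b : ℤ) : ℝ) := by push_cast; linarith
    have h1' : a - b < 1 := by exact_mod_cast h1
    have h2' : -1 < a - b := by exact_mod_cast h2
    omega
  have hjj : j = j' := by
    by_contra hne
    have h := abs_le.1 (e2 j)
    rw [if_pos rfl, if_neg hne, mul_zero, sub_zero] at h
    rcases hs with rfl | rfl
    · push_cast at h
      have h1 : ((b j.succ - b' j.succ : ℤ) : ℝ) < 0 := by push_cast; linarith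
      have h2 : (-1 : ℝ) < ((b j.succ - b' j.succ : ℤ) : ℝ) := by push_cast; linarith
      have h1' : b j.succ - b' j.succ < 0 := by exact_mod_cast h1
      have h2' : -1 < b j.succ - b' j.succ := by exact_mod_cast h2
      omega
    · push_cast at h
      have h1 : ((b j.succ - b' j.succ : ℤ) : ℝ) < 1 := by push_cast; linarith
      have h2 : (0 : ℝ) < ((b j.succ - b' j.succ : ℤ) : ℝ) := by push_cast; linarith
      have h1' : b j.succ - b' j.succ < 1 := by exact_mod_cast h1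
      have h2' : 0 < b j.succ - b' j.succ := by exact_mod_cast h2
      omega
  subst hjj
  have hoff : ∀ i : Fin m, i ≠ j → b i.succ = b' i.succ := by
    intro i hi
    refine hint _ _ ?_
    have h := e2 i
    rw [if_neg hi, if_neg hi, mul_zero, mul_zero, sub_zero, add_zero] at h
    linarith
  have hss : s = s' := by
    by_contra hne
    have h := abs_le.1 (e2 j)
    rw [if_pos rfl, if_pos rfl] at h
    have hsum : ∑ i, b i = ∑ i, b' i + (b j.succ - b' j.succ) := by
      rw [Fin.sum_univ_succ, Fin.sum_univ_succ, hb0,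
        ← Finset.add_sum_erase _ _ (Finset.mem_univ j),
        ← Finset.add_sum_erase Finset.univ (fun i : Fin m => b' i.succ) (Finset.mem_univ j),
        Finset.sum_congr rfl (fun i hi => hoff i (Finset.ne_of_mem_erase hi))]
      ring
    have key : b j.succ - b' j.succ = 1 ∨ b j.succ - b' j.succ = -1 := by
      rcases hs with rfl | rfl <;> rcases hs' with rfl | rfl
      · exact absurd rfl hne
      · right
        push_cast at h
        have h1 : ((b j.succ - b' j.succ : ℤ) : ℝ) < 0 := by push_cast; linarith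
        have h2 : (-2 : ℝ) < ((b j.succ - b' j.succ : ℤ) : ℝ) := by push_cast; linarith
        have h1' : b j.succ - b' j.succ < 0 := by exact_mod_cast h1
        have h2' : -2 < b j.succ - b' j.succ := by exact_mod_cast h2
        omega
      · left
        push_cast at h
        have h1 : ((b j.succ - b' j.succ : ℤ) : ℝ) < 2 := by push_cast; linarith
        have h2 : (0 : ℝ) < ((b j.succ - b' j.succ : ℤ) : ℝ) := by push_cast; linarith
        have h1' : b j.succ - b' j.succ < 2 := by exact_mod_cast h1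
        have h2' : 0 < b j.succ - b' j.succ := by exact_mod_cast h2
        omega
      · exact absurd rfl hne
    rw [hsum] at hb
    obtain ⟨x, hx⟩ := hb
    obtain ⟨y, hy⟩ := hb'
    omega
  subst hss
  refine ⟨?_, rfl, rfl⟩
  funext i
  refine Fin.cases hb0 (fun i => ?_) i
  by_cases hi : i = j
  · subst hi
    refine hint _ _ ?_
    have h := abs_le.1 (e2 i)
    rw [if_pos rfl] at h
    rcases hs with rfl | rfl
    · push_cast at h
      rw [abs_lt]
      constructor <;> linarith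
    · push_cast at h
      rw [abs_lt]
      constructor <;> linarith
  · exact hoff i hi

/-- TARGET 7: a tube which meets a cell starts near the cell. -/
theorem tube_meets {m : ℕ} (p : Par m) (b : Zv m) (j : Fin m) (s : ℤ) (hs : s = 1 ∨ s = -1)
    (κ : ℕ) (z : E m) (hz : z ∈ p.tube b j s) (hz' : z ∈ p.cell κ) :
    2 * (p.M : ℤ) * κ ≤ b 0 ∧ b 0 < 2 * (p.M : ℤ) * (κ + 1) ∧
      ∀ i : Fin m, |b i.succ| ≤ 2 * (p.H : ℤ) + 1 := by
  obtain ⟨θ, hθ0, hθ1, ζ, hζ, hz0, hz1⟩ := BK3_rep p b j s hs z hz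
  obtain ⟨c0, c1, c2⟩ := hz'
  have hsg0 := p.hsg0
  have hsg1 := p.hsg1
  have htau := BK3_tau_pos p
  have hep := p.hep0
  have hep1 := p.hep1
  have hes : p.ep * p.sg ≤ p.sg := by nlinarith
  have hz0z := abs_le.1 (hζ 0)
  have hts : p.tau * p.ep * p.sg / 8 ≤ p.tau * (p.sg / 8) := by nlinarith
  rw [BK3_w] at c0 c1
  rw [hz0] at c0 c1
  have a1 : (2 * (p.M : ℝ)) * κ < (b 0 : ℝ) + 1 := by
    have : p.tau * ((2 * (p.M : ℝ)) * κ) < p.tau * ((b 0 : ℝ) + 1) := by nlinarith
    exact lt_of_mul_lt_mul_left this htau.le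
  have a2 : (b 0 : ℝ) < (2 * (p.M : ℝ)) * (κ + 1) := by
    have : p.tau * (b 0 : ℝ) < p.tau * ((2 * (p.M : ℝ)) * (κ + 1)) := by nlinarith
    exact lt_of_mul_lt_mul_left this htau.le
  refine ⟨?_, ?_, fun i => ?_⟩
  · have : (2 * (p.M : ℤ)) * κ < b 0 + 1 := by exact_mod_cast a1
    omega
  · exact_mod_cast a2
  · obtain ⟨c3, c4⟩ := c2 i
    rw [hz1, Par.h] at c3 c4
    have hzz := abs_le.1 (hζ i.succ)
    have hte : 0 < p.tau * p.ep := by positivity
    have hbd : |θ * (if i = j then (s : ℝ) else 0)| ≤ 1 - p.sg := by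
      by_cases hij : i = j
      · rw [if_pos hij]
        rcases hs with rfl | rfl
        · push_cast
          rw [abs_le]
          constructor <;> linarith
        · push_cast
          rw [abs_le]
          constructor <;> linarith
      · rw [if_neg hij, mul_zero, abs_zero]
        linarith
    have hbd' := abs_le.1 hbd
    have b1 : (b i.succ : ℝ) ≤ 2 * p.H + 1 := by
      have : (p.tau * p.ep) * (b i.succ : ℝ) ≤ (p.tau * p.ep) * (2 * p.H + 1) := by nlinarith
      exact le_of_mul_le_mul_left this hte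
    have b2 : -(2 * (p.H : ℝ) + 1) ≤ (b i.succ : ℝ) := by
      have : (p.tau * p.ep) * (-(2 * (p.H : ℝ) + 1)) ≤ (p.tau * p.ep) * (b i.succ : ℝ) := by
        nlinarith
      exact le_of_mul_le_mul_left this hte
    rw [abs_le]
    constructor
    · exact_mod_cast b2
    · exact_mod_cast b1

end Pool.Agent.Helper724BK
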