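import Pool.Agent.Helper724_BK.Defs

/-!
# Volumes of boxes and tubes (job BK4)
-/

set_option autoImplicit false
open MeasureTheory Metric Set Filter Topology
open scoped ENNReal

namespace Pool.Agent.Helper724BK

/-- proved in job BK3 -/
def Meets {m : ℕ} (p : Par m) : Prop := ∀ (b : Zv m) (j : Fin m) (s : ℤ), (s = 1 ∨ s = -1) →
    ∀ (κ : ℕ) (z : E m), z ∈ p.tube b j s → z ∈ p.cell κ →
    2 * (p.M : ℤ) * κ ≤ b 0 ∧ b 0 < 2 * (p.M : ℤ) * (κ + 1) ∧
      ∀ i : Fin m, |b i.succ| ≤ 2 * (p.H : ℤ) + 1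

theorem BK4_K_eq (m : ℕ) (ν : ℝ) : K m ν = (@WithLp.ofLp 2 (Fin (m + 1) → ℝ)) ⁻¹'
    (Icc (Fin.cons 0 (fun _ : Fin m => -ν)) (Fin.cons 1 (fun _ : Fin m => ν))) := by
  ext z
  simp only [K, mem_ofPred_eq, mem_preimage, mem_Icc, Pi.le_def, Fin.forall_fin_succ, Fin.cons_zero,
    Fin.cons_succ, abs_le]
  constructor
  · rintro ⟨h0, h1, h2⟩
    exact ⟨⟨h0, fun i => (h2 i).1⟩, ⟨h1, fun i => (h2 i).2⟩⟩
  · rintro ⟨⟨h0, h2⟩, h1, h3⟩
    exact ⟨h0, h1, fun i => ⟨h2 i, h3 i⟩⟩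

theorem BK4_box_eq (m : ℕ) (t w h : ℝ) : box m t w h = (@WithLp.ofLp 2 (Fin (m + 1) → ℝ)) ⁻¹'
    (Set.pi univ fun i => Ico ((Fin.cons t (fun _ : Fin m => -h) : Fin (m + 1) → ℝ) i)
      ((Fin.cons (t + w) (fun _ : Fin m => h) : Fin (m + 1) → ℝ) i)) := by
  ext z
  simp only [box, mem_ofPred_eq, mem_preimage, mem_Ico, Set.mem_pi, mem_univ, forall_true_left,
    Fin.forall_fin_succ, Fin.cons_zero, Fin.cons_succ]
  constructor
  · rintro ⟨h0, h1, h2⟩
    exact ⟨⟨h0, h1⟩, h2⟩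
  · rintro ⟨⟨h0, h1⟩, h2⟩
    exact ⟨h0, h1, h2⟩

/-- TARGET 1 -/
theorem vol_K (m : ℕ) (ν : ℝ) (hν : 0 ≤ ν) : volume (K m ν) = ENNReal.ofReal ((2 * ν) ^ m) := by
  rw [BK4_K_eq, (PiLp.volume_preserving_ofLp (Fin (m + 1))).measure_preimage
    measurableSet_Icc.nullMeasurableSet, Real.volume_Icc_pi, Fin.prod_univ_succ]
  simp only [Fin.cons_zero, Fin.cons_succ, sub_zero, ENNReal.ofReal_one, one_mul, sub_neg_eq_add,
    Finset.prod_const, Finset.card_univ, Fintype.card_fin]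
  rw [← ENNReal.ofReal_pow (by linarith)]
  congr 2
  ring

/-- TARGET 2 -/
theorem vol_box (m : ℕ) (t w h : ℝ) (hw : 0 ≤ w) (hh : 0 ≤ h) :
    volume (box m t w h) = ENNReal.ofReal (w * (2 * h) ^ m) := by
  rw [BK4_box_eq, (PiLp.volume_preserving_ofLp (Fin (m + 1))).measure_preimage
    (MeasurableSet.univ_pi fun i => measurableSet_Ico).nullMeasurableSet, Real.volume_pi_Ico,
    Fin.prod_univ_succ]
  simp only [Fin.cons_zero, Fin.cons_succ, add_sub_cancel_left, sub_neg_eq_add,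
    Finset.prod_const, Finset.card_univ, Fintype.card_fin]
  rw [← ENNReal.ofReal_pow (by linarith), ← ENNReal.ofReal_mul hw]
  congr 3
  ring

/-- the similarity as a composition -/
theorem BK4_image {m : ℕ} (a : E m) (k : ℝ) (R : E m ≃ₗᵢ[ℝ] E m) (S : Set (E m)) :
    (fun z => a + k • R z) '' S = (fun z => a + z) '' ((fun z => k • z) '' (R '' S)) := by
  rw [Set.image_image, Set.image_image]

theorem BK4_volR {m : ℕ} (R : E m ≃ₗᵢ[ℝ] E m) (S : Set (E m)) : volume (R '' S) = volume S := by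
  rw [show (R '' S) = R.symm ⁻¹' S from R.toEquiv.image_eq_preimage_symm S]
  exact R.symm.measurePreserving.measure_preimage_equiv (f := R.symm.toMeasurableEquiv) S

open scoped Pointwise in
/-- TARGET 3 -/
theorem vol_sim {m : ℕ} (a : E m) (k : ℝ) (hk : 0 < k) (R : E m ≃ₗᵢ[ℝ] E m) (S : Set (E m)) :
    volume ((fun z => a + k • R z) '' S) = ENNReal.ofReal (k ^ (m + 1)) * volume S := by
  rw [BK4_image, image_add_left, measure_preimage_add, Set.image_smul,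
    Measure.addHaar_smul_of_nonneg _ hk.le, BK4_volR]
  simp

/-- the similarity as a homeomorphism -/
noncomputable def BK4_homeo {m : ℕ} (a : E m) (k : ℝ) (hk : 0 < k) (R : E m ≃ₗᵢ[ℝ] E m) :
    E m ≃ₜ E m :=
  (R.toHomeomorph.trans (Homeomorph.smulOfNeZero k hk.ne')).trans (Homeomorph.addLeft a)

theorem BK4_homeo_apply {m : ℕ} (a : E m) (k : ℝ) (hk : 0 < k) (R : E m ≃ₗᵢ[ℝ] E m) (z : E m) :
    BK4_homeo a k hk R z = a + k • R z := rfl

theorem BK4_homeo_coe {m : ℕ} (a : E m) (k : ℝ) (hk : 0 < k) (R : E m ≃ₗᵢ[ℝ] E m) :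
    (BK4_homeo a k hk R : E m → E m) = fun z => a + k • R z := rfl

theorem BK4_map {m : ℕ} (a : E m) (k : ℝ) (hk : 0 < k) (R : E m ≃ₗᵢ[ℝ] E m) :
    ENNReal.ofReal (k ^ (m + 1)) • Measure.map (BK4_homeo a k hk R).toMeasurableEquiv volume =
      (volume : Measure (E m)) := by
  ext s hs
  rw [Measure.smul_apply, MeasurableEquiv.map_apply, smul_eq_mul, ← vol_sim a k hk R]
  congr 1
  change (BK4_homeo a k hk R) '' ((BK4_homeo a k hk R) ⁻¹' s) = s
  exact Set.image_preimage_eq _ (BK4_homeo a k hk R).surjective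

/-- TARGET 4: the change of variables in an integral, for every function `g`. -/
theorem lint_sim {m : ℕ} (a : E m) (k : ℝ) (hk : 0 < k) (R : E m ≃ₗᵢ[ℝ] E m) (S : Set (E m))
    (hS : MeasurableSet S) (g : E m → ℝ≥0∞) :
    ∫⁻ z in (fun z => a + k • R z) '' S, g z =
      ENNReal.ofReal (k ^ (m + 1)) * ∫⁻ z in S, g (a + k • R z) := by
  have hT : MeasurableSet ((fun z => a + k • R z) '' S) := by
    rw [← BK4_homeo_coe a k hk R]
    exact (BK4_homeo a k hk R).toMeasurableEquiv.measurableSet_image.2 hS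
  conv_lhs => rw [← BK4_map a k hk R]
  rw [Measure.restrict_smul, lintegral_smul_measure, smul_eq_mul]
  congr 1
  rw [MeasurableEquiv.restrict_map, lintegral_map_equiv]
  have : (BK4_homeo a k hk R).toMeasurableEquiv ⁻¹' ((fun z => a + k • R z) '' S) = S := by
    rw [← BK4_homeo_coe a k hk R]
    exact Set.preimage_image_eq _ (BK4_homeo a k hk R).injective
  rw [this]
  rfl

/-- TARGET 5: measurability of the sets -/
theorem meas_K (m : ℕ) (ν : ℝ) : MeasurableSet (K m ν) ∧ IsCompact (K m ν) := by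
  have hc : IsCompact (K m ν) := by
    rw [BK4_K_eq]
    have h1 : IsCompact (Icc (Fin.cons 0 (fun _ : Fin m => -ν)) (Fin.cons 1 (fun _ : Fin m => ν)) :
        Set (Fin (m + 1) → ℝ)) := isCompact_Icc
    exact (EuclideanSpace.equiv (Fin (m + 1)) ℝ).toHomeomorph.isCompact_preimage.2 h1
  exact ⟨hc.isClosed.measurableSet, hc⟩

/-- TARGET 6 -/
theorem meas_box (m : ℕ) (t w h : ℝ) : MeasurableSet (box m t w h) := by
  rw [BK4_box_eq]
  exact (PiLp.volume_preserving_ofLp (Fin (m + 1))).measurable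
    (MeasurableSet.univ_pi fun i => measurableSet_Ico)

namespace Par
variable {m : ℕ} (p : Par m)

theorem BK4_m {m : ℕ} (p : Par m) : (1 : ℝ) ≤ m := by exact_mod_cast p.hm
theorem BK4_M : (1 : ℝ) ≤ p.M := by exact_mod_cast p.hM
theorem BK4_H : (1 : ℝ) ≤ p.H := by exact_mod_cast p.hH
theorem BK4_n : (1 : ℝ) ≤ p.n := by exact_mod_cast p.hn
theorem BK4_N : (1 : ℝ) ≤ p.N := by exact_mod_cast p.hN

theorem BK4_tau : 0 < p.tau := by
  have h1 := p.BK4_M
  have h2 := p.BK4_n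
  have h3 := p.BK4_N
  unfold tau
  positivity

theorem BK4_ell : 0 < p.ell := by
  have := p.BK4_tau
  unfold ell
  positivity

theorem BK4_kap : 0 < p.kap := by
  have := p.BK4_ell
  have h1 := p.hsg1
  unfold kap
  have : 0 < 1 - 2 * p.sg := by linarith
  positivity

theorem BK4_nu : 0 ≤ p.nu := by
  have h1 := p.BK4_m
  have h2 := p.hep0
  have h3 := p.hsg0
  unfold nu
  positivity

theorem BK4_kap_le : p.kap ≤ 2 * p.tau := by
  have h1 := p.hsg0
  have h2 := p.BK4_ell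
  have h3 : Real.sqrt (1 + p.ep ^ 2) ≤ 2 := by
    rw [Real.sqrt_le_left (by norm_num)]
    have := p.hep0
    have := p.hep1
    nlinarith
  have h4 := p.BK4_tau
  have h5 : p.ell ≤ 2 * p.tau := by
    unfold ell
    nlinarith
  unfold kap
  nlinarith

end Par

theorem BK4_theta_coe {m : ℕ} (p : Par m) (b : Zv m) (j : Fin m) (s : ℤ) :
    p.theta b j s = fun z => (p.V b + (p.sg * p.ell) • p.dv j s) + p.kap • p.Rot j s z := rfl

/-- TARGET 7 -/
theorem meas_tube {m : ℕ} (p : Par m) (b : Zv m) (j : Fin m) (s : ℤ) :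
    MeasurableSet (p.tube b j s) ∧ volume (p.tube b j s) =
      ENNReal.ofReal (p.kap ^ (m + 1) * (2 * p.nu) ^ m) := by
  constructor
  · unfold Par.tube
    rw [BK4_theta_coe, ← BK4_homeo_coe _ _ p.BK4_kap (p.Rot j s)]
    exact (BK4_homeo _ _ p.BK4_kap (p.Rot j s)).toMeasurableEquiv.measurableSet_image.2
      (meas_K m p.nu).1
  · unfold Par.tube
    rw [BK4_theta_coe, vol_sim _ _ p.BK4_kap, vol_K m _ p.BK4_nu, ← ENNReal.ofReal_mul]
    exact pow_nonneg p.BK4_kap.le _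

/-- the lattice points whose tubes can meet the cell -/
noncomputable def BK4_F {m : ℕ} (p : Par m) (κ : ℕ) : Finset (Zv m) :=
  Fintype.piFinset (Fin.cons (Finset.Ico (2 * (p.M : ℤ) * κ) (2 * (p.M : ℤ) * (κ + 1)))
    (fun _ => Finset.Icc (-(2 * (p.H : ℤ) + 1)) (2 * (p.H : ℤ) + 1)))

theorem BK4_mem_F {m : ℕ} (p : Par m) (κ : ℕ) (b : Zv m) : b ∈ BK4_F p κ ↔
    2 * (p.M : ℤ) * κ ≤ b 0 ∧ b 0 < 2 * (p.M : ℤ) * (κ + 1) ∧
      ∀ i : Fin m, |b i.succ| ≤ 2 * (p.H : ℤ) + 1 := by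
  simp only [BK4_F, Fintype.mem_piFinset, Fin.forall_fin_succ, Fin.cons_zero, Fin.cons_succ,
    Finset.mem_Ico, Finset.mem_Icc, abs_le, and_assoc]

theorem BK4_card_F {m : ℕ} (p : Par m) (κ : ℕ) :
    (BK4_F p κ).card = (2 * p.M) * (4 * p.H + 3) ^ m := by
  unfold BK4_F
  rw [Fintype.card_piFinset, Fin.prod_univ_succ]
  simp only [Fin.cons_zero, Fin.cons_succ, Int.card_Ico, Int.card_Icc, Finset.prod_const,
    Finset.card_univ, Fintype.card_fin]
  congr 1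
  · have : 2 * (p.M : ℤ) * (κ + 1) - 2 * (p.M : ℤ) * κ = ((2 * p.M : ℕ) : ℤ) := by
      push_cast
      ring
    rw [this, Int.toNat_natCast]
  · congr 1
    have : 2 * (p.H : ℤ) + 1 + 1 - -(2 * (p.H : ℤ) + 1) = ((4 * p.H + 3 : ℕ) : ℤ) := by
      push_cast
      ring
    rw [this, Int.toNat_natCast]

theorem BK4_w {m : ℕ} (p : Par m) : p.w = 2 * p.M * p.tau := by
  have h1 := p.BK4_M
  have h2 := p.BK4_n
  have h3 := p.BK4_N
  unfold Par.w Par.tau
  field_simp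
  ring

theorem BK4_real {m : ℕ} (p : Par m) :
    (2 * m : ℝ) * ((2 * p.M) * (4 * p.H + 3) ^ m) * (p.kap ^ (m + 1) * (2 * p.nu) ^ m) ≤
      1 / 32 * (p.w * (2 * p.h) ^ m) := by
  have hm := p.BK4_m
  have hM := p.BK4_M
  have hH := p.BK4_H
  have ht := p.BK4_tau
  have hk := p.BK4_kap
  have hk2 := p.BK4_kap_le
  have hnu := p.BK4_nu
  have hep := p.hep0
  have hsg := p.hsg0
  have hsg1 := p.hsg1
  have a1 : ((4 : ℝ) * p.H + 3) ^ m ≤ (8 * p.H) ^ m :=
    pow_le_pow_left₀ (by positivity) (by linarith) m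
  have a2 : p.kap ^ (m + 1) ≤ (2 * p.tau) ^ (m + 1) := pow_le_pow_left₀ hk.le hk2 _
  have a3 : (p.sg / (2 * m)) ^ m ≤ p.sg / (2 * m) := by
    apply pow_le_of_le_one (by positivity) _ (by
      have := p.hm
      omega)
    rw [div_le_one (by positivity)]
    linarith
  have a4 : (8 * p.H * (2 * p.tau) * (2 * p.nu)) = (2 * p.h) * (p.sg / (2 * m)) := by
    unfold Par.nu Par.h
    field_simp
    ring
  have hh : 0 ≤ 2 * p.h := by
    unfold Par.h
    positivity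
  calc (2 * m : ℝ) * ((2 * p.M) * (4 * p.H + 3) ^ m) * (p.kap ^ (m + 1) * (2 * p.nu) ^ m)
      ≤ (2 * m : ℝ) * ((2 * p.M) * (8 * p.H) ^ m) * ((2 * p.tau) ^ (m + 1) * (2 * p.nu) ^ m) := by
        gcongr
    _ = (2 * m : ℝ) * (2 * p.M) * (2 * p.tau) * (8 * p.H * (2 * p.tau) * (2 * p.nu)) ^ m := by
        rw [mul_pow (8 * (p.H : ℝ) * (2 * p.tau)), mul_pow (8 * (p.H : ℝ)), pow_succ]
        ring
    _ = (2 * m : ℝ) * (2 * p.M) * (2 * p.tau) * ((2 * p.h) ^ m * (p.sg / (2 * m)) ^ m) := by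
        rw [a4, mul_pow]
    _ ≤ (2 * m : ℝ) * (2 * p.M) * (2 * p.tau) * ((2 * p.h) ^ m * (p.sg / (2 * m))) := by
        gcongr
    _ = (2 * p.M * p.tau) * (2 * p.h) ^ m * (2 * p.sg) := by
        field_simp
    _ ≤ (2 * p.M * p.tau) * (2 * p.h) ^ m * (1 / 32) := by
        have : 0 ≤ (2 * p.M * p.tau) * (2 * p.h) ^ m := by positivity
        apply mul_le_mul_of_nonneg_left _ this
        linarith
    _ = 1 / 32 * (p.w * (2 * p.h) ^ m) := by
        rw [BK4_w]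
        ring

/-- TARGET 8 -/
theorem tubes_cell {m : ℕ} (p : Par m) (hmeet : Meets p) (κ : ℕ) :
    volume (p.cell κ ∩ ⋃ (b : Zv m) (j : Fin m) (s : ℤ) (_ : s = 1 ∨ s = -1), p.tube b j s) ≤
      ENNReal.ofReal (1 / 32 * (p.w * (2 * p.h) ^ m)) := by
  classical
  have hsub : (p.cell κ ∩ ⋃ (b : Zv m) (j : Fin m) (s : ℤ) (_ : s = 1 ∨ s = -1), p.tube b j s) ⊆
      ⋃ x ∈ (BK4_F p κ ×ˢ ((Finset.univ : Finset (Fin m)) ×ˢ ({1, -1} : Finset ℤ))),
        p.tube x.1 x.2.1 x.2.2 := by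
    rintro z ⟨hz, hz2⟩
    simp only [mem_iUnion] at hz2
    obtain ⟨b, j, s, hs, hz2⟩ := hz2
    have := hmeet b j s hs κ z hz2 hz
    simp only [mem_iUnion]
    refine ⟨(b, j, s), ?_, hz2⟩
    simp only [Finset.mem_product, Finset.mem_univ, true_and, Finset.mem_insert,
      Finset.mem_singleton]
    exact ⟨(BK4_mem_F p κ b).2 this, hs⟩
  refine (measure_mono hsub).trans ((measure_biUnion_finset_le _ _).trans ?_)
  rw [Finset.sum_congr rfl (fun x _ => (meas_tube p x.1 x.2.1 x.2.2).2)]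
  rw [Finset.sum_const, Finset.card_product, Finset.card_product, BK4_card_F, Finset.card_univ,
    Fintype.card_fin, Finset.card_pair (by norm_num), nsmul_eq_mul]
  have h0 : (0 : ℝ) ≤ ((2 * p.M * (4 * p.H + 3) ^ m * (m * 2) : ℕ) : ℝ) := Nat.cast_nonneg _
  rw [show (((2 * p.M * (4 * p.H + 3) ^ m * (m * 2) : ℕ) : ℝ≥0∞)) =
    ENNReal.ofReal ((2 * p.M * (4 * p.H + 3) ^ m * (m * 2) : ℕ) : ℝ) from
    (ENNReal.ofReal_natCast _).symm, ← ENNReal.ofReal_mul h0]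
  apply ENNReal.ofReal_le_ofReal
  refine le_trans (le_of_eq ?_) (BK4_real p)
  push_cast
  ring

end Pool.Agent.Helper724BK
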