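import Pool.Agent.Helper724_BK.Defs

set_option autoImplicit false
set_option maxHeartbeats 4000000

namespace Pool.Agent.Helper724BK

/-- the construction from simplified inequalities -/
theorem BK6_mk (m : ℕ) (hm : 1 ≤ m) (L c ε sg : ℝ) (M H n N : ℕ) (hL : 1 ≤ L) (hc0 : 0 < c) (hc1 : c ≤ 1)
    (he0 : 0 < ε) (he1 : ε ≤ 1) (hs0 : 0 < sg) (hs1 : 64 * sg ≤ 1) (hs2 : 4 * L ^ 2 * sg ≤ ε ^ 2)
    (hM : 1 ≤ M) (hH : 1 ≤ H) (hn : 1 ≤ n) (hn2 : Even n) (hN : 1 ≤ N)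
    (a1 : 5888 * m * L ^ 2 * M ≤ c ^ 2 * H)
    (a2 : L ^ 2 * (m + 1) ≤ M * ε)
    (a3 : (m + 1) * (1 + 2 * L ^ 2) / M + 10 * ε ^ 2 * n + 320 * ε ^ 2 / c ≤ c / 128)
    (a4 : m * (H / M + 46 * L ^ 2 / c + 1 / M) ≤ n)
    (a5 : 32 * m ≤ 5 * N * sg) :
    ∃ p : Par m, p.L = L ∧ p.c = c ∧ p.ep = ε ∧ p.sg = sg ∧ p.M = M ∧ p.n = n ∧ p.N = N := by
  have hMr : (0 : ℝ) < M := by exact_mod_cast hM
  have hnr : (0 : ℝ) < n := by exact_mod_cast hn
  have hNr : (0 : ℝ) < N := by exact_mod_cast hN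
  have hmr : (0 : ℝ) < m := by exact_mod_cast hm
  have hm1 : (1 : ℝ) ≤ m := by exact_mod_cast hm
  have hM1 : (1 : ℝ) ≤ M := by exact_mod_cast hM
  have hn1 : (2 : ℝ) ≤ n := by
    obtain ⟨k, hk⟩ := hn2
    have : 2 ≤ n := by omega
    exact_mod_cast this
  obtain ⟨w, hw⟩ : ∃ w : ℝ, w = 1 / (5 * N * n) := ⟨_, rfl⟩
  have hw0 : 0 < w := by rw [hw]; positivity
  have ht : 1 / (10 * (M : ℝ) * n * N) = w / (2 * M) := by rw [hw]; field_simp; norm_num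
  have hW : 1 / (5 * (N : ℝ)) = n * w := by rw [hw]; field_simp
  refine ⟨⟨L, c, ε, sg, M, H, n, N, hm, hL, hc0, hc1, he0, he1, hs0, hs1, hs2, hM, hH, hn, hn2, hN,
    ?_, ?_, ?_, ?_, ?_⟩, rfl, rfl, rfl, rfl, rfl, rfl, rfl⟩
  · rw [ht, ← hw]
    have e1 : 128 * (m : ℝ) * (L * (46 * L * w * ε / c)) = (w * ε / (c * M)) * (5888 * m * L ^ 2 * M) := by
      field_simp; ring
    have e2 : c * (2 * (H : ℝ) * (w / (2 * M)) * ε) = (w * ε / (c * M)) * (c ^ 2 * H) := by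
      field_simp
    rw [e1, e2]
    exact mul_le_mul_of_nonneg_left a1 (by positivity)
  · rw [ht, ← hw]
    have e1 : L ^ 2 * (2 * ((m : ℝ) + 1) * (w / (2 * M))) = (w / M) * (L ^ 2 * (m + 1)) := by
      field_simp
    have e2 : w * ε = (w / M) * (M * ε) := by field_simp
    rw [e1, e2]
    exact mul_le_mul_of_nonneg_left a2 (by positivity)
  · rw [ht, hW, ← hw]
    have e1 : 2 * ((m : ℝ) + 1) * (w / (2 * M)) + 10 * ε ^ 2 * (n * w) + 320 * ε ^ 2 * w / c +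
        2 * L ^ 2 * (2 * (m + 1) * (w / (2 * M))) =
        w * ((m + 1) * (1 + 2 * L ^ 2) / M + 10 * ε ^ 2 * n + 320 * ε ^ 2 / c) := by
      field_simp; ring
    rw [e1, mul_comm (c / 128) w]
    exact mul_le_mul_of_nonneg_left a3 hw0.le
  · rw [ht, hW, ← hw]
    have e1 : (m : ℝ) * (2 * H * (w / (2 * M)) * ε + L * (46 * L * w * ε / c) +
        2 * (w / (2 * M)) * ε) = (ε * w) * (m * (H / M + 46 * L ^ 2 / c + 1 / M)) := by
      field_simp
    have e2 : ε * (n * w) = (ε * w) * n := by ring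
    rw [e1, e2]
    exact mul_le_mul_of_nonneg_left a4 (by positivity)
  · rw [ht]
    have h1 : 4 * (w / (2 * M)) ≤ 1 / (5 * (N : ℝ)) := by
      rw [hW]
      have : w / (2 * M) ≤ w / 2 := by
        apply div_le_div_of_nonneg_left hw0.le (by norm_num) (by linarith)
      nlinarith
    have h2 : 2 * (1 / (5 * (N : ℝ))) ≤ sg / (16 * m) := by
      rw [mul_one_div, div_le_div_iff₀ (by positivity) (by positivity)]
      linarith
    have h3 : ε * (1 / (5 * (N : ℝ))) + 4 * (w / (2 * M)) * ε =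
        ε * (1 / (5 * (N : ℝ)) + 4 * (w / (2 * M))) := by ring
    rw [h3, mul_div_assoc]
    exact mul_le_mul_of_nonneg_left (by linarith) he0.le

/-- TARGET -/
theorem par_exists (m : ℕ) (hm : 1 ≤ m) : ∃ C : ℕ, 1 ≤ C ∧ ∀ L c : ℝ, 1 ≤ L → 0 < c → c ≤ 1 →
    ∃ p : Par m, p.L = L ∧ p.c = c ∧ c ^ 2 / (C * L) ≤ p.ep ∧
      1 / (p.sg * p.tau) ≤ (C * L / c) ^ C := by
  have hmr : (0 : ℝ) < m := by exact_mod_cast hm
  have hm1 : (1 : ℝ) ≤ m := by exact_mod_cast hm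
  -- A = 12000 m, B = 576000000 m², D = 6000 m²
  obtain ⟨K, hK⟩ : ∃ K : ℕ, K = 10 * (24000 * m * (m + 1)) * (24000 * m ^ 2) *
    (14 * m * (576000000 * m ^ 2)) * (576000000 * m ^ 2) := ⟨_, rfl⟩
  have hKA : 12000 * m ≤ K := by
    rw [hK]
    have h1 : 1 ≤ (m + 1) := by omega
    have h2 : 1 ≤ m ^ 2 := Nat.one_le_pow _ _ hm
    calc 12000 * m ≤ 10 * (24000 * m * 1) * (24000 * 1) * (14 * 1 * (576000000 * 1)) * (576000000 * 1) := by
          omega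
      _ ≤ _ := by gcongr
  have hK13 : 13 ≤ K := by omega
  refine ⟨K, by omega, ?_⟩
  intro L c hL hc0 hc1
  have hL0 : 0 < L := by linarith
  obtain ⟨y, hy⟩ : ∃ y : ℝ, y = L / c := ⟨_, rfl⟩
  have hy1 : 1 ≤ y := by rw [hy, le_div_iff₀ hc0]; linarith
  have hy0 : 0 < y := by linarith
  have hLy : L = y * c := by rw [hy]; field_simp
  have hLley : L ≤ y := by rw [hLy]; exact mul_le_of_le_one_right hy0.le hc1
  -- the parameters
  obtain ⟨ε, hε⟩ : ∃ ε : ℝ, ε = c ^ 2 / (12000 * m * L) := ⟨_, rfl⟩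
  obtain ⟨sg, hsg⟩ : ∃ sg : ℝ, sg = 1 / (576000000 * m ^ 2 * y ^ 4) := ⟨_, rfl⟩
  obtain ⟨M, hM⟩ : ∃ M : ℕ, M = ⌈12000 * m * (m + 1) * (L ^ 3 / c ^ 2)⌉₊ := ⟨_, rfl⟩
  obtain ⟨n0, hn0⟩ : ∃ n0 : ℕ, n0 = ⌈6000 * m ^ 2 * y ^ 2⌉₊ := ⟨_, rfl⟩
  obtain ⟨N, hN⟩ : ∃ N : ℕ, N = ⌈7 * m * (576000000 * m ^ 2 * y ^ 4)⌉₊ := ⟨_, rfl⟩
  obtain ⟨H, hH⟩ : ∃ H : ℕ, H = ⌈5888 * m * y ^ 2 * M⌉₊ := ⟨_, rfl⟩
  have hε0 : 0 < ε := by rw [hε]; positivity
  have hsg0 : 0 < sg := by rw [hsg]; positivity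
  have hM1 : 12000 * m * (m + 1) * (L ^ 3 / c ^ 2) ≤ (M : ℝ) := by rw [hM]; exact Nat.le_ceil _
  have hn01 : 6000 * m ^ 2 * y ^ 2 ≤ (n0 : ℝ) := by rw [hn0]; exact Nat.le_ceil _
  have hN1 : 7 * m * (576000000 * m ^ 2 * y ^ 4) ≤ (N : ℝ) := by rw [hN]; exact Nat.le_ceil _
  have hH1 : 5888 * m * y ^ 2 * M ≤ (H : ℝ) := by rw [hH]; exact Nat.le_ceil _
  have hM2 : (M : ℝ) ≤ 12000 * m * (m + 1) * (L ^ 3 / c ^ 2) + 1 := by
    rw [hM]; exact (Nat.ceil_lt_add_one (by positivity)).le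
  have hn02 : (n0 : ℝ) ≤ 6000 * m ^ 2 * y ^ 2 + 1 := by
    rw [hn0]; exact (Nat.ceil_lt_add_one (by positivity)).le
  have hN2 : (N : ℝ) ≤ 7 * m * (576000000 * m ^ 2 * y ^ 4) + 1 := by
    rw [hN]; exact (Nat.ceil_lt_add_one (by positivity)).le
  have hH2 : (H : ℝ) ≤ 5888 * m * y ^ 2 * M + 1 := by
    rw [hH]; exact (Nat.ceil_lt_add_one (by positivity)).le
  have hy2 : 1 ≤ y ^ 2 := one_le_pow₀ hy1
  have hy3 : 1 ≤ y ^ 3 := one_le_pow₀ hy1
  have hy4 : 1 ≤ y ^ 4 := one_le_pow₀ hy1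
  have hm2 : (1 : ℝ) ≤ m ^ 2 := one_le_pow₀ hm1
  have hL3 : L ^ 3 / c ^ 2 = y ^ 3 * c := by rw [hLy]; field_simp
  have hL3a : 1 ≤ L ^ 3 / c ^ 2 := by
    rw [le_div_iff₀ (by positivity)]
    have h1 : 1 ≤ L ^ 3 := one_le_pow₀ hL
    have h2 : c ^ 2 ≤ 1 := pow_le_one₀ hc0.le hc1
    linarith
  have hL3b : L ^ 3 / c ^ 2 ≤ y ^ 3 := by
    rw [hL3]; exact mul_le_of_le_one_right (by positivity) hc1
  have hMpos : 1 ≤ M := by
    have : (0 : ℝ) < M := lt_of_lt_of_le (by positivity) hM1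
    exact_mod_cast this
  have hnpos : 1 ≤ n0 := by
    have : (0 : ℝ) < n0 := lt_of_lt_of_le (by positivity) hn01
    exact_mod_cast this
  have hNpos : 1 ≤ N := by
    have : (0 : ℝ) < N := lt_of_lt_of_le (by positivity) hN1
    exact_mod_cast this
  have hMr : (0 : ℝ) < M := by exact_mod_cast hMpos
  have hHpos : 1 ≤ H := by
    have : (0 : ℝ) < H := lt_of_lt_of_le (by positivity) hH1
    exact_mod_cast this
  have hNr : (0 : ℝ) < N := by exact_mod_cast hNpos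
  have hnr : (0 : ℝ) < n0 := by exact_mod_cast hnpos
  have hc2 : c ^ 2 ≤ 1 := pow_le_one₀ hc0.le hc1
  have hε1 : ε ≤ 1 := by
    rw [hε, div_le_one (by positivity)]
    have h1 : (1 : ℝ) ≤ m * L := one_le_mul_of_one_le_of_one_le hm1 hL
    linarith
  have hsg1 : 64 * sg ≤ 1 := by
    rw [hsg, mul_one_div, div_le_one (by positivity)]
    have h1 : (1 : ℝ) ≤ m ^ 2 * y ^ 4 := one_le_mul_of_one_le_of_one_le hm2 hy4
    linarith
  have hsg2 : 4 * L ^ 2 * sg ≤ ε ^ 2 := by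
    rw [hsg, hε, hLy]
    apply le_of_eq
    field_simp
    norm_num
  have a1 : 5888 * m * L ^ 2 * M ≤ c ^ 2 * H := by
    have : 5888 * m * L ^ 2 * M = c ^ 2 * (5888 * m * y ^ 2 * M) := by rw [hLy]; ring
    rw [this]
    exact mul_le_mul_of_nonneg_left hH1 (by positivity)
  have a2 : L ^ 2 * (m + 1) ≤ M * ε := by
    have : L ^ 2 * ((m : ℝ) + 1) = (12000 * m * (m + 1) * (L ^ 3 / c ^ 2)) * ε := by
      rw [hε]; field_simp
    rw [this]
    exact mul_le_mul_of_nonneg_right hM1 hε0.le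
  have a3 : (m + 1) * (1 + 2 * L ^ 2) / M + 10 * ε ^ 2 * ((2 * n0 : ℕ) : ℝ) + 320 * ε ^ 2 / c ≤ c / 128 := by
    have b1 : (m + 1) * (1 + 2 * L ^ 2) / M ≤ c / 512 := by
      rw [div_le_div_iff₀ hMr (by norm_num)]
      have h1 : c * (12000 * m * (m + 1) * (L ^ 3 / c ^ 2)) ≤ c * M :=
        mul_le_mul_of_nonneg_left hM1 hc0.le
      have h2 : c * (12000 * m * (m + 1) * (L ^ 3 / c ^ 2)) = 12000 * m * (m + 1) * (L ^ 2 * (L / c)) := by
        field_simp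
      have h3 : 1 ≤ L ^ 2 := one_le_pow₀ hL
      have h4 : L ^ 2 ≤ L ^ 2 * (L / c) := by
        rw [← hy]; exact le_mul_of_one_le_right (by positivity) hy1
      have h5 : ((m : ℝ) + 1) * (1 + 2 * L ^ 2) * 512 ≤ (m + 1) * (1536 * L ^ 2) := by
        rw [mul_assoc]
        apply mul_le_mul_of_nonneg_left _ (by positivity)
        linarith
      have h6 : ((m : ℝ) + 1) * (1536 * L ^ 2) ≤ 12000 * m * (m + 1) * (L ^ 2 * (L / c)) := by
        have h7 : 12000 * (m : ℝ) * (m + 1) * (L ^ 2 * (L / c)) =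
          (m + 1) * (12000 * (m * (L ^ 2 * (L / c)))) := by ring
        rw [h7]
        apply mul_le_mul_of_nonneg_left _ (by positivity)
        have h8 : L ^ 2 * (L / c) ≤ m * (L ^ 2 * (L / c)) :=
          le_mul_of_one_le_left (by positivity) hm1
        linarith
      linarith
    have b2 : 10 * ε ^ 2 * ((2 * n0 : ℕ) : ℝ) ≤ c / 512 := by
      push_cast
      have h1 : (n0 : ℝ) ≤ 6001 * m ^ 2 * y ^ 2 := by
        have h0 : (1 : ℝ) ≤ m ^ 2 * y ^ 2 := one_le_mul_of_one_le_of_one_le hm2 hy2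
        linarith
      have h2 : ε ^ 2 = c ^ 4 / (144000000 * m ^ 2 * L ^ 2) := by rw [hε]; field_simp; norm_num
      have h3 : 10 * ε ^ 2 * (2 * (6001 * m ^ 2 * y ^ 2)) = c ^ 2 * (120020 / 144000000) := by
        rw [h2, hLy]; field_simp; norm_num
      have h4 : 10 * ε ^ 2 * (2 * (n0 : ℝ)) ≤ 10 * ε ^ 2 * (2 * (6001 * m ^ 2 * y ^ 2)) := by
        apply mul_le_mul_of_nonneg_left _ (by positivity)
        linarith
      rw [h3] at h4
      have h5 : c ^ 2 ≤ c := by rw [sq]; exact mul_le_of_le_one_left hc0.le hc1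
      linarith
    have b3 : 320 * ε ^ 2 / c ≤ c / 512 := by
      have h2 : ε ^ 2 = c ^ 4 / (144000000 * m ^ 2 * L ^ 2) := by rw [hε]; field_simp; norm_num
      have h3 : 320 * ε ^ 2 / c = c ^ 3 * (320 / (144000000 * (m ^ 2 * L ^ 2))) := by
        rw [h2]; field_simp
      rw [h3]
      have h4 : 1 ≤ (m : ℝ) ^ 2 * L ^ 2 := one_le_mul_of_one_le_of_one_le hm2 (one_le_pow₀ hL)
      have h5 : 320 / (144000000 * ((m : ℝ) ^ 2 * L ^ 2)) ≤ 1 / 512 := by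
        rw [div_le_div_iff₀ (by positivity) (by norm_num)]
        linarith
      have h6 : c ^ 3 ≤ c := by
        rw [pow_succ]
        exact mul_le_of_le_one_left hc0.le hc2
      calc c ^ 3 * (320 / (144000000 * (m ^ 2 * L ^ 2))) ≤ c ^ 3 * (1 / 512) :=
            mul_le_mul_of_nonneg_left h5 (by positivity)
        _ ≤ c * (1 / 512) := mul_le_mul_of_nonneg_right h6 (by norm_num)
        _ = c / 512 := by ring
    linarith
  have a4 : m * (H / M + 46 * L ^ 2 / c + 1 / M) ≤ ((2 * n0 : ℕ) : ℝ) := by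
    push_cast
    have h1 : (H : ℝ) / M ≤ 5888 * m * y ^ 2 + 1 := by
      rw [div_le_iff₀ hMr]
      have : (1 : ℝ) ≤ M := by exact_mod_cast hMpos
      rw [add_mul, one_mul]
      linarith
    have h2 : 46 * L ^ 2 / c ≤ 46 * y ^ 2 := by
      rw [hLy, div_le_iff₀ hc0]
      have : 46 * (y * c) ^ 2 = 46 * y ^ 2 * c * c := by ring
      rw [this]
      exact mul_le_of_le_one_right (by positivity) hc1
    have h3 : 1 / (M : ℝ) ≤ 1 := by
      rw [div_le_one hMr]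
      exact_mod_cast hMpos
    have h4 : (H : ℝ) / M + 46 * L ^ 2 / c + 1 / M ≤ 5936 * m * y ^ 2 := by
      have h5 : y ^ 2 ≤ m * y ^ 2 := le_mul_of_one_le_left (by positivity) hm1
      linarith
    have h6 : m * ((H : ℝ) / M + 46 * L ^ 2 / c + 1 / M) ≤ m * (5936 * m * y ^ 2) :=
      mul_le_mul_of_nonneg_left h4 hmr.le
    have h7 : (m : ℝ) * (5936 * m * y ^ 2) = 5936 * (m ^ 2 * y ^ 2) := by ring
    have h8 : 0 ≤ (m : ℝ) ^ 2 * y ^ 2 := by positivity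
    linarith
  have a5 : 32 * m ≤ 5 * N * sg := by
    have h1 : 5 * (7 * m * (576000000 * m ^ 2 * y ^ 4)) * sg ≤ 5 * N * sg := by
      apply mul_le_mul_of_nonneg_right _ hsg0.le
      linarith
    have h2 : 5 * (7 * m * (576000000 * m ^ 2 * y ^ 4)) * sg = 35 * m := by
      rw [hsg]; field_simp; norm_num
    linarith
  obtain ⟨p, p1, p2, p3, p4, p5, p6, p7⟩ := BK6_mk m hm L c ε sg M H (2 * n0) N hL hc0 hc1 hε0 hε1 hsg0 hsg1 hsg2
    hMpos hHpos (by omega) (even_two_mul _) hNpos a1 a2 a3 a4 a5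
  refine ⟨p, p1, p2, ?_, ?_⟩
  · rw [p3, hε]
    apply div_le_div_of_nonneg_left (by positivity) (by positivity)
    apply mul_le_mul_of_nonneg_right _ hL0.le
    exact_mod_cast hKA
  · unfold Par.tau
    rw [p4, p5, p6, p7]
    have e1 : 1 / (sg * (1 / (10 * (M : ℝ) * ((2 * n0 : ℕ) : ℝ) * N))) =
        10 * M * (2 * n0) * N * (576000000 * m ^ 2 * y ^ 4) := by
      rw [hsg]; push_cast; field_simp
    rw [e1]
    have c1 : (M : ℝ) ≤ 24000 * m * (m + 1) * y ^ 3 := by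
      have h1 : 1 ≤ 12000 * (m : ℝ) * (m + 1) * y ^ 3 := by
        have : 1 ≤ (m : ℝ) * (m + 1) * y ^ 3 :=
          one_le_mul_of_one_le_of_one_le (one_le_mul_of_one_le_of_one_le hm1 (by linarith)) hy3
        linarith
      have h2 : 12000 * (m : ℝ) * (m + 1) * (L ^ 3 / c ^ 2) ≤ 12000 * m * (m + 1) * y ^ 3 :=
        mul_le_mul_of_nonneg_left hL3b (by positivity)
      linarith
    have c2 : (2 * n0 : ℝ) ≤ 24000 * m ^ 2 * y ^ 2 := by
      have h1 : 1 ≤ (m : ℝ) ^ 2 * y ^ 2 := one_le_mul_of_one_le_of_one_le hm2 hy2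
      linarith
    have c3 : (N : ℝ) ≤ 14 * m * (576000000 * m ^ 2) * y ^ 4 := by
      have h1 : 1 ≤ (m : ℝ) * (m ^ 2 * y ^ 4) :=
        one_le_mul_of_one_le_of_one_le hm1 (one_le_mul_of_one_le_of_one_le hm2 hy4)
      linarith
    have hKr : (K : ℝ) = 10 * (24000 * m * (m + 1)) * (24000 * m ^ 2) *
        (14 * m * (576000000 * m ^ 2)) * (576000000 * m ^ 2) := by
      rw [hK]; push_cast; ring
    have hK1 : (1 : ℝ) ≤ K := by
      have : 1 ≤ K := by omega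
      exact_mod_cast this
    calc 10 * (M : ℝ) * (2 * n0) * N * (576000000 * m ^ 2 * y ^ 4)
        ≤ 10 * (24000 * m * (m + 1) * y ^ 3) * (24000 * m ^ 2 * y ^ 2) *
          (14 * m * (576000000 * m ^ 2) * y ^ 4) * (576000000 * m ^ 2 * y ^ 4) := by
          gcongr
      _ = K * y ^ 13 := by rw [hKr]; ring
      _ ≤ K ^ K * y ^ K := by
          apply mul_le_mul
          · exact le_self_pow₀ hK1 (by omega)
          · exact pow_le_pow_right₀ hy1 hK13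
          · positivity
          · positivity
      _ = (K * L / c) ^ K := by rw [hy, ← mul_pow]; congr 1; ring

end Pool.Agent.Helper724BK
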