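import Pool.Agent.Helper724_BK.Defs

set_option autoImplicit false
open MeasureTheory Metric Set Filter Topology

namespace Pool.Agent.Helper724BK

/-- TARGET 1 -/
theorem cont_approx {m : ℕ} (c : ℝ) (hc : 0 < c) (ρ : E m → ℝ) (hρm : Measurable ρ)
    (hρ : ∀ z, 1 ≤ ρ z ∧ ρ z ≤ 1 + c) (A U : Set (E m)) (hA : IsCompact A) (hU : IsOpen U)
    (hAU : A ⊆ U) (δ : ℝ) (hδ : 0 < δ) :
    ∃ ρ' : E m → ℝ, Continuous ρ' ∧ (∀ z, 1 ≤ ρ' z ∧ ρ' z ≤ 1 + c) ∧ (∀ z, z ∉ U → ρ' z = 1) ∧
      ∫⁻ z in A, ENNReal.ofReal |ρ' z - ρ z| ≤ ENNReal.ofReal δ := by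
  classical
  have hint : Integrable (fun z => ρ z - 1) (volume.restrict A) := by
    refine Measure.integrableOn_of_bounded (M := c) (s := A) (hA.measure_lt_top.ne)
      (hρm.sub measurable_const).aestronglyMeasurable ?_
    filter_upwards with z
    rw [Real.norm_eq_abs, abs_le]
    have := hρ z
    constructor <;> linarith [this.1, this.2]
  have hδ' : ENNReal.ofReal δ ≠ 0 := by
    simpa using hδ
  obtain ⟨g, -, hg, gc, -⟩ := hint.exists_hasCompactSupport_lintegral_sub_le hδ'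
  obtain ⟨χ, hχ0, hχ1, hχ⟩ := exists_continuous_zero_one_of_isClosed (s := Uᶜ) (t := A)
    hU.isClosed_compl hA.isClosed (Set.disjoint_left.mpr fun x hx hxA => hx (hAU hxA))
  refine ⟨fun z => 1 + χ z * max 0 (min (g z) c), ?_, ?_, ?_, ?_⟩
  · exact continuous_const.add (χ.continuous.mul (continuous_const.max (gc.min continuous_const)))
  · intro z
    have h1 := hχ z
    have h2 : 0 ≤ max 0 (min (g z) c) := le_max_left _ _
    have h3 : max 0 (min (g z) c) ≤ c := max_le hc.le (min_le_right _ _)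
    constructor
    · have := mul_nonneg h1.1 h2
      show 1 ≤ 1 + χ z * max 0 (min (g z) c)
      linarith
    · have : χ z * max 0 (min (g z) c) ≤ 1 * c := mul_le_mul h1.2 h3 h2 zero_le_one
      show 1 + χ z * max 0 (min (g z) c) ≤ 1 + c
      linarith
  · intro z hz
    have : χ z = 0 := hχ0 hz
    show 1 + χ z * max 0 (min (g z) c) = 1
    rw [this]; ring
  · refine le_trans ?_ hg
    refine lintegral_mono_ae ?_
    filter_upwards [ae_restrict_mem hA.measurableSet] with z hz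
    have h1 : χ z = 1 := hχ1 hz
    rw [← ofReal_norm_eq_enorm, Real.norm_eq_abs]
    apply ENNReal.ofReal_le_ofReal
    have h2 := hρ z
    have key : |max 0 (min (g z) c) - (ρ z - 1)| ≤ |g z - (ρ z - 1)| := by
      have ha : 0 ≤ ρ z - 1 := by linarith [h2.1]
      have hb : ρ z - 1 ≤ c := by linarith [h2.2]
      rcases le_total (g z) 0 with h | h
      · have : max 0 (min (g z) c) = 0 := max_eq_left (le_trans (min_le_left _ _) h)
        rw [this, abs_of_nonpos (by linarith), abs_of_nonpos (by linarith)]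
        linarith
      · rcases le_total (g z) c with h' | h'
        · rw [min_eq_left h', max_eq_right h]
        · rw [min_eq_right h', max_eq_right hc.le, abs_of_nonneg (by linarith),
            abs_of_nonneg (by linarith)]
          linarith
    calc |1 + χ z * max 0 (min (g z) c) - ρ z| = |max 0 (min (g z) c) - (ρ z - 1)| := by
          rw [h1]; congr 1; ring
      _ ≤ |g z - (ρ z - 1)| := key
      _ = |ρ z - 1 - g z| := abs_sub_comm _ _

/-- TARGET 2 -/
theorem omega_mono (α : ℝ) (hα : 0 ≤ α) (hα1 : α ≤ 1) (t t' : ℝ) (ht : 0 ≤ t) (htt' : t ≤ t')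
    (ht' : t' ≤ Real.exp (-1)) : t * Real.log (1 / t) ^ α ≤ t' * Real.log (1 / t') ^ α := by
  rcases ht.eq_or_lt with h0 | h0
  · rw [← h0]
    rcases (h0 ▸ htt' : (0:ℝ) ≤ t').eq_or_lt with h1 | h1
    · rw [← h1]
    · have h2 : 0 ≤ Real.log (1 / t') := by
        apply Real.log_nonneg
        rw [le_div_iff₀ h1, one_mul]
        exact ht'.trans (Real.exp_le_one_iff.mpr (by norm_num))
      rw [zero_mul]
      exact mul_nonneg h1.le (Real.rpow_nonneg h2 _)
  · have h1 : 0 < t' := h0.trans_le htt'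
    set u := Real.log (1 / t) with hu
    set v := Real.log (1 / t') with hv
    have hut : t = Real.exp (-u) := by
      rw [hu, one_div, Real.log_inv, neg_neg, Real.exp_log h0]
    have hvt : t' = Real.exp (-v) := by
      rw [hv, one_div, Real.log_inv, neg_neg, Real.exp_log h1]
    have hv1 : 1 ≤ v := by
      have := Real.exp_le_exp.mp (hvt ▸ ht')
      linarith
    have huv : v ≤ u := by
      have := Real.exp_le_exp.mp (show Real.exp (-u) ≤ Real.exp (-v) by rw [← hut, ← hvt]; exact htt')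
      linarith
    have hv0 : 0 < v := by linarith
    have hu0 : 0 < u := by linarith
    have key : u ^ α ≤ Real.exp (u - v) * v ^ α := by
      have e1 : (u / v) ^ α ≤ Real.exp (u - v) := by
        calc (u / v) ^ α ≤ (u / v) ^ (1:ℝ) :=
              Real.rpow_le_rpow_of_exponent_le (by rw [le_div_iff₀ hv0]; linarith) hα1
          _ = u / v := Real.rpow_one _
          _ ≤ (u - v) + 1 := by
              rw [div_le_iff₀ hv0]
              nlinarith
          _ ≤ Real.exp (u - v) := Real.add_one_le_exp _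
      rw [Real.div_rpow hu0.le hv0.le, div_le_iff₀ (Real.rpow_pos_of_pos hv0 _)] at e1
      exact e1
    rw [hut, hvt]
    have e2 : Real.exp (-v) = Real.exp (-u) * Real.exp (u - v) := by
      rw [← Real.exp_add]; congr 1; ring
    rw [e2, mul_assoc]
    exact mul_le_mul_of_nonneg_left key (Real.exp_pos _).le

/-- TARGET 3 -/
theorem omega_ratio (α : ℝ) (hα : 0 ≤ α) (t t0 : ℝ) (ht0 : 0 < t0) (htt' : t0 ≤ t)
    (ht1 : t ≤ 1) : t * Real.log (1 / t) ^ α ≤ t * Real.log (1 / t0) ^ α := by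
  have ht : 0 < t := ht0.trans_le htt'
  refine mul_le_mul_of_nonneg_left ?_ ht.le
  refine Real.rpow_le_rpow ?_ ?_ hα
  · apply Real.log_nonneg
    rw [le_div_iff₀ ht]; linarith
  · apply Real.log_le_log (by positivity)
    exact one_div_le_one_div_of_le ht0 htt'

/-- TARGET 4: from `ω`-continuity to the coarse Lipschitz property, one direction. `D` is a bound for the distances. -/
theorem coarse_half {X : Type} (α : ℝ) (hα : 0 ≤ α) (hα1 : α ≤ 1) (C t0 ℓ s L D : ℝ) (hC : 0 < C)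
    (hℓ : 0 < ℓ) (hs : 0 < s) (hL : C * Real.log (1 / (ℓ * s)) ^ α ≤ L)
    (hs1 : ℓ * s ≤ Real.exp (-1)) (hD1 : ℓ * D ≤ Real.exp (-1)) (hD0 : ℓ * D ≤ t0)
    (u v : X → X → ℝ) (hu : ∀ x y, 0 ≤ u x y) (huD : ∀ x y, u x y ≤ D)
    (h : ∀ x y, ℓ * u x y ≤ t0 → ℓ * v x y ≤ C * (ℓ * u x y * Real.log (1 / (ℓ * u x y)) ^ α)) :
    ∀ x y, v x y ≤ L * max (u x y) s := by
  intro x y
  have h1 : ℓ * u x y ≤ ℓ * D := mul_le_mul_of_nonneg_left (huD x y) hℓ.le
  have h2 := h x y (h1.trans hD0)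
  have hls : 0 < ℓ * s := mul_pos hℓ hs
  have he1 : Real.exp (-1) ≤ 1 := Real.exp_le_one_iff.mpr (by norm_num)
  rcases le_total s (u x y) with hsu | hsu
  · rw [max_eq_left hsu]
    have h3 := omega_ratio α hα (ℓ * u x y) (ℓ * s) hls
      (mul_le_mul_of_nonneg_left hsu hℓ.le) ((h1.trans hD1).trans he1)
    have h4 : ℓ * v x y ≤ ℓ * (L * u x y) := by
      calc ℓ * v x y ≤ C * (ℓ * u x y * Real.log (1 / (ℓ * u x y)) ^ α) := h2
        _ ≤ C * (ℓ * u x y * Real.log (1 / (ℓ * s)) ^ α) := mul_le_mul_of_nonneg_left h3 hC.le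
        _ = (ℓ * u x y) * (C * Real.log (1 / (ℓ * s)) ^ α) := by ring
        _ ≤ (ℓ * u x y) * L := mul_le_mul_of_nonneg_left hL (mul_nonneg hℓ.le (hu x y))
        _ = ℓ * (L * u x y) := by ring
    exact le_of_mul_le_mul_left h4 hℓ
  · rw [max_eq_right hsu]
    have h3 := omega_mono α hα hα1 (ℓ * u x y) (ℓ * s) (mul_nonneg hℓ.le (hu x y))
      (mul_le_mul_of_nonneg_left hsu hℓ.le) hs1
    have h4 : ℓ * v x y ≤ ℓ * (L * s) := by
      calc ℓ * v x y ≤ C * (ℓ * u x y * Real.log (1 / (ℓ * u x y)) ^ α) := h2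
        _ ≤ C * (ℓ * s * Real.log (1 / (ℓ * s)) ^ α) := mul_le_mul_of_nonneg_left h3 hC.le
        _ = (ℓ * s) * (C * Real.log (1 / (ℓ * s)) ^ α) := by ring
        _ ≤ (ℓ * s) * L := mul_le_mul_of_nonneg_left hL hls.le
        _ = ℓ * (L * s) := by ring
    exact le_of_mul_le_mul_left h4 hℓ

end Pool.Agent.Helper724BK
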