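import Pool.Agent.Helper724_BK.Defs

/-!
JOB BK8 (MP_20bec2_an, owner helper724). Needs on disk (on origin/main): Pool/Agent/Helper724_BK/Defs.lean.
Prove the TARGET, statement unchanged, from the hypothesis `hpar` (proved in another job); auxiliary lemmas get the prefix `BK8_`.
PROOF. Fix C from hpar. For L ≥ 1 take p with p.L = L, p.c = c and I = ⌈4 log L / log (1 + p.ep²/2)⌉₊ + 1, so L² < (1 + p.ep²/2)^I.
As log (1+x) ≥ x/2 for 0 ≤ x ≤ 1: I ≤ 16 log L / p.ep² + 2 ≤ 16 C² L² log L / c⁴ + 2. p.kap ≥ p.tau/2 (sg ≤ 1/64, √ ≥ 1), tau ≤ 1, sg ≤ 1, so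
log (1/(ℓ kap^I sg tau)) = log (1/ℓ) + I log (1/kap) + log (1/(sg tau)) ≤ log (1/ℓ) + (I+1) (log 2 + C log (C L/c)) ≤ C' L² (1 + log L)² for a
constant C' depending on c, ℓ, C only. So r (C' L² (1 + log L)²)^α = r C'^α L^(2α) (1 + log L)^(2α) = o(L) since 2α < 1
(`isLittleO_log_rpow_atTop` or Tendsto of x^(1-2α)/(1+log x)^(2α)). Choose L large. (The quantity under the power is ≥ 0: use
Real.rpow_le_rpow; log of a number ≤ 1 is ≤ 0, and if the logarithm on the left is negative note ℓ ≤ 1 makes it nonnegative.)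
-/

set_option autoImplicit false
set_option maxHeartbeats 1000000

namespace Pool.Agent.Helper724BK

theorem BK8_log_ge {x : ℝ} (hx : 0 ≤ x) (hx1 : x ≤ 1) : x / 2 ≤ Real.log (1 + x) := by
  have h1 : 0 < 1 + x := by linarith
  have h2 := Real.one_sub_inv_le_log_of_pos h1
  refine le_trans ?_ h2
  rw [show 1 - (1 + x)⁻¹ = x / (1 + x) by field_simp; ring]
  exact div_le_div_of_nonneg_left hx h1 (by linarith)

theorem BK8_I {L ep : ℝ} (hL : 1 ≤ L) (hep : 0 < ep) (hep1 : ep ≤ 1) :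
    ∃ I : ℕ, L ^ 2 < (1 + ep ^ 2 / 2) ^ I ∧ (I : ℝ) ≤ 8 * Real.log L / ep ^ 2 + 1 := by
  have hL0 : 0 < L := by linarith
  have hx : 0 < ep ^ 2 / 2 := by positivity
  have hx1 : ep ^ 2 / 2 ≤ 1 := by nlinarith
  have h1 := BK8_log_ge hx.le hx1
  have h2 : 0 < Real.log (1 + ep ^ 2 / 2) := by linarith
  have h3 : 0 ≤ Real.log L := Real.log_nonneg hL
  have h4 : 0 ≤ 2 * Real.log L / Real.log (1 + ep ^ 2 / 2) := by positivity
  refine ⟨⌊2 * Real.log L / Real.log (1 + ep ^ 2 / 2)⌋₊ + 1, ?_, ?_⟩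
  · have h5 := Nat.lt_floor_add_one (2 * Real.log L / Real.log (1 + ep ^ 2 / 2))
    rw [div_lt_iff₀ h2] at h5
    have h6 : 0 < 1 + ep ^ 2 / 2 := by linarith
    rw [← Real.log_lt_log_iff (by positivity) (by positivity), Real.log_pow, Real.log_pow]
    push_cast
    exact h5
  · have h5 := Nat.floor_le h4
    push_cast
    have h6 : 2 * Real.log L / Real.log (1 + ep ^ 2 / 2) ≤ 2 * Real.log L / (ep ^ 2 / 2 / 2) :=
      div_le_div_of_nonneg_left (by positivity) (by positivity) h1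
    have h7 : 2 * Real.log L / (ep ^ 2 / 2 / 2) = 8 * Real.log L / ep ^ 2 := by
      field_simp
      ring
    linarith

theorem BK8_tau {m : ℕ} (p : Par m) : 0 < p.tau ∧ p.tau ≤ 1 / 10 := by
  have h1 : (1 : ℝ) ≤ p.M := by exact_mod_cast p.hM
  have h2 : (1 : ℝ) ≤ p.n := by exact_mod_cast p.hn
  have h3 : (1 : ℝ) ≤ p.N := by exact_mod_cast p.hN
  have h4 : (1 : ℝ) ≤ p.M * p.n := by nlinarith
  have h5 : (1 : ℝ) ≤ p.M * p.n * p.N := by nlinarith
  unfold Par.tau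
  refine ⟨by positivity, ?_⟩
  exact one_div_le_one_div_of_le (by norm_num) (by nlinarith)

theorem BK8_kap {m : ℕ} (p : Par m) : p.tau / 2 ≤ p.kap ∧ p.kap ≤ 1 := by
  obtain ⟨h1, h2⟩ := BK8_tau p
  have h3 := p.hsg0
  have h4 := p.hsg1
  have h5 := p.hep0
  have h6 := p.hep1
  have h7 : 1 ≤ Real.sqrt (1 + p.ep ^ 2) := by
    rw [Real.one_le_sqrt]
    nlinarith [sq_nonneg p.ep]
  have h8 : Real.sqrt (1 + p.ep ^ 2) ≤ 2 := by
    rw [Real.sqrt_le_left (by norm_num)]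
    nlinarith
  unfold Par.kap Par.ell
  constructor
  · have h9 : p.tau * 1 ≤ p.tau * Real.sqrt (1 + p.ep ^ 2) := mul_le_mul_of_nonneg_left h7 h1.le
    have h10 : 1 / 2 ≤ 1 - 2 * p.sg := by linarith
    have h11 : 1 / 2 * (p.tau * Real.sqrt (1 + p.ep ^ 2)) ≤
        (1 - 2 * p.sg) * (p.tau * Real.sqrt (1 + p.ep ^ 2)) :=
      mul_le_mul_of_nonneg_right h10 (by positivity)
    linarith
  · have h9 : p.tau * Real.sqrt (1 + p.ep ^ 2) ≤ 1 / 10 * 2 :=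
      mul_le_mul h2 h8 (by positivity) (by norm_num)
    have h10 : 1 - 2 * p.sg ≤ 1 := by linarith
    have h11 : (1 - 2 * p.sg) * (p.tau * Real.sqrt (1 + p.ep ^ 2)) ≤
        1 * (p.tau * Real.sqrt (1 + p.ep ^ 2)) :=
      mul_le_mul_of_nonneg_right h10 (by positivity)
    linarith

theorem BK8_e5 {I l L2 K x : ℝ} (hI : I ≤ x + 1) (hx : x ≤ K * (L2 * l)) (hK : 0 ≤ K)
    (hL2 : 1 ≤ L2) (hl : 0 ≤ l) : I + 1 ≤ (K + 2) * (L2 * (1 + l)) := by
  have h1 : 0 ≤ K * L2 := by positivity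
  have h2 : 0 ≤ L2 * l := by positivity
  have h3 : (K + 2) * (L2 * (1 + l)) = K * L2 + K * (L2 * l) + 2 * L2 + 2 * (L2 * l) := by ring
  rw [h3]
  linarith

theorem BK8_e4 {a b c l : ℝ} (ha : 0 ≤ a) (hb : 0 ≤ b) (hl : 0 ≤ l) :
    a + b + c * l ≤ (a + b + c) * (1 + l) - c := by
  have h1 : 0 ≤ a * l := by positivity
  have h2 : 0 ≤ b * l := by positivity
  have h3 : (a + b + c) * (1 + l) - c = a + b + c * l + a * l + b * l := by ring
  rw [h3]
  linarith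

theorem BK8_main {m : ℕ} (p : Par m) {C : ℕ} (hC : 1 ≤ C) {ℓ : ℝ} (hℓ : 0 < ℓ) (hℓ1 : ℓ ≤ 1)
    (h1 : p.c ^ 2 / (C * p.L) ≤ p.ep) (h2 : 1 / (p.sg * p.tau) ≤ (C * p.L / p.c) ^ C) :
    ∃ I : ℕ, p.L ^ 2 < (1 + p.ep ^ 2 / 2) ^ I ∧
      0 ≤ Real.log (1 / (ℓ * (p.kap ^ I * p.sbase))) ∧
      Real.log (1 / (ℓ * (p.kap ^ I * p.sbase))) ≤
        (Real.log (1 / ℓ) + (8 * C ^ 2 / p.c ^ 4 + 2) * (Real.log 2 + C * Real.log (C / p.c) + C)) *
          (p.L ^ 2 * (1 + Real.log p.L) ^ 2) := by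
  obtain ⟨t1, t2⟩ := BK8_tau p
  obtain ⟨k1, k2⟩ := BK8_kap p
  have k0 : 0 < p.kap := by linarith
  have s1 := p.hsg0
  have s2 := p.hsg1
  have s3 : p.sg ≤ 1 := by linarith
  have hL := p.hL
  have hL0 : 0 < p.L := by linarith
  have c0 := p.hc0
  have c1 := p.hc1
  have hC1 : (1 : ℝ) ≤ C := by exact_mod_cast hC
  have hC0 : (0 : ℝ) < C := by linarith
  have b0 : 0 < p.sbase := by unfold Par.sbase; positivity
  have b1 : p.sbase ≤ 1 := by
    unfold Par.sbase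
    nlinarith
  have hlL : 0 ≤ Real.log p.L := Real.log_nonneg hL
  obtain ⟨I, hI1, hI2⟩ := BK8_I hL p.hep0 p.hep1
  refine ⟨I, hI1, ?_, ?_⟩
  · apply Real.log_nonneg
    rw [le_div_iff₀ (by positivity), one_mul]
    have h3 : p.kap ^ I ≤ 1 := pow_le_one₀ k0.le k2
    have h4 : p.kap ^ I * p.sbase ≤ 1 * 1 := mul_le_mul h3 b1 b0.le (by norm_num)
    have h5 : ℓ * (p.kap ^ I * p.sbase) ≤ 1 * (1 * 1) :=
      mul_le_mul hℓ1 h4 (by positivity) (by norm_num)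
    linarith
  -- the upper bound
  have hCc : 1 ≤ C / p.c := by
    rw [le_div_iff₀ c0]
    linarith
  have hlCc : 0 ≤ Real.log (C / p.c) := Real.log_nonneg hCc
  have hl2 : 0 < Real.log 2 := Real.log_pos (by norm_num)
  have hlA : Real.log (2 * (C * p.L / p.c) ^ C) =
      Real.log 2 + C * Real.log (C / p.c) + C * Real.log p.L := by
    rw [Real.log_mul (by norm_num) (by positivity), Real.log_pow,
      show (C * p.L / p.c : ℝ) = (C / p.c) * p.L by ring,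
      Real.log_mul (by positivity) (by positivity)]
    ring
  set A : ℝ := (C * p.L / p.c) ^ C with hA
  have hA1 : 1 ≤ C * p.L / p.c := by
    rw [le_div_iff₀ c0]
    nlinarith
  have hA1' : 1 ≤ A := one_le_pow₀ hA1
  have e1 : Real.log (1 / (ℓ * (p.kap ^ I * p.sbase))) =
      Real.log (1 / ℓ) + I * Real.log (1 / p.kap) + Real.log (1 / p.sbase) := by
    simp only [one_div, Real.log_inv]
    rw [Real.log_mul (by positivity) (by positivity), Real.log_mul (by positivity) (by positivity),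
      Real.log_pow]
    ring
  have e2 : Real.log (1 / p.sbase) ≤ Real.log (2 * A) := by
    apply Real.log_le_log (by positivity)
    unfold Par.sbase
    linarith
  have e3 : Real.log (1 / p.kap) ≤ Real.log (2 * A) := by
    apply Real.log_le_log (by positivity)
    have h3 : 1 / p.kap ≤ 1 / (p.tau / 2) := one_div_le_one_div_of_le (by positivity) k1
    have h4 : 1 / p.tau ≤ 1 / (p.sg * p.tau) := by
      apply one_div_le_one_div_of_le (by positivity)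
      nlinarith
    have h5 : 1 / (p.tau / 2) = 2 * (1 / p.tau) := by field_simp
    linarith
  have e4 : Real.log (2 * A) ≤ (Real.log 2 + C * Real.log (C / p.c) + C) *
      (1 + Real.log p.L) := by
    rw [hlA]
    have h3 : 0 ≤ C * Real.log (C / p.c) := by positivity
    have h4 := BK8_e4 (c := (C : ℝ)) hl2.le h3 hlL
    linarith
  have e5 : (I : ℝ) + 1 ≤ (8 * C ^ 2 / p.c ^ 4 + 2) * (p.L ^ 2 * (1 + Real.log p.L)) := by
    have h3 : 1 / p.ep ^ 2 ≤ C ^ 2 * p.L ^ 2 / p.c ^ 4 := by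
      have h4 : (p.c ^ 2 / (C * p.L)) ^ 2 ≤ p.ep ^ 2 := pow_le_pow_left₀ (by positivity) h1 2
      have h5 := one_div_le_one_div_of_le (by positivity) h4
      have h6 : 1 / (p.c ^ 2 / (C * p.L)) ^ 2 = C ^ 2 * p.L ^ 2 / p.c ^ 4 := by
        field_simp
      linarith
    have h4 : 8 * Real.log p.L / p.ep ^ 2 ≤ 8 * C ^ 2 / p.c ^ 4 * (p.L ^ 2 * Real.log p.L) := by
      have h5 : 8 * Real.log p.L * (1 / p.ep ^ 2) ≤
          8 * Real.log p.L * (C ^ 2 * p.L ^ 2 / p.c ^ 4) :=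
        mul_le_mul_of_nonneg_left h3 (by positivity)
      calc 8 * Real.log p.L / p.ep ^ 2 = 8 * Real.log p.L * (1 / p.ep ^ 2) := by ring
        _ ≤ _ := h5
        _ = _ := by ring
    exact BK8_e5 hI2 h4 (by positivity) (one_le_pow₀ hL) hlL
  have e6 : 0 ≤ Real.log (1 / ℓ) := by
    apply Real.log_nonneg
    rw [le_div_iff₀ hℓ]
    linarith
  have e7 : 0 ≤ Real.log (2 * A) := Real.log_nonneg (by linarith)
  have e8 : 1 ≤ p.L ^ 2 * (1 + Real.log p.L) ^ 2 := by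
    have h5 : 1 ≤ p.L ^ 2 := one_le_pow₀ hL
    have h6 : 1 ≤ (1 + Real.log p.L) ^ 2 := one_le_pow₀ (by linarith)
    exact one_le_mul_of_one_le_of_one_le h5 h6
  have hD : 0 ≤ Real.log 2 + C * Real.log (C / p.c) + C := by positivity
  have e9 : ((I : ℝ) + 1) * Real.log (2 * A) ≤
      ((8 * C ^ 2 / p.c ^ 4 + 2) * (p.L ^ 2 * (1 + Real.log p.L))) *
        ((Real.log 2 + C * Real.log (C / p.c) + C) * (1 + Real.log p.L)) :=
    mul_le_mul e5 e4 e7 (by positivity)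
  rw [e1]
  have e10 : (I : ℝ) * Real.log (1 / p.kap) ≤ I * Real.log (2 * A) :=
    mul_le_mul_of_nonneg_left e3 (Nat.cast_nonneg I)
  have e11 : Real.log (1 / ℓ) ≤ Real.log (1 / ℓ) * (p.L ^ 2 * (1 + Real.log p.L) ^ 2) :=
    le_mul_of_one_le_right e6 e8
  have e12 : (Real.log (1 / ℓ) + (8 * C ^ 2 / p.c ^ 4 + 2) *
      (Real.log 2 + C * Real.log (C / p.c) + C)) * (p.L ^ 2 * (1 + Real.log p.L) ^ 2) =
      Real.log (1 / ℓ) * (p.L ^ 2 * (1 + Real.log p.L) ^ 2) +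
      ((8 * C ^ 2 / p.c ^ 4 + 2) * (p.L ^ 2 * (1 + Real.log p.L))) *
        ((Real.log 2 + C * Real.log (C / p.c) + C) * (1 + Real.log p.L)) := by ring
  rw [e12]
  have e13 : ((I : ℝ) + 1) * Real.log (2 * A) = I * Real.log (2 * A) + Real.log (2 * A) := by ring
  rw [e13] at e9
  linarith

theorem BK8_rpow {α r D : ℝ} (hα : 0 < α) (hα1 : α < 1 / 2) (hr : 0 < r) (hD : 0 ≤ D) :
    ∃ L : ℝ, 1 ≤ L ∧ r * (D * (L ^ 2 * (1 + Real.log L) ^ 2)) ^ α ≤ L := by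
  set δ : ℝ := (1 - 2 * α) / (4 * α) with hδ
  have hδ0 : 0 < δ := by
    have : 0 < 1 - 2 * α := by linarith
    positivity
  set B : ℝ := (1 + 1 / δ) ^ 2 * D with hB
  have hB0 : 0 ≤ B := by positivity
  set q : ℝ := (1 - 2 * α) / 2 with hq
  have hq0 : 0 < q := by
    rw [hq]
    linarith
  set L : ℝ := max 1 ((r * B ^ α) ^ (1 / q)) with hL
  have hL1 : 1 ≤ L := le_max_left _ _
  have hL0 : 0 < L := by linarith
  refine ⟨L, hL1, ?_⟩
  have h1 : r * B ^ α ≤ L ^ q := by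
    have h2 : (r * B ^ α) ^ (1 / q) ≤ L := le_max_right _ _
    have h3 : 0 ≤ r * B ^ α := by positivity
    calc r * B ^ α = ((r * B ^ α) ^ (1 / q)) ^ q := by
          rw [← Real.rpow_mul h3, one_div_mul_cancel hq0.ne', Real.rpow_one]
      _ ≤ L ^ q := Real.rpow_le_rpow (by positivity) h2 hq0.le
  have hl : 0 ≤ Real.log L := Real.log_nonneg hL1
  have h2 : 1 + Real.log L ≤ (1 + 1 / δ) * L ^ δ := by
    have h3 := Real.log_le_rpow_div hL0.le hδ0
    have h4 : 1 ≤ L ^ δ := Real.one_le_rpow hL1 hδ0.le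
    have h5 : L ^ δ / δ = 1 / δ * L ^ δ := by ring
    linarith
  have h3 : (1 + Real.log L) ^ 2 ≤ (1 + 1 / δ) ^ 2 * (L ^ δ) ^ 2 := by
    rw [← mul_pow]
    exact pow_le_pow_left₀ (by positivity) h2 2
  have h4 : D * (L ^ 2 * (1 + Real.log L) ^ 2) ≤ B * (L ^ (2 + 2 * δ)) := by
    have h5 : L ^ (2 + 2 * δ) = L ^ 2 * (L ^ δ) ^ 2 := by
      rw [Real.rpow_add hL0, Real.rpow_two, ← Real.rpow_natCast (L ^ δ) 2, ← Real.rpow_mul hL0.le]
      norm_num
      left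
      ring_nf
    rw [h5, hB]
    calc D * (L ^ 2 * (1 + Real.log L) ^ 2) ≤ D * (L ^ 2 * ((1 + 1 / δ) ^ 2 * (L ^ δ) ^ 2)) := by
          apply mul_le_mul_of_nonneg_left _ hD
          exact mul_le_mul_of_nonneg_left h3 (by positivity)
      _ = _ := by ring
  calc r * (D * (L ^ 2 * (1 + Real.log L) ^ 2)) ^ α ≤ r * (B * (L ^ (2 + 2 * δ))) ^ α := by
        apply mul_le_mul_of_nonneg_left _ hr.le
        exact Real.rpow_le_rpow (by positivity) h4 hα.le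
    _ = (r * B ^ α) * L ^ ((2 + 2 * δ) * α) := by
        rw [Real.mul_rpow hB0 (by positivity), ← Real.rpow_mul hL0.le]
        ring
    _ ≤ L ^ q * L ^ ((2 + 2 * δ) * α) := mul_le_mul_of_nonneg_right h1 (by positivity)
    _ = L := by
        rw [← Real.rpow_add hL0]
        have : q + (2 + 2 * δ) * α = 1 := by
          rw [hq, hδ]
          field_simp
          ring
        rw [this, Real.rpow_one]

/-- TARGET -/
theorem asym (m : ℕ) (hm : 1 ≤ m)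
    (hpar : ∃ C : ℕ, 1 ≤ C ∧ ∀ L c : ℝ, 1 ≤ L → 0 < c → c ≤ 1 →
      ∃ p : Par m, p.L = L ∧ p.c = c ∧ c ^ 2 / (C * L) ≤ p.ep ∧
        1 / (p.sg * p.tau) ≤ (C * L / c) ^ C)
    (α : ℝ) (hα : 0 < α) (hα1 : α < 1 / 2) (r c ℓ : ℝ) (hr : 0 < r) (hc : 0 < c) (hc1 : c ≤ 1)
    (hℓ : 0 < ℓ) (hℓ1 : ℓ ≤ 1) :
    ∃ (p : Par m) (I : ℕ), p.c = c ∧ p.L ^ 2 < (1 + p.ep ^ 2 / 2) ^ I ∧
      r * Real.log (1 / (ℓ * (p.kap ^ I * p.sbase))) ^ α ≤ p.L := by
  obtain ⟨C, hC, hp⟩ := hpar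
  have hC1 : (1 : ℝ) ≤ C := by exact_mod_cast hC
  have hCc : 1 ≤ C / c := by
    rw [le_div_iff₀ hc]
    linarith
  have hlCc : 0 ≤ Real.log (C / c) := Real.log_nonneg hCc
  have e6 : 0 ≤ Real.log (1 / ℓ) := by
    apply Real.log_nonneg
    rw [le_div_iff₀ hℓ]
    linarith
  have hl2 : 0 < Real.log 2 := Real.log_pos (by norm_num)
  obtain ⟨L, hL, h1⟩ := BK8_rpow (D := Real.log (1 / ℓ) + (8 * C ^ 2 / c ^ 4 + 2) *
    (Real.log 2 + C * Real.log (C / c) + C)) hα hα1 hr (by positivity)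
  obtain ⟨p, hpL, hpc, h2, h3⟩ := hp L c hL hc hc1
  subst hpL
  subst hpc
  obtain ⟨I, h4, h5, h6⟩ := BK8_main p hC hℓ hℓ1 h2 h3
  refine ⟨p, I, rfl, h4, le_trans ?_ h1⟩
  exact mul_le_mul_of_nonneg_left (Real.rpow_le_rpow h5 h6 hα.le) hr.le

end Pool.Agent.Helper724BK
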