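import Pool.Agent.Helper724_BK.Defs

/-!
# Elementary facts about the parameters
-/

set_option autoImplicit false
open MeasureTheory Metric Set Filter Topology
open scoped ENNReal NNReal

namespace Pool.Agent.Helper724BK

namespace Par
variable {m : ℕ} (p : Par m)

theorem M_pos : (0 : ℝ) < p.M := by exact_mod_cast p.hM
theorem H_pos : (0 : ℝ) < p.H := by exact_mod_cast p.hH
theorem n_pos : (0 : ℝ) < p.n := by exact_mod_cast p.hn
theorem N_pos : (0 : ℝ) < p.N := by exact_mod_cast p.hN
include p in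
theorem m_pos : (0 : ℝ) < m := by exact_mod_cast p.hm
theorem L_pos : 0 < p.L := lt_of_lt_of_le one_pos p.hL

theorem tau_pos : 0 < p.tau := by
  have := p.M_pos; have := p.n_pos; have := p.N_pos
  unfold tau; positivity

theorem w_pos : 0 < p.w := by
  have := p.n_pos; have := p.N_pos
  unfold w; positivity

theorem W_pos : 0 < p.W := by
  have := p.N_pos
  unfold W; positivity

theorem h_pos : 0 < p.h := by
  have := p.H_pos; have := p.tau_pos; have := p.hep0
  unfold h; positivity

theorem nu_pos : 0 < p.nu := by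
  have := p.m_pos; have := p.hsg0; have := p.hep0
  unfold nu; positivity

theorem rho_pos : 0 < p.rho := by
  have := p.L_pos; have := p.w_pos; have := p.hep0; have := p.hc0
  unfold rho; positivity

theorem dq_pos : 0 < p.dq := by
  have := p.m_pos; have := p.tau_pos
  unfold dq; positivity

theorem ell_pos : 0 < p.ell := by
  have := p.tau_pos
  unfold ell; positivity

theorem kap_pos : 0 < p.kap := by
  have h1 := p.ell_pos; have h2 := p.hsg1
  unfold kap
  exact mul_pos (by linarith) h1

theorem w_eq : p.w = 2 * p.M * p.tau := by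
  have := p.M_pos; have := p.n_pos; have := p.N_pos
  unfold w tau; field_simp; ring

theorem W_eq : p.W = p.n * p.w := by
  have := p.n_pos; have := p.N_pos
  unfold w W; field_simp

theorem W_eq' : p.W = 2 * p.M * p.n * p.tau := by
  rw [W_eq, w_eq]; ring

theorem one_eq : 5 * p.N * p.W = 1 := by
  have := p.N_pos
  unfold W; field_simp

theorem T_tau : (p.T : ℝ) * p.tau = 1 := by
  have := p.M_pos; have := p.n_pos; have := p.N_pos
  unfold T tau; push_cast; field_simp

theorem T_eq : p.T = 5 * p.N * (2 * p.M * p.n) := by unfold T; ring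

theorem h1' : 128 * m * (p.L * p.rho) ≤ p.c * p.h := by
  have := p.h1
  unfold rho h w tau
  exact this

theorem h2' : p.L ^ 2 * p.dq ≤ p.w * p.ep := by
  have := p.h2
  unfold dq w tau
  exact this

theorem h3' : p.dq + 10 * p.ep ^ 2 * p.W + 320 * p.ep ^ 2 * p.w / p.c + 2 * p.L ^ 2 * p.dq ≤
    p.c / 128 * p.w := by
  have := p.h3
  unfold dq w W tau
  exact this

theorem h4' : m * (p.h + p.L * p.rho + 2 * p.tau * p.ep) ≤ p.ep * p.W := by
  have := p.h4
  unfold h rho W w tau
  exact this

theorem h5' : p.ep * p.W + 4 * p.tau * p.ep ≤ p.nu := by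
  have := p.h5
  unfold nu W tau
  exact this

theorem tau_le_W : 2 * p.tau ≤ p.W := by
  have h1 : (1 : ℝ) ≤ p.M := by exact_mod_cast p.hM
  have h2 : (1 : ℝ) ≤ p.n := by exact_mod_cast p.hn
  have := p.tau_pos
  rw [W_eq']
  have : (1 : ℝ) ≤ p.M * p.n := one_le_mul_of_one_le_of_one_le h1 h2
  nlinarith

theorem W_le : p.W ≤ 1 / 5 := by
  have h1 : (1 : ℝ) ≤ p.N := by exact_mod_cast p.hN
  have := p.one_eq
  have := p.W_pos
  nlinarith

include p in
theorem m_one : (1 : ℝ) ≤ m := by exact_mod_cast p.hm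

theorem hLr : p.h + p.L * p.rho + 2 * p.tau * p.ep ≤ p.ep * p.W := by
  have h4 := p.h4'
  have := p.m_one
  have h0 : 0 ≤ p.h + p.L * p.rho + 2 * p.tau * p.ep := by
    have := p.h_pos; have := p.L_pos; have := p.rho_pos; have := p.tau_pos; have := p.hep0
    positivity
  nlinarith

theorem Lr_le : p.L * p.rho + 2 * p.tau ≤ p.W := by
  have h := p.hLr
  have := p.h_pos
  have h1 : p.L * p.rho ≤ p.ep * (p.W - 2 * p.tau) := by nlinarith
  have h2 : p.ep * (p.W - 2 * p.tau) ≤ 1 * (p.W - 2 * p.tau) :=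
    mul_le_mul_of_nonneg_right p.hep1 (by linarith [p.tau_le_W])
  linarith

theorem dq_le_rho : p.L * p.dq ≤ p.w * p.ep / p.L := by
  rw [le_div_iff₀ p.L_pos]
  have := p.h2'
  nlinarith

theorem sbase_pos : 0 < p.sbase := mul_pos p.hsg0 p.tau_pos

theorem sbase_le : p.sbase ≤ p.tau := by
  unfold sbase
  have := p.hsg1
  have := p.tau_pos
  nlinarith

theorem tau_le_dq : p.tau ≤ p.dq := by
  unfold dq
  have := p.tau_pos; have := p.m_pos
  nlinarith

end Par

section coords
variable {m : ℕ}

@[simp] theorem vert_zero (τ ε : ℝ) (b : Zv m) : vert τ ε b 0 = τ * b 0 := by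
  simp [vert]

@[simp] theorem vert_succ (τ ε : ℝ) (b : Zv m) (i : Fin m) :
    vert τ ε b i.succ = τ * ε * b i.succ := by
  simp [vert]

@[simp] theorem dir_zero (j : Fin m) (s : ℤ) : dir j s 0 = 1 := by simp [dir]

@[simp] theorem dir_succ (j : Fin m) (s : ℤ) (i : Fin m) :
    dir j s i.succ = if i = j then s else 0 := by simp [dir]

theorem ext_coords {x y : E m} (h0 : x 0 = y 0) (h : ∀ i : Fin m, x i.succ = y i.succ) : x = y := by
  ext i
  refine Fin.cases h0 h i

theorem abs_coord_le (x y : E m) (i : Fin (m + 1)) : |x i - y i| ≤ dist x y := by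
  rw [dist_eq_norm]
  have := PiLp.norm_apply_le (x - y) i
  simpa [Real.norm_eq_abs] using this

theorem dist_le_sum (x y : E m) :
    dist x y ≤ |x 0 - y 0| + ∑ i : Fin m, |x i.succ - y i.succ| := by
  rw [EuclideanSpace.dist_eq]
  have h1 : |x 0 - y 0| + ∑ i : Fin m, |x i.succ - y i.succ| = ∑ i, |x i - y i| := by
    rw [Fin.sum_univ_succ]
  rw [h1]
  apply Real.sqrt_le_iff.2
  refine ⟨Finset.sum_nonneg fun i _ => abs_nonneg _, ?_⟩
  have h2 : ∑ i, dist (x i) (y i) ^ 2 = ∑ i, |x i - y i| ^ 2 := by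
    simp only [Real.dist_eq]
  rw [h2]
  exact Finset.sum_sq_le_sq_sum_of_nonneg fun i _ => abs_nonneg _

@[simp] theorem e0_zero : e0 m 0 = 1 := by simp [e0]
@[simp] theorem e0_succ (i : Fin m) : e0 m i.succ = 0 := by simp [e0]

end coords

end Pool.Agent.Helper724BK
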