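import Mathlib

/-!
# Definitions for the quantitative Burago-Kleiner argument (MP_20bec2_an)
-/

set_option autoImplicit false
open MeasureTheory Metric Set Filter Topology
open scoped ENNReal NNReal

namespace Pool.Agent.Helper724BK

/-- Euclidean space with one distinguished coordinate `0` and `m` transversal coordinates. -/
abbrev E (m : ℕ) : Type := EuclideanSpace ℝ (Fin (m + 1))

/-- integer vectors -/
abbrev Zv (m : ℕ) : Type := Fin (m + 1) → ℤ

/-- the first basis vector -/
noncomputable def e0 (m : ℕ) : E m := EuclideanSpace.single 0 1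

/-- the transversal basis vectors -/
noncomputable def et {m : ℕ} (j : Fin m) : E m := EuclideanSpace.single j.succ 1

/-- the integer vectors of the edges `e₀ + s e_j`, `s = ± 1` -/
def dir {m : ℕ} (j : Fin m) (s : ℤ) : Zv m := Fin.cons 1 (fun i => if i = j then s else 0)

/-- the lattice point with the coordinates `τ b₀` and `τ ε b_i` -/
noncomputable def vert {m : ℕ} (τ ε : ℝ) (b : Zv m) : E m :=
  WithLp.toLp 2 (Fin.cons (τ * b 0) (fun i : Fin m => τ * ε * b i.succ))

/-- the box `[0,1] × [-ν, ν]^m` -/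
def K (m : ℕ) (ν : ℝ) : Set (E m) := {z | 0 ≤ z 0 ∧ z 0 ≤ 1 ∧ ∀ i : Fin m, |z i.succ| ≤ ν}

/-- the box `[t, t + w) × [-h, h)^m` -/
def box (m : ℕ) (t w h : ℝ) : Set (E m) :=
  {z | t ≤ z 0 ∧ z 0 < t + w ∧ ∀ i : Fin m, -h ≤ z i.succ ∧ z i.succ < h}

/-- `f` is Lipschitz with constant `L` together with its inverse, at scales above `s`. -/
def Coarse {m : ℕ} (f : E m → E m) (Ω : Set (E m)) (L s : ℝ) : Prop :=
  ∀ x ∈ Ω, ∀ y ∈ Ω, dist (f x) (f y) ≤ L * max (dist x y) s ∧
    dist x y ≤ L * max (dist (f x) (f y)) s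

/-- The parameters of the construction. -/
structure Par (m : ℕ) where
  /-- Lipschitz constant -/
  L : ℝ
  /-- contrast of the density -/
  c : ℝ
  /-- slope of the edges -/
  ep : ℝ
  /-- relative amount by which the edges are shortened -/
  sg : ℝ
  /-- `w = 2 M τ` -/
  M : ℕ
  /-- `h = 2 H τ ε` -/
  H : ℕ
  /-- `W = n w` -/
  n : ℕ
  /-- `1 = 5 N W` -/
  N : ℕ
  hm : 1 ≤ m
  hL : 1 ≤ L
  hc0 : 0 < c
  hc1 : c ≤ 1
  hep0 : 0 < ep
  hep1 : ep ≤ 1
  hsg0 : 0 < sg
  hsg1 : 64 * sg ≤ 1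
  hsg2 : 4 * L ^ 2 * sg ≤ ep ^ 2
  hM : 1 ≤ M
  hH : 1 ≤ H
  hn : 1 ≤ n
  hn2 : Even n
  hN : 1 ≤ N
  /-- `w = 1 / (5 N n)`; transversal enlargement is small compared with `h` -/
  h1 : 128 * m * (L * (46 * L * (1 / (5 * N * n)) * ep / c)) ≤
    c * (2 * H * (1 / (10 * M * n * N)) * ep)
  h2 : L ^ 2 * (2 * (m + 1) * (1 / (10 * M * n * N))) ≤ 1 / (5 * N * n) * ep
  h3 : 2 * (m + 1) * (1 / (10 * M * n * N)) + 10 * ep ^ 2 * (1 / (5 * N)) +
    320 * ep ^ 2 * (1 / (5 * N * n)) / c + 2 * L ^ 2 * (2 * (m + 1) * (1 / (10 * M * n * N))) ≤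
    c / 128 * (1 / (5 * N * n))
  h4 : m * (2 * H * (1 / (10 * M * n * N)) * ep + L * (46 * L * (1 / (5 * N * n)) * ep / c) +
    2 * (1 / (10 * M * n * N)) * ep) ≤ ep * (1 / (5 * N))
  h5 : ep * (1 / (5 * N)) + 4 * (1 / (10 * M * n * N)) * ep ≤ ep * sg / (16 * m)

namespace Par
variable {m : ℕ} (p : Par m)

/-- length of a window -/
noncomputable def W : ℝ := 1 / (5 * p.N)
/-- length of a cell -/
noncomputable def w : ℝ := 1 / (5 * p.N * p.n)
/-- the step of the lattice -/
noncomputable def tau : ℝ := 1 / (10 * p.M * p.n * p.N)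
/-- transversal half size of a cell -/
noncomputable def h : ℝ := 2 * p.H * p.tau * p.ep
/-- transversal half size of the box -/
noncomputable def nu : ℝ := p.ep * p.sg / (16 * m)
/-- bound for the deviation, `46 L w ε / c` -/
noncomputable def rho : ℝ := 46 * p.L * p.w * p.ep / p.c
/-- bound for the diameter of the small boxes -/
noncomputable def dq : ℝ := 2 * (m + 1) * p.tau
/-- length of the edges -/
noncomputable def ell : ℝ := p.tau * Real.sqrt (1 + p.ep ^ 2)
/-- length of the shortened edges, the ratio between the scales of consecutive levels -/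
noncomputable def kap : ℝ := (1 - 2 * p.sg) * p.ell
/-- bound for the transversal indices -/
def B : ℤ := 2 * p.M * p.n + 1
/-- number of steps in the direction `e₀` -/
def T : ℤ := 10 * p.M * p.n * p.N

/-- the cells of the density -/
noncomputable def cell (κ : ℕ) : Set (E m) := box m (κ * p.w) p.w p.h

/-- the starting points and directions of the edges -/
def IsEdge (b : Zv m) (j : Fin m) (s : ℤ) : Prop :=
  (s = 1 ∨ s = -1) ∧ Even (∑ i, b i) ∧ 0 ≤ b 0 ∧ b 0 + 1 ≤ p.T ∧
    (∀ i : Fin m, |b i.succ| ≤ p.B) ∧ |b j.succ + s| ≤ p.B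

/-- lattice points -/
noncomputable def V (b : Zv m) : E m := vert p.tau p.ep b

/-- unit vectors in the direction of the edges -/
noncomputable def dv (j : Fin m) (s : ℤ) : E m :=
  (1 / Real.sqrt (1 + p.ep ^ 2)) • (e0 m + ((s : ℝ) * p.ep) • et j)

/-- a linear isometry which maps `e₀` to `dv j s` -/
noncomputable def Rot (j : Fin m) (s : ℤ) : E m ≃ₗᵢ[ℝ] E m :=
  open Classical in
  if h : ∃ R : E m ≃ₗᵢ[ℝ] E m, R (e0 m) = p.dv j s then h.choose else LinearIsometryEquiv.refl ℝ _

/-- the similarity which maps the unit segment to the shortened edge -/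
noncomputable def theta (b : Zv m) (j : Fin m) (s : ℤ) (z : E m) : E m :=
  p.V b + (p.sg * p.ell) • p.dv j s + p.kap • p.Rot j s z

/-- the tubes of the next level -/
noncomputable def tube (b : Zv m) (j : Fin m) (s : ℤ) : Set (E m) := p.theta b j s '' K m p.nu

/-- largest scale for which the coarse bounds are used at the last level -/
noncomputable def sbase : ℝ := p.sg * p.tau

end Par

end Pool.Agent.Helper724BK
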