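import Pool.Agent.Helper724_BK.Rec3
import Pool.Agent.Helper724_BK.BK6
import Pool.Agent.Helper724_BK.BK7
import Pool.Agent.Helper724_BK.BK8

/-!
# The density on the unit cube
-/

set_option autoImplicit false
open MeasureTheory Metric Set Filter Topology
open scoped ENNReal NNReal

namespace Pool.Agent.Helper724BK

section
variable {m : ℕ}

/-- the unit cube -/
def cube (m : ℕ) : Set (E m) := {x | ∀ i, 0 ≤ x i ∧ x i ≤ 1}

/-- `t log (1/t)^α ≤ 2 √t` -/
theorem omega_sqrt (α : ℝ) (hα : α ≤ 1) (t : ℝ) (ht : 0 ≤ t) (ht1 : t ≤ Real.exp (-1)) :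
    t * Real.log (1 / t) ^ α ≤ 2 * Real.sqrt t := by
  rcases ht.eq_or_lt with rfl | h0
  · simp
  have h1 : 1 ≤ Real.log (1 / t) := by
    rw [one_div, Real.log_inv]
    have := Real.log_le_log h0 ht1
    rw [Real.log_exp] at this
    linarith
  have h2 : Real.log (1 / t) ^ α ≤ Real.log (1 / t) := by
    calc Real.log (1 / t) ^ α ≤ Real.log (1 / t) ^ (1 : ℝ) := Real.rpow_le_rpow_of_exponent_le h1 hα
      _ = _ := Real.rpow_one _
  have hs : 0 < Real.sqrt t := Real.sqrt_pos.2 h0
  have h3 : Real.log (1 / t) ≤ 2 / Real.sqrt t := by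
    have h4 : Real.log (1 / Real.sqrt t) ≤ 1 / Real.sqrt t - 1 :=
      Real.log_le_sub_one_of_pos (by positivity)
    have h5 : Real.log (1 / t) = 2 * Real.log (1 / Real.sqrt t) := by
      rw [one_div, one_div, Real.log_inv, Real.log_inv, Real.log_sqrt ht]; ring
    rw [h5]
    have h6 : 2 / Real.sqrt t = 2 * (1 / Real.sqrt t) := by ring
    rw [h6]; linarith
  calc t * Real.log (1 / t) ^ α ≤ t * (2 / Real.sqrt t) := by gcongr; exact h2.trans h3
    _ = 2 * Real.sqrt t := by
      have : t = Real.sqrt t * Real.sqrt t := (Real.mul_self_sqrt ht).symm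
      field_simp
      nlinarith

/-- monotonicity in the exponent -/
theorem omega_exp (α β : ℝ) (hαβ : α ≤ β) (t : ℝ) (ht : 0 ≤ t) (ht1 : t ≤ Real.exp (-1)) :
    t * Real.log (1 / t) ^ α ≤ t * Real.log (1 / t) ^ β := by
  rcases ht.eq_or_lt with rfl | h0
  · simp
  have h1 : 1 ≤ Real.log (1 / t) := by
    rw [one_div, Real.log_inv]
    have := Real.log_le_log h0 ht1
    rw [Real.log_exp] at this
    linarith
  exact mul_le_mul_of_nonneg_left (Real.rpow_le_rpow_of_exponent_le h1 hαβ) ht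

/-- Continuity from the modulus. -/
theorem cont_of_omega {Ω : Set (E m)} {f : E m → E m} {α C t0 : ℝ} (hα : α ≤ 1) (hC : 0 < C)
    (ht0 : 0 < t0) (h : ∀ x ∈ Ω, ∀ y ∈ Ω, dist x y ≤ t0 →
      dist (f x) (f y) ≤ C * (dist x y * Real.log (1 / dist x y) ^ α)) : ContinuousOn f Ω := by
  intro x hx
  rw [ContinuousWithinAt, tendsto_iff_dist_tendsto_zero]
  have h1 : Tendsto (fun y => C * (2 * Real.sqrt (dist x y))) (𝓝[Ω] x) (𝓝 0) := by
    have : ContinuousWithinAt (fun y => C * (2 * Real.sqrt (dist x y))) Ω x := by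
      apply Continuous.continuousWithinAt
      fun_prop
    have h2 := this.tendsto
    simpa using h2
  refine squeeze_zero' (Eventually.of_forall fun _ => dist_nonneg) ?_ h1
  have hpos : 0 < min t0 (Real.exp (-1)) := lt_min ht0 (Real.exp_pos _)
  have h3 : ∀ᶠ y in 𝓝[Ω] x, dist x y < min t0 (Real.exp (-1)) := by
    have : ContinuousWithinAt (fun y => dist x y) Ω x :=
      Continuous.continuousWithinAt (by fun_prop)
    have h4 := this.tendsto
    rw [dist_self] at h4
    exact h4.eventually (gt_mem_nhds hpos)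
  filter_upwards [h3, self_mem_nhdsWithin] with y hy hyΩ
  have h5 := h x hx y hyΩ (hy.le.trans (min_le_left _ _))
  rw [dist_comm (f y) (f x)]
  refine h5.trans ?_
  exact mul_le_mul_of_nonneg_left (omega_sqrt α hα _ dist_nonneg (hy.le.trans (min_le_right _ _)))
    hC.le

/-- positions of the boxes -/
noncomputable def pos (m : ℕ) (r : ℕ) : E m :=
  WithLp.toLp 2 (Fin.cons ((1 / 2 : ℝ) ^ (r + 1)) fun _ => 1 / 2)

/-- sizes of the boxes -/
noncomputable def siz (r : ℕ) : ℝ := (1 / 2 : ℝ) ^ (r + 3)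

theorem siz_pos (r : ℕ) : 0 < siz r := by unfold siz; positivity

theorem siz_le (r : ℕ) : siz r ≤ 1 := by
  unfold siz; exact pow_le_one₀ (by norm_num) (by norm_num)

theorem siz_tendsto : Tendsto siz atTop (𝓝 0) := by
  unfold siz
  exact (tendsto_pow_atTop_nhds_zero_of_lt_one (by norm_num) (by norm_num)).comp
    (tendsto_add_atTop_nat 3)

/-- the slabs -/
def slab (m : ℕ) (r : ℕ) : Set (E m) :=
  {z | 3 * siz r < z 0 ∧ z 0 < 6 * siz r}

theorem slab_open (r : ℕ) : IsOpen (slab m r) := by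
  have hc : Continuous fun z : E m => z 0 := (EuclideanSpace.proj (𝕜 := ℝ) 0).continuous
  exact (isOpen_lt continuous_const hc).inter (isOpen_lt hc continuous_const)

theorem siz_succ (r : ℕ) : siz r = 2 * siz (r + 1) := by
  unfold siz; rw [show r + 1 + 3 = (r + 3) + 1 by ring, pow_succ]; ring

theorem siz_anti {r q : ℕ} (h : r < q) : 2 * siz q ≤ siz r := by
  induction q, h using Nat.le_induction with
  | base => rw [siz_succ r]
  | succ q _ ih =>
    have := siz_pos (q + 1)
    have := siz_succ q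
    linarith

theorem slab_disj {r q : ℕ} (h : r ≠ q) (z : E m) (hz : z ∈ slab m r) : z ∉ slab m q := by
  rintro ⟨h1, h2⟩
  obtain ⟨h3, h4⟩ := hz
  rcases lt_or_gt_of_ne h with h5 | h5
  · have := siz_anti h5; linarith
  · have := siz_anti h5; linarith

/-- the box number `r` -/
noncomputable def Box (p : Par m) (r : ℕ) : Set (E m) :=
  sim (pos m r) (siz r) (LinearIsometryEquiv.refl ℝ (E m)) '' K m p.nu

theorem sim_zero (r : ℕ) (z : E m) :
    sim (pos m r) (siz r) (LinearIsometryEquiv.refl ℝ (E m)) z 0 = 4 * siz r + siz r * z 0 := by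
  simp only [sim, LinearIsometryEquiv.coe_refl, id_eq, PiLp.add_apply, PiLp.smul_apply,
    smul_eq_mul, pos, siz, Fin.cons_zero, add_left_inj]
  rw [show r + 3 = r + 1 + 2 by ring, pow_add]; ring

theorem sim_succ (r : ℕ) (z : E m) (i : Fin m) :
    sim (pos m r) (siz r) (LinearIsometryEquiv.refl ℝ (E m)) z i.succ =
      1 / 2 + siz r * z i.succ := by
  simp [sim, pos]

theorem nu_le (p : Par m) : p.nu ≤ 1 / 16 / m := by
  have h1 := p.hep0; have h2 := p.hep1; have h3 := p.hsg0; have h4 := p.hsg1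
  have hm := p.m_pos
  unfold Par.nu
  rw [div_div]
  apply div_le_div_of_nonneg_right _ (by positivity)
  nlinarith

theorem nu_le' (p : Par m) : p.nu ≤ 1 / 16 := by
  refine (nu_le p).trans ?_
  have := p.m_one
  apply div_le_self (by norm_num) this

theorem Box_slab (p : Par m) (r : ℕ) : Box p r ⊆ slab m r := by
  rintro _ ⟨z, ⟨h0, h1, h2⟩, rfl⟩
  have := siz_pos r
  constructor
  · rw [sim_zero]; nlinarith
  · rw [sim_zero]; nlinarith

theorem Box_cube (p : Par m) (r : ℕ) : Box p r ⊆ cube m := by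
  rintro _ ⟨z, ⟨h0, h1, h2⟩, rfl⟩ i
  have hs := siz_pos r
  have hs1 : siz r ≤ 1 / 8 := by
    unfold siz
    calc (1 / 2 : ℝ) ^ (r + 3) ≤ (1 / 2) ^ 3 := pow_le_pow_of_le_one (by norm_num) (by norm_num)
          (by omega)
      _ = 1 / 8 := by norm_num
  refine Fin.cases ?_ (fun j => ?_) i
  · rw [sim_zero]; constructor <;> nlinarith
  · rw [sim_succ]
    have h3 := abs_le.1 (h2 j)
    have h4 := nu_le' p
    constructor <;> nlinarith

theorem Box_diam (p : Par m) (r : ℕ) (x y : E m) (hx : x ∈ Box p r) (hy : y ∈ Box p r) :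
    dist x y ≤ 2 * siz r := by
  obtain ⟨x, ⟨h0, h1, h2⟩, rfl⟩ := hx
  obtain ⟨y, ⟨h0', h1', h2'⟩, rfl⟩ := hy
  have hs := siz_pos r
  rw [sim_dist _ _ hs]
  have h3 : dist x y ≤ 2 := by
    refine (dist_le_sum x y).trans ?_
    have h4 : |x 0 - y 0| ≤ 1 := by rw [abs_le]; constructor <;> linarith
    have h5 : ∑ i : Fin m, |x i.succ - y i.succ| ≤ ∑ i : Fin m, 2 * p.nu := by
      refine Finset.sum_le_sum fun i _ => ?_
      have k1 := abs_le.1 (h2 i)
      have k2 := abs_le.1 (h2' i)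
      rw [abs_le]; constructor <;> linarith
    rw [Finset.sum_const, Finset.card_univ, Fintype.card_fin, nsmul_eq_mul] at h5
    have h6 := nu_le p
    have hm := p.m_pos
    rw [le_div_iff₀ hm] at h6
    nlinarith
  nlinarith

theorem Box_compact (p : Par m) (r : ℕ) : IsCompact (Box p r) :=
  (meas_K m p.nu).2.image (sim_cont _ _ _)

/-- the exponents -/
noncomputable def alp (r : ℕ) : ℝ := 1 / 2 - 1 / (r + 3)

theorem alp_pos (r : ℕ) : 0 < alp r := by
  unfold alp
  have : (0 : ℝ) ≤ r := by positivity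
  rw [sub_pos]
  apply one_div_lt_one_div_of_lt (by norm_num)
  linarith

theorem alp_lt (r : ℕ) : alp r < 1 / 2 := by
  unfold alp
  have : (0 : ℝ) < 1 / (r + 3) := by positivity
  linarith

/-- the contrasts -/
noncomputable def cc (r : ℕ) : ℝ := (1 / 2 : ℝ) ^ r

theorem cc_pos (r : ℕ) : 0 < cc r := by unfold cc; positivity
theorem cc_le (r : ℕ) : cc r ≤ 1 := pow_le_one₀ (by norm_num) (by norm_num)

/-- The local densities. -/
theorem local_density (hm : 1 ≤ m) (r : ℕ) : ∃ (p : Par m) (s : ℝ) (ρ : E m → ℝ),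
    p.c = cc r ∧ 0 < s ∧ s ≤ siz r ∧
    (r + 1) * Real.log (1 / s) ^ alp r ≤ p.L ∧ Continuous ρ ∧
    (∀ z, 1 ≤ ρ z ∧ ρ z ≤ 1 + cc r) ∧ (∀ z, z ∉ slab m r → ρ z = 1) ∧
    ∀ (f : E m → E m) (ρ' : E m → ℝ), (∀ z ∈ Box p r, ρ' z = ρ z) →
      ¬ AdmOn p.L p.c (Box p r) f ρ' s := by
  obtain ⟨p, I, hpc, hpI, hplog⟩ := asym m hm (par_exists m hm) (alp r) (alp_pos r) (alp_lt r)
    (r + 1) (cc r) (siz r) (by positivity) (cc_pos r) (cc_le r) (siz_pos r) (siz_le r)
  obtain ⟨ρ0, e, hρ0m, hρ0, he, hno⟩ := no_map p I hpI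
  have hkap := p.kap_pos
  have hkap1 := kap_le_one (p := p)
  have hsb := p.sbase_pos
  have hs := siz_pos r
  have hsimi : Measurable (simi (pos m r) (siz r) (LinearIsometryEquiv.refl ℝ (E m))) :=
    (simi_cont _ _ _).measurable
  obtain ⟨ρ, hρc, hρ1, hρ2, hρ3⟩ := cont_approx (cc r) (cc_pos r)
    (fun z => ρ0 (simi (pos m r) (siz r) (LinearIsometryEquiv.refl ℝ (E m)) z))
    (hρ0m.comp hsimi) (fun z => by have := hρ0 (simi (pos m r) (siz r)
      (LinearIsometryEquiv.refl ℝ (E m)) z); rwa [hpc] at this) (Box p r) (slab m r)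
    (Box_compact p r) (slab_open r) (Box_slab p r) (siz r ^ (m + 1) * e) (by positivity)
  refine ⟨p, siz r * (p.kap ^ I * p.sbase), ρ, hpc, by positivity, ?_, hplog, hρc, hρ1, hρ2, ?_⟩
  · have h1 : p.kap ^ I ≤ 1 := pow_le_one₀ hkap.le hkap1
    have h2 := sbase_le_one (p := p)
    have h3 : p.kap ^ I * p.sbase ≤ 1 * 1 := mul_le_mul h1 h2 hsb.le zero_le_one
    nlinarith
  · intro f ρ' hρ' hadm
    have h1 := hadm.pull (p := p) rfl rfl (pos m r) (siz r) hs (LinearIsometryEquiv.refl ℝ (E m))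
      Subset.rfl
    refine hno _ _ _ h1 ?_ ?_
    · rw [div_le_iff₀ hs]
      exact le_of_eq (by ring)
    · have h2 : ∫⁻ z in K m p.nu, ENNReal.ofReal |ρ' (sim (pos m r) (siz r)
          (LinearIsometryEquiv.refl ℝ (E m)) z) - ρ0 z| =
          ∫⁻ z in K m p.nu, ENNReal.ofReal |ρ (sim (pos m r) (siz r)
          (LinearIsometryEquiv.refl ℝ (E m)) z) - ρ0 (simi (pos m r) (siz r)
          (LinearIsometryEquiv.refl ℝ (E m)) (sim (pos m r) (siz r)
          (LinearIsometryEquiv.refl ℝ (E m)) z))| := by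
        refine setLIntegral_congr_fun (meas_K m p.nu).1 fun z hz => ?_
        simp only [simi_sim _ _ hs, hρ' _ ⟨z, hz, rfl⟩]
      rw [h2]
      exact L1_sim (pos m r) (siz r) hs (LinearIsometryEquiv.refl ℝ (E m)) (K m p.nu)
        (meas_K m p.nu).1 (fun z => ρ0 (simi (pos m r) (siz r) (LinearIsometryEquiv.refl ℝ (E m)) z))
        ρ e hρ3

/-- **The density on the unit cube.** -/
theorem assembly (hm : 1 ≤ m) : ∃ ρ : E m → ℝ, Continuous ρ ∧ (∀ x, 1 ≤ ρ x) ∧
    ∀ α : ℝ, α < 1 / 2 → ∀ (f : E m → E m) (C t0 : ℝ), 0 < C → 0 < t0 → InjOn f (cube m) →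
      (∀ x ∈ cube m, ∀ y ∈ cube m, dist x y ≤ t0 →
        dist (f x) (f y) ≤ C * (dist x y * Real.log (1 / dist x y) ^ α)) →
      (∀ x ∈ cube m, ∀ y ∈ cube m, dist (f x) (f y) ≤ t0 →
        dist x y ≤ C * (dist (f x) (f y) * Real.log (1 / dist (f x) (f y)) ^ α)) →
      (∀ B : Set (E m), MeasurableSet B →
        ∫⁻ x in cube m ∩ f ⁻¹' B, ENNReal.ofReal (ρ x) = volume (B ∩ f '' cube m)) → False := by
  choose P s ρr hPc hs0 hs1 hlog hcont hbd hout hno using fun r => local_density hm r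
  set ρ : E m → ℝ := fun z => 1 + ∑' r, (ρr r z - 1) with hρdef
  have hnn : ∀ r z, 0 ≤ ρr r z - 1 := fun r z => by linarith [(hbd r z).1]
  have hle : ∀ r z, ρr r z - 1 ≤ cc r := fun r z => by linarith [(hbd r z).2]
  have hsum : Summable cc := by
    unfold cc; exact summable_geometric_of_lt_one (by norm_num) (by norm_num)
  have hρc : Continuous ρ := by
    refine continuous_const.add (continuous_tsum (fun r => (hcont r).sub continuous_const) hsum ?_)
    intro r z
    rw [Real.norm_eq_abs, abs_of_nonneg (hnn r z)]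
    exact hle r z
  have hρ1 : ∀ z, 1 ≤ ρ z := by
    intro z
    have : 0 ≤ ∑' r, (ρr r z - 1) := tsum_nonneg fun r => hnn r z
    simp only [hρdef]; linarith
  have hρr : ∀ r, ∀ z ∈ slab m r, ρ z = ρr r z := by
    intro r z hz
    simp only [hρdef]
    rw [tsum_eq_single r (fun q hq => by
      rw [hout q z (slab_disj (Ne.symm hq) z hz)]; ring)]
    ring
  refine ⟨ρ, hρc, hρ1, ?_⟩
  intro α hα f C t0 hC ht0 hinj hf hg hpush
  -- choice of `r`
  have hex : ∃ r : ℕ, C ≤ r + 1 ∧ α ≤ alp r ∧ 2 * siz r ≤ min t0 (Real.exp (-1)) ∧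
      C * (2 * Real.sqrt (2 * siz r)) ≤ min t0 (Real.exp (-1)) := by
    have hpos : 0 < min t0 (Real.exp (-1)) := lt_min ht0 (Real.exp_pos _)
    have e1 : ∀ᶠ r : ℕ in atTop, C ≤ r + 1 := by
      have : Tendsto (fun r : ℕ => (r : ℝ) + 1) atTop atTop :=
        tendsto_atTop_add_const_right _ _ tendsto_natCast_atTop_atTop
      exact this.eventually_ge_atTop C
    have e2 : ∀ᶠ r : ℕ in atTop, α ≤ alp r := by
      have h1 : Tendsto (fun r : ℕ => alp r) atTop (𝓝 (1 / 2 - 0)) := by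
        unfold alp
        refine tendsto_const_nhds.sub ?_
        have : Tendsto (fun r : ℕ => (r : ℝ) + 3) atTop atTop :=
          tendsto_atTop_add_const_right _ _ tendsto_natCast_atTop_atTop
        exact this.inv_tendsto_atTop.congr fun r => by simp [one_div]
      rw [sub_zero] at h1
      exact (h1.eventually (lt_mem_nhds hα)).mono fun _ h => h.le
    have e3 : ∀ᶠ r : ℕ in atTop, 2 * siz r ≤ min t0 (Real.exp (-1)) := by
      have h1 : Tendsto (fun r : ℕ => 2 * siz r) atTop (𝓝 (2 * 0)) := siz_tendsto.const_mul 2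
      rw [mul_zero] at h1
      exact (h1.eventually (gt_mem_nhds hpos)).mono fun _ h => h.le
    have e4 : ∀ᶠ r : ℕ in atTop, C * (2 * Real.sqrt (2 * siz r)) ≤ min t0 (Real.exp (-1)) := by
      have h1 : Tendsto (fun r : ℕ => C * (2 * Real.sqrt (2 * siz r))) atTop
          (𝓝 (C * (2 * Real.sqrt (2 * 0)))) := by
        have h2 : Tendsto (fun r : ℕ => 2 * siz r) atTop (𝓝 (2 * 0)) := siz_tendsto.const_mul 2
        exact ((((Real.continuous_sqrt.tendsto _).comp h2)).const_mul 2).const_mul C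
      rw [mul_zero, Real.sqrt_zero, mul_zero, mul_zero] at h1
      exact (h1.eventually (gt_mem_nhds hpos)).mono fun _ h => h.le
    obtain ⟨r, h1, h2, h3, h4⟩ := (e1.and (e2.and (e3.and e4))).exists
    exact ⟨r, h1, h2, h3, h4⟩
  obtain ⟨r, hr1, hr2, hr3, hr4⟩ := hex
  have hsiz := siz_pos r
  have hcub := Box_cube (P r) r
  have hα1 : alp r ≤ 1 := by linarith [alp_lt r]
  have hs := hs0 r
  have hsexp : 1 * s r ≤ Real.exp (-1) := by
    rw [one_mul]
    have := hs1 r
    have := hr3.trans (min_le_right _ _)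
    linarith
  have hlog1 : 1 ≤ Real.log (1 / s r) := by
    rw [one_div, Real.log_inv]
    have hse : s r ≤ Real.exp (-1) := by rwa [one_mul] at hsexp
    have := Real.log_le_log hs hse
    rw [Real.log_exp] at this
    linarith
  have hCL : C * Real.log (1 / (1 * s r)) ^ alp r ≤ (P r).L := by
    rw [one_mul]
    refine le_trans ?_ (hlog r)
    apply mul_le_mul_of_nonneg_right hr1
    exact Real.rpow_nonneg (by linarith) _
  have hd2 : ∀ x ∈ Box (P r) r, ∀ y ∈ Box (P r) r, dist x y ≤ Real.exp (-1) := fun x hx y hy =>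
    (Box_diam (P r) r x y hx hy).trans (hr3.trans (min_le_right _ _))
  have hfd : ∀ x ∈ Box (P r) r, ∀ y ∈ Box (P r) r,
      dist (f x) (f y) ≤ C * (2 * Real.sqrt (2 * siz r)) := by
    intro x hx y hy
    have hd := Box_diam (P r) r x y hx hy
    refine (hf x (hcub hx) y (hcub hy) (hd.trans (hr3.trans (min_le_left _ _)))).trans ?_
    refine mul_le_mul_of_nonneg_left ?_ hC.le
    refine (omega_sqrt α (by linarith) _ dist_nonneg (hd2 x hx y hy)).trans ?_
    gcongr
  have hcoarse : Coarse f (Box (P r) r) (P r).L (s r) := by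
    have c1 := coarse_half (X := Box (P r) r) (alp r) (alp_pos r).le hα1 C t0 1 (s r) (P r).L
      (2 * siz r) hC one_pos hs hCL hsexp (by rw [one_mul]; exact hr3.trans (min_le_right _ _))
      (by rw [one_mul]; exact hr3.trans (min_le_left _ _))
      (fun x y => dist (x : E m) y) (fun x y => dist (f x) (f y)) (fun _ _ => dist_nonneg)
      (fun x y => Box_diam (P r) r x y x.2 y.2) (by
        intro x y hxy
        rw [one_mul] at hxy ⊢
        rw [one_mul]
        refine (hf x (hcub x.2) y (hcub y.2) hxy).trans ?_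
        exact mul_le_mul_of_nonneg_left
          (omega_exp _ _ hr2 _ dist_nonneg (hd2 x x.2 y y.2)) hC.le)
    have c2 := coarse_half (X := Box (P r) r) (alp r) (alp_pos r).le hα1 C t0 1 (s r) (P r).L
      (C * (2 * Real.sqrt (2 * siz r))) hC one_pos hs hCL hsexp
      (by rw [one_mul]; exact hr4.trans (min_le_right _ _))
      (by rw [one_mul]; exact hr4.trans (min_le_left _ _))
      (fun x y => dist (f x) (f y)) (fun x y => dist (x : E m) y) (fun _ _ => dist_nonneg)
      (fun x y => hfd x x.2 y y.2) (by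
        intro x y hxy
        rw [one_mul] at hxy ⊢
        rw [one_mul]
        refine (hg x (hcub x.2) y (hcub y.2) hxy).trans ?_
        exact mul_le_mul_of_nonneg_left
          (omega_exp _ _ hr2 _ dist_nonneg ((hfd x x.2 y y.2).trans
            (hr4.trans (min_le_right _ _)))) hC.le)
    intro x hx y hy
    exact ⟨c1 ⟨x, hx⟩ ⟨y, hy⟩, c2 ⟨x, hx⟩ ⟨y, hy⟩⟩
  have hcontf : ContinuousOn f (cube m) := cont_of_omega (by linarith) hC ht0 hf
  refine hno r f ρ (fun z hz => hρr r z (Box_slab (P r) r hz)) ⟨hs, hcontf.mono hcub,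
    hinj.mono hcub, hcoarse, hρc.measurable, ?_, ?_⟩
  · intro z hz
    rw [hρr r z (Box_slab (P r) r hz), hPc]
    exact hbd r z
  · intro S hS hSm
    have hSc : S ⊆ cube m := hS.trans hcub
    have hBm : MeasurableSet (f '' S) :=
      hSm.image_of_continuousOn_injOn (hcontf.mono hSc) (hinj.mono hSc)
    have h1 := hpush (f '' S) hBm
    have h2 : cube m ∩ f ⁻¹' (f '' S) = S := by
      ext x
      constructor
      · rintro ⟨hx, y, hy, hxy⟩
        rwa [← hinj (hSc hy) hx hxy]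
      · intro hx
        exact ⟨hSc hx, x, hx, rfl⟩
    rw [h2, inter_eq_left.2 (image_mono hSc)] at h1
    exact h1.symm

end

end Pool.Agent.Helper724BK
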