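import Pool.Agent.Helper724_BK.Basic
import Pool.Agent.Helper724_BK.BK1
import Pool.Agent.Helper724_BK.BK2

/-!
# The monotone function `ψ` and the choice of a window and of a cell
-/

set_option autoImplicit false
open MeasureTheory Metric Set Filter Topology
open scoped ENNReal NNReal

namespace Pool.Agent.Helper724BK

/-- points of the axis -/
def ax {m : ℕ} (x : ℤ) : Zv m := Fin.cons x (fun _ => 0)

@[simp] theorem ax_zero {m : ℕ} (x : ℤ) : (ax x : Zv m) 0 = x := by simp [ax]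
@[simp] theorem ax_succ {m : ℕ} (x : ℤ) (i : Fin m) : (ax x : Zv m) i.succ = 0 := by simp [ax]

theorem ax_sum {m : ℕ} (x : ℤ) : ∑ i, (ax x : Zv m) i = x := by
  rw [Fin.sum_univ_succ]; simp

/-- pigeonhole for a telescoping sum -/
theorem pigeon (N : ℕ) (hN : 1 ≤ N) (g : ℕ → ℝ) (D : ℝ) (h : g N - g 0 ≤ D) :
    ∃ i < N, g (i + 1) - g i ≤ D / N := by
  by_contra hcon
  push Not at hcon
  have h1 : ∑ i ∈ Finset.range N, (D / N) < ∑ i ∈ Finset.range N, (g (i + 1) - g i) :=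
    Finset.sum_lt_sum_of_nonempty (Finset.nonempty_range_iff.2 (by omega))
      fun i hi => hcon i (Finset.mem_range.1 hi)
  rw [Finset.sum_range_sub, Finset.sum_const, Finset.card_range, nsmul_eq_mul] at h1
  have : (0 : ℝ) < N := by exact_mod_cast hN
  have h2 : (N : ℝ) * (D / N) = D := by field_simp
  linarith

/-- The data of the main lemma: `ψ` is monotone along the edges and increases by at most `D` along the axis. -/
structure Mono {m : ℕ} (p : Par m) (ψ : Zv m → ℝ) (D : ℝ) : Prop where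
  step : ∀ (b : Zv m) (j : Fin m) (s : ℤ), p.IsEdge b j s → ψ b ≤ ψ (b + dir j s)
  total : ψ (ax p.T) - ψ (ax 0) ≤ D

namespace Mono
variable {m : ℕ} {p : Par m} {ψ : Zv m → ℝ} {D : ℝ}

theorem cone (hψ : Mono p ψ D) (q r : Zv m) (hq : ∀ i : Fin m, |q i.succ| ≤ p.B)
    (hr : ∀ i : Fin m, |r i.succ| ≤ p.B - 1) (hq0 : 0 ≤ q 0) (hr0 : r 0 ≤ p.T)
    (hqe : Even (∑ i, q i)) (hre : Even (∑ i, r i))
    (hc : ∑ i : Fin m, |r i.succ - q i.succ| ≤ r 0 - q 0) : ψ q ≤ ψ r :=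
  cone_mono p.hm ψ p.B p.T (fun b j s hs h0 hT hB hj he => hψ.step b j s ⟨hs, he, h0, hT, hB, hj⟩)
    q r hq hr hq0 hr0 hqe hre hc

/-- the indices in the window number `i` (without the margins) -/
def InWin (p : Par m) (i : ℕ) (b : Zv m) : Prop :=
  Even (∑ l, b l) ∧ (5 * i + 1) * (2 * (p.M : ℤ) * p.n) ≤ b 0 ∧
    b 0 ≤ (5 * i + 4) * (2 * (p.M : ℤ) * p.n) ∧ ∑ l : Fin m, |b l.succ| ≤ 2 * (p.M : ℤ) * p.n

theorem exists_window (hψ : Mono p ψ D) : ∃ i < p.N, ∀ b b' : Zv m, InWin p i b → InWin p i b' →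
    ψ b - ψ b' ≤ D / p.N := by
  have hMn : (0 : ℤ) < 2 * (p.M : ℤ) * p.n := by
    have h1 := p.hM; have h2 := p.hn; positivity
  have hMn2 : Even (2 * (p.M : ℤ) * p.n) := by
    rw [mul_assoc]; exact even_two_mul _
  obtain ⟨i, hi, hD⟩ := pigeon p.N p.hN
    (fun i => ψ (ax (5 * i * (2 * (p.M : ℤ) * p.n)))) D (by
      have := hψ.total
      rw [p.T_eq] at this
      simpa using this)
  refine ⟨i, hi, ?_⟩
  intro b b' hb hb'
  obtain ⟨hbe, hb1, hb2, hb3⟩ := hb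
  obtain ⟨hbe', hb1', hb2', hb3'⟩ := hb'
  have hB : p.B - 1 = 2 * (p.M : ℤ) * p.n := by unfold Par.B; ring
  have hN : ((i : ℤ) + 1) ≤ p.N := by exact_mod_cast hi
  have hT : 5 * ((i : ℤ) + 1) * (2 * (p.M : ℤ) * p.n) ≤ p.T := by
    rw [p.T_eq]
    have : 5 * ((i : ℤ) + 1) ≤ 5 * p.N := by linarith
    exact mul_le_mul_of_nonneg_right this hMn.le
  have hi0 : (0 : ℤ) ≤ 5 * i * (2 * (p.M : ℤ) * p.n) := by positivity
  have hle : ∀ (c : Zv m), ∑ l : Fin m, |c l.succ| ≤ 2 * (p.M : ℤ) * p.n → ∀ l : Fin m,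
      |c l.succ| ≤ 2 * (p.M : ℤ) * p.n := by
    intro c hc l
    refine le_trans ?_ hc
    exact Finset.single_le_sum (f := fun l : Fin m => |c l.succ|) (fun _ _ => abs_nonneg _)
      (Finset.mem_univ l)
  have hup : ψ b ≤ ψ (ax (5 * ((i + 1 : ℕ) : ℤ) * (2 * (p.M : ℤ) * p.n))) := by
    apply hψ.cone
    · intro l
      have := hle b hb3 l
      linarith
    · intro l
      simp only [ax_succ, abs_zero]
      linarith
    · nlinarith
    · simp only [ax_zero]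
      push_cast
      exact hT
    · exact hbe
    · rw [ax_sum]
      exact hMn2.mul_left _
    · simp only [ax_succ, ax_zero, zero_sub, abs_neg]
      push_cast
      nlinarith
  have hlo : ψ (ax (5 * (i : ℤ) * (2 * (p.M : ℤ) * p.n))) ≤ ψ b' := by
    apply hψ.cone
    · intro l
      simp only [ax_succ, abs_zero]
      linarith
    · intro l
      rw [hB]
      exact hle b' hb3' l
    · simp only [ax_zero]
      exact hi0
    · nlinarith
    · rw [ax_sum]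
      exact hMn2.mul_left _
    · exact hbe'
    · simp only [ax_succ, ax_zero, sub_zero]
      nlinarith
  push_cast at hD hup
  linarith

end Mono

/-- indices of the small boxes of the cell number `κ` -/
def Xi {m : ℕ} (p : Par m) (κ : ℕ) (a : Fin p.M × (Fin m → Fin (2 * p.H))) : Zv m :=
  Fin.cons (2 * (p.M : ℤ) * κ + 2 * ((a.1 : ℕ) : ℤ))
    (fun l => -2 * (p.H : ℤ) + 2 * (((a.2 l) : ℕ) : ℤ))

theorem Xi_zero {m : ℕ} (p : Par m) (κ : ℕ) (a) :
    Xi p κ a 0 = 2 * (p.M : ℤ) * κ + 2 * ((a.1 : ℕ) : ℤ) := by simp [Xi]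
theorem Xi_succ {m : ℕ} (p : Par m) (κ : ℕ) (a) (l : Fin m) :
    Xi p κ a l.succ = -2 * (p.H : ℤ) + 2 * (((a.2 l) : ℕ) : ℤ) := by simp [Xi]

theorem Xi_even {m : ℕ} (p : Par m) (κ : ℕ) (a) : Even (∑ l, Xi p κ a l) := by
  rw [Fin.sum_univ_succ]
  simp only [Xi_zero, Xi_succ]
  apply Even.add
  · rw [mul_assoc]
    exact (even_two_mul _).add (even_two_mul _)
  · apply Finset.even_sum
    intro i _
    exact ⟨-(p.H : ℤ) + (((a.2 i) : ℕ) : ℤ), by ring⟩

theorem Xi_abs {m : ℕ} (p : Par m) (κ : ℕ) (a) (l : Fin m) : |Xi p κ a l.succ| ≤ 2 * (p.H : ℤ) := by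
  rw [Xi_succ, abs_le]
  have h1 : (((a.2 l) : ℕ) : ℤ) < 2 * (p.H : ℤ) := by exact_mod_cast (a.2 l).2
  constructor <;> omega

/-- `2 m H ≤ 2 M n` -/
theorem mH_le {m : ℕ} (p : Par m) : (m : ℤ) * (2 * p.H) ≤ 2 * (p.M : ℤ) * p.n := by
  have h := p.h4'
  have h1 := p.W_eq'
  have ht := p.tau_pos
  have he := p.hep0
  have hL := p.L_pos
  have hr := p.rho_pos
  have hm := p.m_pos
  have h2 : (m : ℝ) * p.h ≤ p.ep * p.W := by
    have : (m : ℝ) * p.h ≤ m * (p.h + p.L * p.rho + 2 * p.tau * p.ep) := by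
      apply mul_le_mul_of_nonneg_left _ hm.le
      have : 0 < p.L * p.rho := mul_pos hL hr
      have : 0 < 2 * p.tau * p.ep := by positivity
      linarith
    linarith
  rw [h1] at h2
  unfold Par.h at h2
  have h3 : (p.tau * p.ep) * ((m : ℝ) * (2 * p.H)) ≤ (p.tau * p.ep) * (2 * p.M * p.n) := by
    linarith
  have h4 := le_of_mul_le_mul_left h3 (mul_pos ht he)
  exact_mod_cast h4

theorem H_le {m : ℕ} (p : Par m) : 2 * (p.H : ℤ) ≤ 2 * (p.M : ℤ) * p.n := by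
  have h1 := mH_le p
  have h2 : (1 : ℤ) ≤ m := by exact_mod_cast p.hm
  have h3 : (0 : ℤ) ≤ 2 * p.H := by positivity
  nlinarith

theorem Xi_win {m : ℕ} (p : Par m) (i j : ℕ) (hj : j ≤ p.n) (a) :
    Mono.InWin p i (Xi p ((5 * i + 2) * p.n + j) a) := by
  have hM : (1 : ℤ) ≤ p.M := by exact_mod_cast p.hM
  have hn : (1 : ℤ) ≤ p.n := by exact_mod_cast p.hn
  have hj' : (j : ℤ) ≤ p.n := by exact_mod_cast hj
  have ha : ((a.1 : ℕ) : ℤ) < p.M := by exact_mod_cast a.1.2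
  have ha0 : (0 : ℤ) ≤ ((a.1 : ℕ) : ℤ) := by positivity
  have hi : (0 : ℤ) ≤ i := by positivity
  have hj0 : (0 : ℤ) ≤ j := by positivity
  refine ⟨Xi_even _ _ _, ?_, ?_, ?_⟩
  · rw [Xi_zero]
    push_cast
    have : (0 : ℤ) ≤ 2 * p.M * p.n := by positivity
    have h2 : (0 : ℤ) ≤ 2 * p.M * j := by positivity
    nlinarith
  · rw [Xi_zero]
    push_cast
    have h2 : (2 : ℤ) * p.M * j ≤ 2 * p.M * p.n := by
      apply mul_le_mul_of_nonneg_left hj' (by positivity)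
    have h3 : (2 : ℤ) * p.M * 1 ≤ 2 * p.M * p.n := by
      apply mul_le_mul_of_nonneg_left hn (by positivity)
    nlinarith
  · calc ∑ l : Fin m, |Xi p ((5 * i + 2) * p.n + j) a l.succ| ≤ ∑ l : Fin m, 2 * (p.H : ℤ) :=
        Finset.sum_le_sum fun l _ => Xi_abs _ _ _ _
      _ = (m : ℤ) * (2 * p.H) := by simp
      _ ≤ _ := mH_le p

theorem Xi_mono {m : ℕ} {p : Par m} {ψ : Zv m → ℝ} {D : ℝ} (hψ : Mono p ψ D) (κ : ℕ)
    (hκ : κ + 1 < 5 * p.N * p.n) (a) : ψ (Xi p κ a) ≤ ψ (Xi p (κ + 1) a) := by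
  have hM : (1 : ℤ) ≤ p.M := by exact_mod_cast p.hM
  have hn : (1 : ℤ) ≤ p.n := by exact_mod_cast p.hn
  have ha : ((a.1 : ℕ) : ℤ) < p.M := by exact_mod_cast a.1.2
  have ha0 : (0 : ℤ) ≤ ((a.1 : ℕ) : ℤ) := by positivity
  have hB : p.B = 2 * p.M * p.n + 1 := rfl
  have hH := H_le p
  have hκ' : ((κ : ℤ) + 1 + 1) ≤ 5 * p.N * p.n := by exact_mod_cast hκ
  apply hψ.cone
  · intro l
    have := Xi_abs p κ a l
    rw [hB]; linarith
  · intro l
    have := Xi_abs p (κ + 1) a l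
    rw [hB]; linarith
  · rw [Xi_zero]; positivity
  · rw [Xi_zero, p.T_eq]
    push_cast
    have : 2 * (p.M : ℤ) * (κ + 1 + 1) ≤ 2 * p.M * (5 * p.N * p.n) :=
      mul_le_mul_of_nonneg_left hκ' (by positivity)
    nlinarith
  · exact Xi_even _ _ _
  · exact Xi_even _ _ _
  · simp only [Xi_succ, Xi_zero, sub_self, abs_zero, Finset.sum_const_zero]
    push_cast
    nlinarith

/-- Choice of an even cell in which the average of the deficits is small. -/
theorem exists_cell {m : ℕ} {p : Par m} {ψ : Zv m → ℝ} {D : ℝ} (hψ : Mono p ψ D) :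
    ∃ i < p.N, (∀ b b' : Zv m, Mono.InWin p i b → Mono.InWin p i b' → ψ b - ψ b' ≤ D / p.N) ∧
      ∃ κ : ℕ, Even κ ∧ (5 * i + 2) * p.n ≤ κ ∧ κ + 1 < (5 * i + 3) * p.n ∧
        ∑ a, (ψ (Xi p (κ + 1) a) - ψ (Xi p κ a)) ≤
          2 * D / (p.N * p.n) * Fintype.card (Fin p.M × (Fin m → Fin (2 * p.H))) := by
  obtain ⟨i, hi, hw⟩ := hψ.exists_window
  refine ⟨i, hi, hw, ?_⟩
  obtain ⟨n', hn'⟩ := p.hn2
  have hnpos := p.hn
  have hn1 : 1 ≤ n' := by omega
  set κ0 := (5 * i + 2) * p.n with hκ0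
  set c := Fintype.card (Fin p.M × (Fin m → Fin (2 * p.H))) with hc
  set S : ℕ → ℝ := fun κ => ∑ a, ψ (Xi p κ a) with hS
  have htot : S (κ0 + 2 * n') - S (κ0 + 2 * 0) ≤ D / p.N * c := by
    simp only [hS]
    rw [← Finset.sum_sub_distrib]
    refine (Finset.sum_le_sum fun a _ => hw _ _ (Xi_win p i (2 * n') (by omega) a)
      (Xi_win p i (2 * 0) (by omega) a)).trans (le_of_eq ?_)
    rw [Finset.sum_const, Finset.card_univ, nsmul_eq_mul]
    ring
  obtain ⟨q, hq, hqD⟩ := pigeon n' hn1 (fun q => S (κ0 + 2 * q)) _ htot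
  refine ⟨κ0 + 2 * q, ?_, by omega, ?_, ?_⟩
  · rw [hκ0, hn']
    exact ⟨(5 * i + 2) * n' + q, by ring⟩
  · have : κ0 + 2 * q + 1 < κ0 + p.n := by omega
    have h2 : κ0 + p.n = (5 * i + 3) * p.n := by rw [hκ0]; ring
    omega
  · have hlt : κ0 + 2 * q + 1 + 1 < 5 * p.N * p.n := by
      have h1 : κ0 + p.n + p.n ≤ 5 * p.N * p.n := by
        have : (5 * i + 4) * p.n ≤ 5 * p.N * p.n := Nat.mul_le_mul_right _ (by omega)
        rw [hκ0]; nlinarith
      omega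
    have h1 : S (κ0 + 2 * q + 1) ≤ S (κ0 + 2 * (q + 1)) := by
      simp only [hS]
      exact Finset.sum_le_sum fun a _ => Xi_mono hψ _ hlt a
    have h2 : ∑ a, (ψ (Xi p (κ0 + 2 * q + 1) a) - ψ (Xi p (κ0 + 2 * q) a)) =
        S (κ0 + 2 * q + 1) - S (κ0 + 2 * q) := by
      simp only [hS]; rw [Finset.sum_sub_distrib]
    rw [h2]
    have hn'r : (p.n : ℝ) = 2 * n' := by rw [hn']; push_cast; ring
    have hn'0 : (0 : ℝ) < n' := by exact_mod_cast hn1
    have hN0 := p.N_pos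
    have h3 : D / p.N * c / n' = 2 * D / (p.N * p.n) * c := by
      rw [hn'r]; field_simp
    rw [← h3]
    linarith

end Pool.Agent.Helper724BK
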