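import Pool.Agent.Helper724_BK.Key1

/-!
# The pointwise part of the main lemma
-/

set_option autoImplicit false
open MeasureTheory Metric Set Filter Topology
open scoped ENNReal NNReal

namespace Pool.Agent.Helper724BK

/-- The assumptions on the map. -/
structure Dat {m : ℕ} (p : Par m) (f : E m → E m) (s : ℝ) : Prop where
  cont : ContinuousOn f (K m p.nu)
  inj : InjOn f (K m p.nu)
  coarse : Coarse f (K m p.nu) p.L s
  s1 : s ≤ p.sbase
  low : 1 / p.L ≤ dist (f (e0 m)) (f 0)
  edge : ∀ (b : Zv m) (j : Fin m) (t : ℤ), p.IsEdge b j t →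
    dist (f (p.V (b + dir j t))) (f (p.V b)) ≤ (1 + p.ep ^ 2) * dist (f (e0 m)) (f 0) * p.ell

section
variable {m : ℕ} (p : Par m) (f : E m → E m)

/-- the stretch -/
noncomputable def Ast : ℝ := dist (f (e0 m)) (f 0)
/-- the upper bound for the stretch of the edges, in the direction `e₀` -/
noncomputable def Ap : ℝ := (1 + p.ep ^ 2) * Real.sqrt (1 + p.ep ^ 2) * Ast f
/-- the direction -/
noncomputable def uu : E m := (Ast f)⁻¹ • (f (e0 m) - f 0)
/-- the monotone function -/
noncomputable def psi (b : Zv m) : ℝ := Ap p f * (p.tau * b 0) - inner ℝ (f (p.V b)) (uu f)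

variable {p f} {s : ℝ}

theorem Dat.A_pos (h : Dat p f s) : 0 < Ast f := by
  have := h.low
  have h1 : 0 < 1 / p.L := by have := p.L_pos; positivity
  unfold Ast; linarith

theorem Dat.norm_uu (h : Dat p f s) : ‖uu f‖ = 1 := by
  have h1 := h.A_pos
  unfold uu
  rw [norm_smul, norm_inv, Real.norm_eq_abs, abs_of_pos h1, ← dist_eq_norm]
  unfold Ast at *
  field_simp

theorem sqrt_bd (x : ℝ) (hx : 0 ≤ x) (hx1 : x ≤ 1) :
    1 ≤ (1 + x) * Real.sqrt (1 + x) ∧ (1 + x) * Real.sqrt (1 + x) ≤ 1 + 2 * x := by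
  have h1 : 1 ≤ Real.sqrt (1 + x) := Real.one_le_sqrt.2 (by linarith)
  have h2 : Real.sqrt (1 + x) ≤ 1 + x / 2 := by
    rw [Real.sqrt_le_left (by linarith)]
    nlinarith
  constructor <;> nlinarith

theorem Dat.Ap_bd (h : Dat p f s) : Ast f ≤ Ap p f ∧ Ap p f ≤ (1 + 2 * p.ep ^ 2) * Ast f := by
  have h1 := h.A_pos
  have he := p.hep1
  have he0 := p.hep0
  obtain ⟨h2, h3⟩ := sqrt_bd (p.ep ^ 2) (by positivity) (by nlinarith)
  unfold Ap
  constructor <;> nlinarith

theorem V_zero (b : Zv m) : p.V b 0 = p.tau * b 0 := by unfold Par.V; simp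
theorem V_succ (b : Zv m) (i : Fin m) : p.V b i.succ = p.tau * p.ep * b i.succ := by
  unfold Par.V; simp

theorem V_ax_T : p.V (ax p.T) = e0 m := by
  apply ext_coords
  · rw [V_zero, ax_zero, e0_zero, mul_comm]; exact p.T_tau
  · intro i; rw [V_succ, ax_succ, e0_succ]; simp

theorem V_ax_0 : p.V (ax 0) = 0 := by
  apply ext_coords
  · rw [V_zero, ax_zero]; simp
  · intro i; rw [V_succ, ax_succ]; simp

theorem Dat.inner_le (h : Dat p f s) (x : E m) : |inner ℝ x (uu f)| ≤ ‖x‖ := by
  have := abs_real_inner_le_norm x (uu f)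
  rwa [h.norm_uu, mul_one] at this

theorem Dat.edge' (h : Dat p f s) (b : Zv m) (j : Fin m) (t : ℤ) (he : p.IsEdge b j t) :
    dist (f (p.V (b + dir j t))) (f (p.V b)) ≤ Ap p f * p.tau := by
  refine (h.edge b j t he).trans (le_of_eq ?_)
  unfold Ap Par.ell Ast; ring

theorem Dat.mono (h : Dat p f s) : Mono p (psi p f) (2 * p.ep ^ 2 * Ast f) := by
  constructor
  · intro b j t he
    have h1 := h.edge' b j t he
    rw [dist_eq_norm] at h1
    have h2 := (abs_le.1 (h.inner_le (f (p.V (b + dir j t)) - f (p.V b)))).2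
    rw [inner_sub_left] at h2
    unfold psi
    have h3 : ((b + dir j t) 0 : ℤ) = b 0 + 1 := by simp
    rw [h3]
    push_cast
    nlinarith
  · unfold psi
    rw [V_ax_T, V_ax_0, ax_zero, ax_zero]
    have h1 : inner ℝ (f (e0 m)) (uu f) - inner ℝ (f 0) (uu f) = Ast f := by
      rw [← inner_sub_left]
      have h0 := h.A_pos
      unfold uu
      rw [real_inner_smul_right, real_inner_self_eq_norm_sq, ← dist_eq_norm]
      unfold Ast at *
      field_simp
    have h2 := p.T_tau
    have h3 := h.Ap_bd.2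
    have h4 : Ap p f * (p.tau * ((p.T : ℤ) : ℝ)) = Ap p f := by rw [mul_comm p.tau, h2, mul_one]
    rw [h4]
    simp only [Int.cast_zero, mul_zero, zero_sub]
    linarith

theorem ax_even (b : Zv m) (x : ℤ) (hb : Even (∑ i, b i)) (hx : Even x) :
    Even (∑ i, (b + ax x : Zv m) i) := by
  simp only [Pi.add_apply, Finset.sum_add_distrib, ax_sum]
  exact hb.add hx

theorem dir_sum (j : Fin m) (t : ℤ) : ∑ i, dir j t i = 1 + t := by
  rw [Fin.sum_univ_succ]; simp

/-- distances along the axis -/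
theorem Dat.axis (h : Dat p f s) (b : Zv m) (hb : Even (∑ i, b i)) (hb0 : 0 ≤ b 0)
    (hB : ∀ i : Fin m, |b i.succ| ≤ p.B - 1) (a : ℕ) (ha : b 0 + 2 * a ≤ p.T) :
    dist (f (p.V (b + ax (2 * a)))) (f (p.V b)) ≤ 2 * a * (Ap p f * p.tau) := by
  induction a with
  | zero =>
    have : b + ax (2 * ((0 : ℕ) : ℤ)) = b := by
      funext i
      refine Fin.cases ?_ (fun l => ?_) i <;> simp
    rw [this]; simp
  | succ a ih =>
    have ih' := ih (by push_cast at ha; linarith)
    have hm := p.hm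
    let j0 : Fin m := ⟨0, hm⟩
    set b1 : Zv m := b + ax (2 * (a : ℤ)) with hb1
    have e0' : b1 0 = b 0 + 2 * a := by simp [hb1]
    have e1 : ∀ l : Fin m, b1 l.succ = b l.succ := by intro l; simp [hb1]
    have hev : Even (∑ i, b1 i) := ax_even b _ hb (even_two_mul _)
    push_cast at ha
    have hE1 : p.IsEdge b1 j0 1 := by
      refine ⟨Or.inl rfl, hev, by rw [e0']; positivity, by rw [e0']; linarith, ?_, ?_⟩
      · intro i; rw [e1]; have := hB i; linarith
      · rw [e1]
        have := hB j0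
        rw [abs_le] at this ⊢
        constructor <;> linarith
    have hE2 : p.IsEdge (b1 + dir j0 1) j0 (-1) := by
      refine ⟨Or.inr rfl, ?_, ?_, ?_, ?_, ?_⟩
      · simp only [Pi.add_apply, Finset.sum_add_distrib, dir_sum]
        exact hev.add (by norm_num)
      · simp only [Pi.add_apply, dir_zero, e0']; positivity
      · simp only [Pi.add_apply, dir_zero, e0']; linarith
      · intro i
        simp only [Pi.add_apply, dir_succ, e1]
        have := hB i
        rw [abs_le] at this ⊢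
        split_ifs <;> constructor <;> linarith
      · simp only [Pi.add_apply, dir_succ, e1, if_true]
        have := hB j0
        rw [add_neg_cancel_right]
        linarith
    have d1 := h.edge' _ _ _ hE1
    have d2 := h.edge' _ _ _ hE2
    have e3 : b1 + dir j0 1 + dir j0 (-1) = b + ax (2 * ((a + 1 : ℕ) : ℤ)) := by
      funext i
      refine Fin.cases ?_ (fun l => ?_) i
      · simp only [Pi.add_apply, dir_zero, e0', ax_zero]; push_cast; ring
      · simp only [Pi.add_apply, dir_succ, e1, ax_succ]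
        split_ifs <;> ring
    rw [e3] at d2
    have t1 := dist_triangle (f (p.V (b + ax (2 * ((a + 1 : ℕ) : ℤ))))) (f (p.V (b1 + dir j0 1)))
      (f (p.V b1))
    have t2 := dist_triangle (f (p.V (b + ax (2 * ((a + 1 : ℕ) : ℤ))))) (f (p.V b1)) (f (p.V b))
    push_cast
    push_cast at t1 t2 d2
    nlinarith

theorem Xi_succ_eq (κ : ℕ) (a) : Xi p (κ + 1) a = Xi p κ a + ax (2 * (p.M : ℤ)) := by
  funext i
  refine Fin.cases ?_ (fun l => ?_) i
  · simp only [Pi.add_apply, Xi_zero, ax_zero]; push_cast; ring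
  · simp only [Pi.add_apply, Xi_succ, ax_succ]; ring

/-- the constant `D₀` -/
noncomputable def D0 (p : Par m) (f : E m → E m) : ℝ := 320 * p.ep ^ 2 * Ast f * p.w / p.c

/-- the deviation `ζ` -/
theorem Dat.zeta (h : Dat p f s) (κ : ℕ) (a) (hκ : κ + 1 < 5 * p.N * p.n)
    (hD : psi p f (Xi p (κ + 1) a) - psi p f (Xi p κ a) ≤ D0 p f) :
    ‖f (p.V (Xi p (κ + 1) a)) - f (p.V (Xi p κ a)) - (Ap p f * p.w) • uu f‖ ≤
      44 * Ast f * p.w * p.ep / p.c ∧
    |inner ℝ (f (p.V (Xi p (κ + 1) a)) - f (p.V (Xi p κ a)) - (Ap p f * p.w) • uu f) (uu f)|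
      ≤ D0 p f := by
  have hA := h.A_pos
  have hw := p.w_pos
  have he := p.hep0
  have hc := p.hc0
  have hc1 := p.hc1
  set v := f (p.V (Xi p (κ + 1) a)) - f (p.V (Xi p κ a)) with hv
  have hM : (1 : ℤ) ≤ p.M := by exact_mod_cast p.hM
  have hκ' : ((κ : ℤ) + 1 + 1) ≤ 5 * p.N * p.n := by exact_mod_cast hκ
  have ha : ((a.1 : ℕ) : ℤ) < p.M := by exact_mod_cast a.1.2
  have ha0 : (0 : ℤ) ≤ ((a.1 : ℕ) : ℤ) := by positivity
  -- length of `v`
  have hv1 : ‖v‖ ≤ Ap p f * p.w := by
    have := h.axis (Xi p κ a) (Xi_even _ _ _) (by rw [Xi_zero]; positivity) (by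
      intro l
      have h1 := Xi_abs p κ a l
      have h2 := H_le p
      have hB : p.B = 2 * p.M * p.n + 1 := rfl
      rw [hB]; linarith) p.M (by
      rw [Xi_zero, p.T_eq]
      have : 2 * (p.M : ℤ) * (κ + 1 + 1) ≤ 2 * p.M * (5 * p.N * p.n) :=
        mul_le_mul_of_nonneg_left hκ' (by positivity)
      nlinarith)
    rw [← Xi_succ_eq, dist_eq_norm] at this
    refine this.trans (le_of_eq ?_)
    rw [p.w_eq]; ring
  -- the component in the direction `u`
  have hv2 : psi p f (Xi p (κ + 1) a) - psi p f (Xi p κ a) = Ap p f * p.w - inner ℝ v (uu f) := by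
    unfold psi
    rw [hv, inner_sub_left, Xi_zero, Xi_zero, p.w_eq]
    push_cast
    ring
  rw [hv2] at hD
  have hin : inner ℝ v (uu f) ≤ Ap p f * p.w :=
    (le_abs_self _).trans ((h.inner_le v).trans hv1)
  have hAp := h.Ap_bd
  have hAp0 : 0 < Ap p f := by linarith [hAp.1]
  constructor
  · have hsq : ‖v - (Ap p f * p.w) • uu f‖ ^ 2 ≤ 2 * (Ap p f * p.w) * D0 p f := by
      rw [norm_sub_sq_real, norm_smul, h.norm_uu, real_inner_smul_right, mul_one,
        Real.norm_eq_abs, sq_abs]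
      have h3 : ‖v‖ ^ 2 ≤ (Ap p f * p.w) ^ 2 := by
        apply pow_le_pow_left₀ (norm_nonneg _) hv1
      have h4 : 0 ≤ Ap p f * p.w := by positivity
      nlinarith
    have hbd : 2 * (Ap p f * p.w) * D0 p f ≤ (44 * Ast f * p.w * p.ep / p.c) ^ 2 := by
      have h5 : Ap p f ≤ 3 * Ast f := by
        have : p.ep ^ 2 ≤ 1 := by nlinarith [p.hep1]
        nlinarith [hAp.2]
      unfold D0
      have h6 : 2 * (Ap p f * p.w) * (320 * p.ep ^ 2 * Ast f * p.w / p.c) ≤
          2 * (3 * Ast f * p.w) * (320 * p.ep ^ 2 * Ast f * p.w / p.c) := by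
        gcongr
      refine h6.trans ?_
      have h7 : 2 * (3 * Ast f * p.w) * (320 * p.ep ^ 2 * Ast f * p.w / p.c) =
          1920 * (Ast f * p.w * p.ep) ^ 2 / p.c := by ring
      have h8 : (44 * Ast f * p.w * p.ep / p.c) ^ 2 =
          1936 * (Ast f * p.w * p.ep) ^ 2 / (p.c * p.c) := by ring
      rw [h7, h8]
      have h9 : 0 ≤ (Ast f * p.w * p.ep) ^ 2 := by positivity
      have h10 : p.c * p.c ≤ p.c := by nlinarith
      calc 1920 * (Ast f * p.w * p.ep) ^ 2 / p.c ≤ 1936 * (Ast f * p.w * p.ep) ^ 2 / p.c := by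
            gcongr; norm_num
        _ ≤ _ := by gcongr
    have h11 : 0 ≤ 44 * Ast f * p.w * p.ep / p.c := by positivity
    exact abs_le_of_sq_le_sq' (hsq.trans hbd) h11 |>.2
  · rw [inner_sub_left, real_inner_smul_left, real_inner_self_eq_norm_sq, h.norm_uu]
    rw [abs_le]
    have : 0 ≤ D0 p f := by unfold D0; positivity
    constructor <;> nlinarith

end

end Pool.Agent.Helper724BK
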