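import Pool.Agent.Helper724_BK.Key2

/-!
# The pointwise part of the main lemma, second part
-/

set_option autoImplicit false
open MeasureTheory Metric Set Filter Topology
open scoped ENNReal NNReal

namespace Pool.Agent.Helper724BK

section
variable {m : ℕ} {p : Par m} {f : E m → E m} {s : ℝ}

/-- the small boxes -/
def qb (p : Par m) (b : Zv m) : Set (E m) :=
  {z | p.tau * b 0 ≤ z 0 ∧ z 0 < p.tau * b 0 + 2 * p.tau ∧
    ∀ i : Fin m, p.tau * p.ep * b i.succ ≤ z i.succ ∧
      z i.succ < p.tau * p.ep * b i.succ + 2 * p.tau * p.ep}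

theorem dist_qb (b : Zv m) (z : E m) (hz : z ∈ qb p b) : dist z (p.V b) ≤ p.dq := by
  obtain ⟨h1, h2, h3⟩ := hz
  have ht := p.tau_pos
  have he := p.hep0
  have he1 := p.hep1
  refine (dist_le_sum _ _).trans ?_
  rw [V_zero]
  have h4 : |z 0 - p.tau * b 0| ≤ 2 * p.tau := by
    rw [abs_le]; constructor <;> linarith
  have h5 : ∑ i : Fin m, |z i.succ - p.V b i.succ| ≤ ∑ i : Fin m, 2 * p.tau := by
    refine Finset.sum_le_sum fun i _ => ?_
    rw [V_succ, abs_le]
    have := h3 i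
    have h6 : p.tau * p.ep ≤ p.tau := by nlinarith
    constructor <;> linarith
  have h6 : ∑ i : Fin m, 2 * p.tau = m * (2 * p.tau) := by simp
  unfold Par.dq
  rw [h6] at h5
  linarith

/-- the lattice point with even coordinates below `x` -/
noncomputable def near (p : Par m) (x : E m) : Zv m :=
  Fin.cons (2 * ⌊x 0 / (2 * p.tau)⌋) (fun i => 2 * ⌊x i.succ / (2 * p.tau * p.ep)⌋)

theorem floor_bd (x t : ℝ) (ht : 0 < t) : t * ((2 * ⌊x / (2 * t)⌋ : ℤ) : ℝ) ≤ x ∧
    x < t * ((2 * ⌊x / (2 * t)⌋ : ℤ) : ℝ) + 2 * t := by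
  have h1 := Int.floor_le (x / (2 * t))
  have h2 := Int.lt_floor_add_one (x / (2 * t))
  have h3 : 0 < 2 * t := by linarith
  rw [le_div_iff₀ h3] at h1
  rw [div_lt_iff₀ h3] at h2
  push_cast
  constructor <;> linarith

theorem mem_qb_near (x : E m) : x ∈ qb p (near p x) := by
  have ht := p.tau_pos
  have he := p.hep0
  refine ⟨?_, ?_, ?_⟩
  · simp only [near, Fin.cons_zero]
    exact (floor_bd (x 0) p.tau ht).1
  · simp only [near, Fin.cons_zero]
    exact (floor_bd (x 0) p.tau ht).2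
  · intro i
    simp only [near, Fin.cons_succ]
    have := floor_bd (x i.succ) (p.tau * p.ep) (mul_pos ht he)
    rw [show 2 * (p.tau * p.ep) = 2 * p.tau * p.ep by ring] at this
    exact this

theorem near_even (x : E m) : Even (∑ i, near p x i) := by
  rw [Fin.sum_univ_succ]
  simp only [near, Fin.cons_zero, Fin.cons_succ]
  exact (even_two_mul _).add (Finset.even_sum _ fun i _ => even_two_mul _)

/-- position of the base points -/
theorem Xi_pos (κ : ℕ) (a) : κ * p.w ≤ p.tau * Xi p κ a 0 ∧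
    p.tau * Xi p κ a 0 + 2 * p.tau ≤ (κ + 1) * p.w := by
  have ht := p.tau_pos
  have ha : (((a.1 : ℕ) : ℤ) : ℝ) + 1 ≤ p.M := by
    have : ((a.1 : ℕ)) + 1 ≤ p.M := a.1.2
    exact_mod_cast this
  have ha0 : (0 : ℝ) ≤ (((a.1 : ℕ) : ℤ) : ℝ) := by positivity
  rw [Xi_zero, p.w_eq]
  push_cast at ha ha0 ⊢
  constructor <;> nlinarith

theorem Xi_tr (κ : ℕ) (a) (i : Fin m) : |p.tau * p.ep * Xi p κ a i.succ| ≤ p.h := by
  have ht := p.tau_pos
  have he := p.hep0
  have h1 := Xi_abs p κ a i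
  have h2 : |((Xi p κ a i.succ : ℤ) : ℝ)| ≤ 2 * p.H := by exact_mod_cast h1
  rw [abs_mul, abs_of_pos (mul_pos ht he)]
  unfold Par.h
  nlinarith [mul_pos ht he]

/-- bounds for a point near the base point, in a window -/
theorem near_pt (i : ℕ) (κ : ℕ) (h1 : (5 * i + 2) * p.n ≤ κ)
    (h2 : κ + 1 ≤ (5 * i + 3) * p.n) (a) (x : E m)
    (hx : dist x (p.V (Xi p κ a)) ≤ p.L * p.rho) :
    ((5 * i + 1) * p.W + 2 * p.tau ≤ x 0 ∧ x 0 ≤ (5 * i + 4) * p.W - 2 * p.tau) ∧
      ∀ l : Fin m, |x l.succ| ≤ p.h + p.L * p.rho := by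
  have hw := p.w_pos
  have hLr := p.Lr_le
  obtain ⟨hp1, hp2⟩ := Xi_pos (p := p) κ a
  have h1' : ((5 * i + 2) * p.n : ℝ) ≤ κ := by exact_mod_cast h1
  have h2' : (κ : ℝ) + 1 ≤ ((5 * i + 3) * p.n : ℝ) := by exact_mod_cast h2
  have hc0 := abs_le.1 ((abs_coord_le x (p.V (Xi p κ a)) 0).trans hx)
  rw [V_zero] at hc0
  have hW := p.W_eq
  have e1 : (5 * i + 2) * p.W ≤ κ * p.w := by
    rw [hW]; nlinarith
  have e2 : (κ + 1) * p.w ≤ (5 * i + 3) * p.W := by
    rw [hW]; nlinarith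
  have ht := p.tau_pos
  refine ⟨⟨by linarith, by linarith⟩, ?_⟩
  intro l
  have hc := (abs_coord_le x (p.V (Xi p κ a)) l.succ).trans hx
  rw [V_succ] at hc
  have h3 := Xi_tr (p := p) κ a l
  have := abs_sub_abs_le_abs_sub (x l.succ) (p.tau * p.ep * Xi p κ a l.succ)
  linarith

theorem K_of (i : ℕ) (hi : i < p.N) (x : E m)
    (h0 : (5 * i + 1) * p.W ≤ x 0 ∧ x 0 ≤ (5 * i + 4) * p.W)
    (h : ∀ l : Fin m, |x l.succ| ≤ p.h + p.L * p.rho + 2 * p.tau * p.ep) : x ∈ K m p.nu := by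
  have hW := p.W_pos
  have h1 := p.one_eq
  have hi' : (i : ℝ) + 1 ≤ p.N := by exact_mod_cast hi
  have hi0 : (0 : ℝ) ≤ i := by positivity
  refine ⟨?_, ?_, ?_⟩
  · have : 0 ≤ (5 * (i : ℝ) + 1) * p.W := by positivity
    linarith [h0.1]
  · have : (5 * (i : ℝ) + 4) * p.W ≤ 5 * p.N * p.W := by nlinarith
    linarith [h0.2]
  · intro l
    have h5 := p.h5'
    have h4 := p.hLr
    have ht := p.tau_pos
    have he := p.hep0
    have : 0 < 4 * p.tau * p.ep := by positivity
    linarith [h l]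

theorem Dat.s_le (h : Dat p f s) : s ≤ p.dq :=
  h.s1.trans (p.sbase_le.trans p.tau_le_dq)

theorem Dat.lip_dq (h : Dat p f s) (x y : E m) (hx : x ∈ K m p.nu) (hy : y ∈ K m p.nu)
    (hxy : dist x y ≤ p.dq) : dist (f x) (f y) ≤ p.L * p.dq := by
  refine (h.coarse x hx y hy).1.trans ?_
  apply mul_le_mul_of_nonneg_left _ p.L_pos.le
  exact max_le hxy h.s_le

theorem Dat.A_le (h : Dat p f s) : Ast f ≤ p.L := by
  have h0 : (0 : E m) ∈ K m p.nu := by
    refine ⟨by simp, by simp, fun i => ?_⟩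
    simp; exact p.nu_pos.le
  have h1 : e0 m ∈ K m p.nu := by
    refine ⟨by simp, by simp, fun i => ?_⟩
    simp; exact p.nu_pos.le
  have h2 := (h.coarse _ h1 _ h0).1
  have h3 : dist (e0 m) 0 = 1 := by
    rw [dist_zero_right]; unfold e0; simp
  have h4 : s ≤ 1 := by
    have := h.s1
    have h5 := p.sbase_le
    have h6 := p.tau_le_W
    have h7 := p.W_le
    have := p.tau_pos
    linarith
  rw [h3, max_eq_left h4, mul_one] at h2
  exact h2

/-- **The pointwise inclusion.** -/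
theorem Dat.incl (h : Dat p f s) (i : ℕ) (hi : i < p.N)
    (hwin : ∀ b b' : Zv m, Mono.InWin p i b → Mono.InWin p i b' →
      psi p f b - psi p f b' ≤ 2 * p.ep ^ 2 * Ast f / p.N)
    (κ : ℕ) (h1 : (5 * i + 2) * p.n ≤ κ) (h2 : κ + 1 < (5 * i + 3) * p.n) (a)
    (hD : psi p f (Xi p (κ + 1) a) - psi p f (Xi p κ a) ≤ D0 p f)
    (z : E m) (hz : z ∈ qb p (Xi p (κ + 1) a)) (hzK : z ∈ K m p.nu) :
    ∃ x ∈ K m p.nu, f x = f z - (Ap p f * p.w) • uu f ∧
      κ * p.w - p.c / 128 * p.w ≤ x 0 ∧ x 0 ≤ (κ + 1) * p.w + p.c / 128 * p.w ∧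
      ∀ l : Fin m, |x l.succ| ≤ p.h + p.L * p.rho := by
  have hA := h.A_pos
  have hAL := h.A_le
  have hw := p.w_pos
  have he := p.hep0
  have hc := p.hc0
  have hc1 := p.hc1
  have hL := p.L_pos
  have hL1 := p.hL
  have ht := p.tau_pos
  have hrho := p.rho_pos
  have hdq := p.dq_pos
  have hN := p.N_pos
  have hi' : (i : ℝ) + 1 ≤ p.N := by exact_mod_cast hi
  have hκN : κ + 1 < 5 * p.N * p.n := by
    have : (5 * i + 3) * p.n ≤ 5 * p.N * p.n := Nat.mul_le_mul_right _ (by omega)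
    omega
  obtain ⟨hz1, hz2⟩ := h.zeta κ a hκN hD
  set b := Xi p κ a with hb
  set b' := Xi p (κ + 1) a with hb'
  set ζ := f (p.V b') - f (p.V b) - (Ap p f * p.w) • uu f with hζ
  -- the points are in `K`
  have hKb' : p.V b' ∈ K m p.nu := by
    have h3 := near_pt i (κ + 1) (by omega) (by omega) a (p.V b') (by
      rw [dist_self]; positivity)
    exact K_of i hi _ ⟨by linarith [h3.1.1], by linarith [h3.1.2]⟩ fun l => by
      have := h3.2 l
      have : 0 < 2 * p.tau * p.ep := by positivity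
      linarith
  have hball : closedBall (p.V b) (p.L * p.rho) ⊆ K m p.nu := by
    intro x hx
    rw [mem_closedBall] at hx
    have h3 := near_pt i κ h1 (by omega) a x hx
    exact K_of i hi _ ⟨by linarith [h3.1.1], by linarith [h3.1.2]⟩ fun l => by
      have := h3.2 l
      have : 0 < 2 * p.tau * p.ep := by positivity
      linarith
  have hKb : p.V b ∈ K m p.nu := hball (mem_closedBall_self (by positivity))
  have hdz : dist (f z) (f (p.V b')) ≤ p.L * p.dq := h.lip_dq _ _ hzK hKb' (dist_qb _ _ hz)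
  -- `L dq ≤ rho / 46`
  have hdqr : 46 * (p.L * p.dq) ≤ p.rho := by
    have h3 := p.dq_le_rho
    unfold Par.rho
    have h4 : p.w * p.ep / p.L ≤ p.w * p.ep := div_le_self (by positivity) hL1
    have h5 : p.w * p.ep ≤ p.L * p.w * p.ep / p.c := by
      rw [le_div_iff₀ hc]
      have : p.w * p.ep * p.c ≤ p.w * p.ep * 1 := by gcongr
      have : p.w * p.ep * 1 ≤ p.w * p.ep * p.L := by gcongr
      nlinarith
    have h6 : 46 * p.L * p.w * p.ep / p.c = 46 * (p.L * p.w * p.ep / p.c) := by ring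
    rw [h6]; linarith
  have hζr : 46 * (44 * Ast f * p.w * p.ep / p.c) ≤ 44 * p.rho := by
    unfold Par.rho
    have : 46 * (44 * Ast f * p.w * p.ep / p.c) = 44 * (46 * Ast f * p.w * p.ep / p.c) := by ring
    rw [this]; gcongr
  -- the point `y`
  set y := f z - (Ap p f * p.w) • uu f with hy
  have hyeq : y - f (p.V b) = (f z - f (p.V b')) + ζ := by
    rw [hy, hζ]; abel
  have hyd : dist y (f (p.V b)) ≤ 45 / 46 * p.rho := by
    rw [dist_eq_norm, hyeq]
    refine (norm_add_le _ _).trans ?_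
    rw [← dist_eq_norm]
    linarith
  have hrs : s < p.rho := by
    have := h.s_le
    have : p.dq ≤ p.L * p.dq := by nlinarith
    linarith
  obtain ⟨x, hx, hfx⟩ := ball_lemma f (p.V b) (p.L * p.rho) (45 / 46 * p.rho) (by positivity)
    (by positivity) (h.cont.mono hball) (h.inj.mono hball) (by
      intro q hq
      have hqK : q ∈ K m p.nu := hball (sphere_subset_closedBall hq)
      have h3 := (h.coarse q hqK _ hKb).2
      rw [mem_sphere.1 hq] at h3
      have h4 := le_of_mul_le_mul_left h3 hL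
      rcases le_max_iff.1 h4 with h5 | h5
      · linarith
      · linarith) (show y ∈ closedBall (f (p.V b)) (45 / 46 * p.rho) from hyd)
  have hxball : dist x (p.V b) ≤ p.L * p.rho := (mem_ball.1 hx).le
  have hxK : x ∈ K m p.nu := hball (mem_closedBall.2 hxball)
  have hnp := near_pt i κ h1 (by omega) a x hxball
  refine ⟨x, hxK, hfx, ?_⟩
  -- the component of `f x - f (V b)` in the direction `u`
  have hFx : |inner ℝ (f x - f (p.V b)) (uu f)| ≤ p.L * p.dq + D0 p f := by
    rw [hfx, hyeq, inner_add_left]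
    refine (abs_add_le _ _).trans ?_
    have := h.inner_le (f z - f (p.V b'))
    rw [← dist_eq_norm] at this
    linarith
  -- the lattice point near `x`
  set b2 := near p x with hb2
  have hxq := mem_qb_near (p := p) x
  obtain ⟨q1, q2, q3⟩ := hxq
  rw [← hb2] at q1 q2 q3
  have hdb2 : dist x (p.V b2) ≤ p.dq := dist_qb _ _ (mem_qb_near x)
  have hTr : ∀ l : Fin m, |p.tau * p.ep * b2 l.succ| ≤ p.h + p.L * p.rho + 2 * p.tau * p.ep := by
    intro l
    have h3 := q3 l
    have h4 := abs_le.1 (hnp.2 l)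
    have : 0 < 2 * p.tau * p.ep := by positivity
    rw [abs_le]
    constructor <;> linarith
  have hKb2 : p.V b2 ∈ K m p.nu := by
    apply K_of i hi
    · rw [V_zero]
      constructor
      · linarith [hnp.1.1]
      · linarith [hnp.1.2]
    · intro l
      rw [V_succ]
      exact hTr l
  have hWt := p.W_eq'
  have hwin2 : Mono.InWin p i b2 := by
    refine ⟨near_even _, ?_, ?_, ?_⟩
    · have : ((5 * i + 1) * (2 * (p.M : ℤ) * p.n) : ℝ) ≤ b2 0 := by
        have h3 : (5 * i + 1) * p.W ≤ p.tau * b2 0 := by linarith [hnp.1.1]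
        rw [hWt] at h3
        have h4 : p.tau * ((5 * i + 1) * (2 * (p.M : ℤ) * p.n)) ≤ p.tau * b2 0 := by
          push_cast; linarith
        exact le_of_mul_le_mul_left h4 ht
      exact_mod_cast this
    · have : (b2 0 : ℝ) ≤ ((5 * i + 4) * (2 * (p.M : ℤ) * p.n) : ℝ) := by
        have h3 : p.tau * b2 0 ≤ (5 * i + 4) * p.W := by linarith [hnp.1.2]
        rw [hWt] at h3
        have h4 : p.tau * b2 0 ≤ p.tau * ((5 * i + 4) * (2 * (p.M : ℤ) * p.n)) := by
          push_cast; linarith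
        exact le_of_mul_le_mul_left h4 ht
      exact_mod_cast this
    · have h3 : ∑ l : Fin m, |p.tau * p.ep * b2 l.succ| ≤ p.ep * p.W := by
        refine (Finset.sum_le_sum fun l _ => hTr l).trans ?_
        rw [Finset.sum_const, Finset.card_univ, Fintype.card_fin, nsmul_eq_mul]
        exact p.h4'
      have h4 : ∑ l : Fin m, |p.tau * p.ep * b2 l.succ| =
          (p.tau * p.ep) * ((∑ l : Fin m, |b2 l.succ| : ℤ) : ℝ) := by
        push_cast
        rw [Finset.mul_sum]
        refine Finset.sum_congr rfl fun l _ => ?_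
        rw [abs_mul, abs_of_pos (mul_pos ht he)]
      rw [h4, hWt] at h3
      have h5 : (p.tau * p.ep) * ((∑ l : Fin m, |b2 l.succ| : ℤ) : ℝ) ≤
          (p.tau * p.ep) * (2 * (p.M : ℤ) * p.n) := by
        push_cast at h3 ⊢; linarith
      have h6 := le_of_mul_le_mul_left h5 (mul_pos ht he)
      exact_mod_cast h6
  have hwinb : Mono.InWin p i b := by
    obtain ⟨j, hj⟩ := Nat.exists_eq_add_of_le h1
    have : b = Xi p ((5 * i + 2) * p.n + j) a := by rw [hb, hj]
    rw [this]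
    apply Xi_win
    have : κ + 1 < (5 * i + 2) * p.n + p.n := by nlinarith
    omega
  have g1 := hwin _ _ hwin2 hwinb
  have g2 := hwin _ _ hwinb hwin2
  have hAp := h.Ap_bd.1
  have hAp0 : 0 < Ap p f := by linarith
  -- comparison of the components in the direction `u`
  have hF2 : |inner ℝ (f (p.V b2)) (uu f) - inner ℝ (f (p.V b)) (uu f)| ≤
      2 * (p.L * p.dq) + D0 p f := by
    have h3 : inner ℝ (f (p.V b2)) (uu f) - inner ℝ (f (p.V b)) (uu f) =
        inner ℝ (f x - f (p.V b)) (uu f) - inner ℝ (f x - f (p.V b2)) (uu f) := by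
      rw [inner_sub_left, inner_sub_left]; ring
    rw [h3]
    have h4 := h.inner_le (f x - f (p.V b2))
    rw [← dist_eq_norm] at h4
    have h5 := h.lip_dq _ _ hxK hKb2 hdb2
    have h6 := abs_sub (inner ℝ (f x - f (p.V b)) (uu f)) (inner ℝ (f x - f (p.V b2)) (uu f))
    linarith
  have hEq : Ap p f * (p.tau * b2 0 - p.tau * b 0) =
      (psi p f b2 - psi p f b) + (inner ℝ (f (p.V b2)) (uu f) - inner ℝ (f (p.V b)) (uu f)) := by
    unfold psi; ring
  have hNW : 2 * p.ep ^ 2 * Ast f / p.N = 10 * p.ep ^ 2 * Ast f * p.W := by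
    have h3 := p.one_eq
    rw [div_eq_iff hN.ne']
    linear_combination (-2 * p.ep ^ 2 * Ast f) * h3
  rw [hNW] at g1 g2
  have hfin : Ap p f * |p.tau * b2 0 - p.tau * b 0| ≤
      2 * (p.L * p.dq) + D0 p f + 10 * p.ep ^ 2 * Ast f * p.W := by
    have e1 : Ap p f * |p.tau * b2 0 - p.tau * b 0| = |Ap p f * (p.tau * b2 0 - p.tau * b 0)| := by
      rw [abs_mul, abs_of_pos hAp0]
    rw [e1, hEq]
    refine (abs_add_le _ _).trans ?_
    have : |psi p f b2 - psi p f b| ≤ 10 * p.ep ^ 2 * Ast f * p.W := by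
      rw [abs_le]; constructor <;> linarith
    linarith
  have hfin2 : |p.tau * b2 0 - p.tau * b 0| ≤
      2 * p.L ^ 2 * p.dq + 320 * p.ep ^ 2 * p.w / p.c + 10 * p.ep ^ 2 * p.W := by
    have h3 : Ast f * |p.tau * b2 0 - p.tau * b 0| ≤
        Ast f * (2 * p.L ^ 2 * p.dq + 320 * p.ep ^ 2 * p.w / p.c + 10 * p.ep ^ 2 * p.W) := by
      refine (mul_le_mul_of_nonneg_right hAp (abs_nonneg _)).trans (hfin.trans ?_)
      have h4 : 1 ≤ Ast f * p.L := by
        have := h.low
        rw [div_le_iff₀ hL] at this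
        exact this
      have h5 : 2 * (p.L * p.dq) ≤ Ast f * (2 * p.L ^ 2 * p.dq) := by
        have : 2 * (p.L * p.dq) * 1 ≤ 2 * (p.L * p.dq) * (Ast f * p.L) := by gcongr
        nlinarith
      have h6 : D0 p f = Ast f * (320 * p.ep ^ 2 * p.w / p.c) := by unfold D0; ring
      rw [h6]; nlinarith
    exact le_of_mul_le_mul_left h3 hA
  have h3' := p.h3'
  obtain ⟨hp1, hp2⟩ := Xi_pos (p := p) κ a
  rw [← hb] at hp1 hp2
  have hab := abs_le.1 hfin2
  have h2t : 2 * p.tau ≤ p.dq := by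
    unfold Par.dq; nlinarith [p.m_pos]
  refine ⟨by linarith, by linarith, hnp.2⟩

end

end Pool.Agent.Helper724BK
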