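import Pool.Agent.Helper724_BK.Key3
import Pool.Agent.Helper724_BK.BK4

/-!
# The main lemma
-/

set_option autoImplicit false
open MeasureTheory Metric Set Filter Topology
open scoped ENNReal NNReal

namespace Pool.Agent.Helper724BK

section
variable {m : ℕ} {p : Par m}

theorem meas_qb (b : Zv m) : MeasurableSet (qb p b) := by
  have hc : ∀ i : Fin (m + 1), Measurable fun x : E m => x i := fun i =>
    (EuclideanSpace.proj (𝕜 := ℝ) i).continuous.measurable
  have : qb p b = {z : E m | p.tau * b 0 ≤ z 0} ∩ {z | z 0 < p.tau * b 0 + 2 * p.tau} ∩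
      ⋂ i : Fin m, ({z : E m | p.tau * p.ep * b i.succ ≤ z i.succ} ∩
        {z | z i.succ < p.tau * p.ep * b i.succ + 2 * p.tau * p.ep}) := by
    ext z; simp [qb, and_assoc]
  rw [this]
  refine ((measurableSet_le measurable_const (hc 0)).inter
    (measurableSet_lt (hc 0) measurable_const)).inter (MeasurableSet.iInter fun i => ?_)
  exact (measurableSet_le measurable_const (hc _)).inter
    (measurableSet_lt (hc _) measurable_const)

theorem vol_qb (b : Zv m) : volume (qb p b) = volume (qb p 0) := by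
  have : qb p b = (fun x => x + (-p.V b)) ⁻¹' (qb p 0) := by
    ext z
    simp only [qb, mem_setOf_eq, mem_preimage, PiLp.add_apply, PiLp.neg_apply, V_zero, V_succ,
      Pi.zero_apply, Int.cast_zero, mul_zero, zero_add]
    constructor
    · rintro ⟨h1, h2, h3⟩
      exact ⟨by linarith, by linarith, fun i => ⟨by linarith [(h3 i).1], by linarith [(h3 i).2]⟩⟩
    · rintro ⟨h1, h2, h3⟩
      exact ⟨by linarith, by linarith, fun i => ⟨by linarith [(h3 i).1], by linarith [(h3 i).2]⟩⟩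
  rw [this, measure_preimage_add_right]

/-- the cell is the union of the small boxes -/
theorem cell_eq (κ : ℕ) : p.cell κ = ⋃ a, qb p (Xi p κ a) := by
  have ht := p.tau_pos
  have he := p.hep0
  have hte := mul_pos ht he
  ext z
  simp only [mem_iUnion]
  constructor
  · rintro ⟨h1, h2, h3⟩
    have h1' : (κ : ℝ) * p.w ≤ z 0 := h1
    -- the indices
    have hz0 : 0 ≤ (z 0 - κ * p.w) / (2 * p.tau) := div_nonneg (by linarith) (by linarith)
    have hz1 : (z 0 - κ * p.w) / (2 * p.tau) < p.M := by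
      rw [div_lt_iff₀ (by linarith)]
      have := p.w_eq
      linarith
    have ha : ⌊(z 0 - κ * p.w) / (2 * p.tau)⌋₊ < p.M := (Nat.floor_lt hz0).2 hz1
    have hg0 : ∀ l : Fin m, 0 ≤ (z l.succ + p.h) / (2 * p.tau * p.ep) := fun l =>
      div_nonneg (by linarith [(h3 l).1]) (by nlinarith)
    have hg1 : ∀ l : Fin m, (z l.succ + p.h) / (2 * p.tau * p.ep) < ((2 * p.H : ℕ) : ℝ) := by
      intro l
      rw [div_lt_iff₀ (by nlinarith)]
      have : p.h = 2 * p.H * p.tau * p.ep := rfl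
      push_cast
      linarith [(h3 l).2]
    have hg : ∀ l : Fin m, ⌊(z l.succ + p.h) / (2 * p.tau * p.ep)⌋₊ < 2 * p.H := fun l =>
      (Nat.floor_lt (hg0 l)).2 (hg1 l)
    refine ⟨(⟨_, ha⟩, fun l => ⟨_, hg l⟩), ?_, ?_, ?_⟩
    · rw [Xi_zero]
      have h4 := Nat.floor_le hz0
      rw [le_div_iff₀ (by linarith)] at h4
      have := p.w_eq
      push_cast
      rw [this] at h4 ⊢
      rw [this] at h1'
      nlinarith
    · rw [Xi_zero]
      have h4 := Nat.lt_floor_add_one ((z 0 - κ * p.w) / (2 * p.tau))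
      rw [div_lt_iff₀ (by linarith)] at h4
      have := p.w_eq
      push_cast
      rw [this] at h4 ⊢
      nlinarith
    · intro l
      rw [Xi_succ]
      have h4 := Nat.floor_le (hg0 l)
      have h5 := Nat.lt_floor_add_one ((z l.succ + p.h) / (2 * p.tau * p.ep))
      rw [le_div_iff₀ (by nlinarith)] at h4
      rw [div_lt_iff₀ (by nlinarith)] at h5
      have h6 : p.h = 2 * p.H * p.tau * p.ep := rfl
      push_cast
      rw [h6] at h4 h5 ⊢
      constructor <;> nlinarith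
  · rintro ⟨a, h1, h2, h3⟩
    obtain ⟨hp1, hp2⟩ := Xi_pos (p := p) κ a
    refine ⟨by linarith, by linarith, ?_⟩
    intro l
    have h4 := h3 l
    rw [Xi_succ] at h4
    have h6 : p.h = 2 * p.H * p.tau * p.ep := rfl
    have h7 : (((a.2 l : ℕ) : ℤ) : ℝ) + 1 ≤ 2 * p.H := by
      have : ((a.2 l : ℕ)) + 1 ≤ 2 * p.H := (a.2 l).2
      exact_mod_cast this
    have h8 : (0 : ℝ) ≤ (((a.2 l : ℕ) : ℤ) : ℝ) := by positivity
    push_cast at h4 h7 h8
    rw [h6]
    constructor <;> nlinarith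

theorem qb_disj (κ : ℕ) : Pairwise (Function.onFun Disjoint fun a => qb p (Xi p κ a)) := by
  intro a a' haa'
  rw [Function.onFun, Set.disjoint_left]
  rintro z ⟨h1, h2, h3⟩ ⟨h1', h2', h3'⟩
  apply haa'
  have ht := p.tau_pos
  have he := p.hep0
  have hte := mul_pos ht he
  rw [Xi_zero] at h1 h2 h1' h2'
  have e1 : a.1 = a'.1 := by
    apply Fin.ext
    have k1 : p.tau * (((a.1 : ℕ) : ℝ) - ((a'.1 : ℕ) : ℝ)) < p.tau * 1 := by
      push_cast at h1 h2 h1' h2'; nlinarith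
    have k2 : p.tau * (((a'.1 : ℕ) : ℝ) - ((a.1 : ℕ) : ℝ)) < p.tau * 1 := by
      push_cast at h1 h2 h1' h2'; nlinarith
    have k3 := lt_of_mul_lt_mul_left k1 ht.le
    have k4 := lt_of_mul_lt_mul_left k2 ht.le
    have k5 : ((a.1 : ℕ) : ℝ) < ((a'.1 : ℕ) : ℝ) + 1 := by linarith
    have k6 : ((a'.1 : ℕ) : ℝ) < ((a.1 : ℕ) : ℝ) + 1 := by linarith
    have k7 : (a.1 : ℕ) < (a'.1 : ℕ) + 1 := by exact_mod_cast k5
    have k8 : (a'.1 : ℕ) < (a.1 : ℕ) + 1 := by exact_mod_cast k6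
    omega
  have e2 : a.2 = a'.2 := by
    funext l
    apply Fin.ext
    obtain ⟨h4, h5⟩ := h3 l
    obtain ⟨h4', h5'⟩ := h3' l
    rw [Xi_succ] at h4 h5 h4' h5'
    have k1 : p.tau * p.ep * (((a.2 l : ℕ) : ℝ) - ((a'.2 l : ℕ) : ℝ)) < p.tau * p.ep * 1 := by
      push_cast at h4 h5 h4' h5'; nlinarith
    have k2 : p.tau * p.ep * (((a'.2 l : ℕ) : ℝ) - ((a.2 l : ℕ) : ℝ)) < p.tau * p.ep * 1 := by
      push_cast at h4 h5 h4' h5'; nlinarith
    have k3 := lt_of_mul_lt_mul_left k1 hte.le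
    have k4 := lt_of_mul_lt_mul_left k2 hte.le
    have k5 : ((a.2 l : ℕ) : ℝ) < ((a'.2 l : ℕ) : ℝ) + 1 := by linarith
    have k6 : ((a'.2 l : ℕ) : ℝ) < ((a.2 l : ℕ) : ℝ) + 1 := by linarith
    have k7 : (a.2 l : ℕ) < (a'.2 l : ℕ) + 1 := by exact_mod_cast k5
    have k8 : (a'.2 l : ℕ) < (a.2 l : ℕ) + 1 := by exact_mod_cast k6
    omega
  exact Prod.ext e1 e2

/-- volume of a cell -/
noncomputable def vc (p : Par m) : ℝ := p.w * (2 * p.h) ^ m

theorem vc_pos : 0 < vc p := by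
  have := p.w_pos; have := p.h_pos
  unfold vc; positivity

theorem vol_cell (κ : ℕ) : volume (p.cell κ) = ENNReal.ofReal (vc p) :=
  vol_box m _ _ _ p.w_pos.le p.h_pos.le

/-- number of small boxes -/
noncomputable def card (p : Par m) : ℕ := Fintype.card (Fin p.M × (Fin m → Fin (2 * p.H)))

theorem card_pos : 0 < card p := by
  have h1 := p.hM; have h2 := p.hH
  unfold card
  haveI : Nonempty (Fin p.M) := ⟨⟨0, h1⟩⟩
  haveI : Nonempty (Fin (2 * p.H)) := ⟨⟨0, by omega⟩⟩
  exact Fintype.card_pos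

theorem vol_qb_eq (b : Zv m) : volume (qb p b) = ENNReal.ofReal (vc p / card p) := by
  have h1 := vol_cell (p := p) 0
  rw [cell_eq, measure_iUnion (qb_disj 0) fun a => meas_qb _] at h1
  simp only [vol_qb] at h1
  rw [tsum_fintype, Finset.sum_const, Finset.card_univ, nsmul_eq_mul] at h1
  rw [vol_qb]
  have hc : (0 : ℝ) < card p := by exact_mod_cast card_pos
  have h2 : ENNReal.ofReal (vc p / card p) = ENNReal.ofReal (vc p) / ENNReal.ofReal (card p) :=
    ENNReal.ofReal_div_of_pos hc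
  rw [h2, ← h1, ENNReal.ofReal_natCast]
  have h3 : ((card p : ℕ) : ℝ≥0∞) ≠ 0 := by
    simp only [ne_eq, Nat.cast_eq_zero]; exact card_pos.ne'
  have h4 : ((card p : ℕ) : ℝ≥0∞) ≠ ∞ := ENNReal.natCast_ne_top _
  change volume (qb p 0) = ((card p : ℕ) : ℝ≥0∞) * volume (qb p 0) / ((card p : ℕ) : ℝ≥0∞)
  rw [mul_comm, ENNReal.mul_div_cancel_right h3 h4]

end

end Pool.Agent.Helper724BK
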