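import Pool.Agent.Helper724_BK.Key4

/-!
# The main lemma, conclusion
-/

set_option autoImplicit false
open MeasureTheory Metric Set Filter Topology
open scoped ENNReal NNReal

namespace Pool.Agent.Helper724BK

section
variable {m : ℕ} {p : Par m} {f : E m → E m} {s : ℝ}

theorem pow_bd (m : ℕ) (hm : 1 ≤ m) (x : ℝ) (hx : 0 ≤ x) (hx1 : x ≤ 1 / 2) :
    (1 + x / m) ^ m ≤ 1 + 2 * x := by
  have hm' : (0 : ℝ) < m := by exact_mod_cast hm
  have h1 : (1 + x / m) ^ m ≤ Real.exp x := by
    calc (1 + x / m) ^ m ≤ (Real.exp (x / m)) ^ m := by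
          apply pow_le_pow_left₀ (by positivity)
          have := Real.add_one_le_exp (x / m)
          linarith
      _ = Real.exp x := by
          rw [← Real.exp_nat_mul]
          congr 1
          field_simp
  have h2 : Real.exp x ≤ 1 / (1 - x) :=
    Real.exp_bound_div_one_sub_of_interval hx (by linarith)
  have h3 : 1 / (1 - x) ≤ 1 + 2 * x := by
    rw [div_le_iff₀ (by linarith)]
    nlinarith
  linarith

/-- half size of the enlarged cell -/
noncomputable def hh (p : Par m) : ℝ := p.h + p.L * p.rho + 2 * p.tau * p.ep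

theorem hh_pos : 0 < hh p := by
  have := p.h_pos; have := p.L_pos; have := p.rho_pos; have := p.tau_pos; have := p.hep0
  unfold hh; positivity

theorem hh_le : hh p ≤ p.h * (1 + p.c / 64 / m) := by
  have hm := p.m_one
  have hm0 := p.m_pos
  have h1 := p.h1'
  have h3 := p.h3'
  have hc := p.hc0
  have hc1 := p.hc1
  have hL := p.hL
  have hL0 := p.L_pos
  have hw := p.w_pos
  have he := p.hep0
  have ht := p.tau_pos
  have hW := p.W_pos
  -- `2 tau ep ≤ ep c w / 128`
  have h4 : p.dq ≤ p.c / 128 * p.w := by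
    have : 0 ≤ 10 * p.ep ^ 2 * p.W := by positivity
    have : 0 ≤ 320 * p.ep ^ 2 * p.w / p.c := by positivity
    have : 0 ≤ 2 * p.L ^ 2 * p.dq := by have := p.dq_pos; positivity
    linarith
  have h5 : 2 * p.tau ≤ p.c / 128 * p.w := by
    have : 2 * p.tau ≤ p.dq := by unfold Par.dq; nlinarith
    linarith
  -- `w ep ≤ L rho`
  have h6 : p.w * p.ep ≤ p.L * p.rho := by
    unfold Par.rho
    have : p.w * p.ep * p.c ≤ p.L * (46 * p.L * p.w * p.ep) := by
      have h7 : p.w * p.ep * p.c ≤ p.w * p.ep * 1 := by gcongr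
      have h8 : 1 ≤ p.L * p.L := by nlinarith
      have h9 : p.w * p.ep * 1 ≤ p.w * p.ep * (p.L * p.L) := by gcongr
      nlinarith [mul_pos hw he]
    rw [← mul_div_assoc, le_div_iff₀ hc]
    exact this
  have h10 : 2 * p.tau * p.ep ≤ p.c / 128 * (p.L * p.rho) := by
    have : 2 * p.tau * p.ep ≤ p.c / 128 * p.w * p.ep := by gcongr
    nlinarith
  have h11 : 2 * p.tau * p.ep ≤ p.L * p.rho := by
    have hr : 0 < p.L * p.rho := mul_pos hL0 p.rho_pos
    nlinarith
  have h12 : 2 * (p.L * p.rho) ≤ p.h * (p.c / 64 / m) := by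
    rw [← mul_div_assoc, le_div_iff₀ hm0]
    nlinarith
  unfold hh
  nlinarith

/-- the enlarged cell -/
def cellp (p : Par m) (κ : ℕ) : Set (E m) :=
  box m (κ * p.w - p.c / 64 * p.w) (p.w * (1 + p.c / 32)) (hh p)

theorem vol_cellp (κ : ℕ) : volume (cellp p κ) ≤ ENNReal.ofReal ((1 + p.c / 32) ^ 2 * vc p) := by
  have hw := p.w_pos
  have hc := p.hc0
  have hc1 := p.hc1
  have hh0 := hh_pos (p := p)
  unfold cellp
  rw [vol_box m _ _ _ (by positivity) hh0.le]
  apply ENNReal.ofReal_le_ofReal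
  have h1 : (2 * hh p) ^ m ≤ (2 * p.h) ^ m * (1 + p.c / 64 / m) ^ m := by
    rw [← mul_pow]
    apply pow_le_pow_left₀ (by positivity)
    have := hh_le (p := p)
    nlinarith
  have h2 := pow_bd m p.hm (p.c / 64) (by positivity) (by linarith)
  have h3 : 0 ≤ (2 * p.h) ^ m := by have := p.h_pos; positivity
  unfold vc
  calc p.w * (1 + p.c / 32) * (2 * hh p) ^ m
      ≤ p.w * (1 + p.c / 32) * ((2 * p.h) ^ m * (1 + p.c / 64 / m) ^ m) := by gcongr
    _ ≤ p.w * (1 + p.c / 32) * ((2 * p.h) ^ m * (1 + 2 * (p.c / 64))) := by gcongr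
    _ = _ := by ring

theorem cell_sub_K (κ : ℕ) (hκ : κ + 1 ≤ 5 * p.N * p.n) : p.cell κ ⊆ K m p.nu := by
  rintro z ⟨h1, h2, h3⟩
  have hw := p.w_pos
  have h4 := p.one_eq
  have h5 := p.W_eq
  have h6 : ((κ : ℝ) + 1) * p.w ≤ 1 := by
    have : ((κ : ℝ) + 1) ≤ 5 * p.N * p.n := by exact_mod_cast hκ
    calc ((κ : ℝ) + 1) * p.w ≤ 5 * p.N * p.n * p.w := by gcongr
      _ = 1 := by rw [← h4, h5]; ring
  have h7 := p.hLr
  have h8 := p.h5'
  have hL := p.L_pos
  have hr := p.rho_pos
  have ht := p.tau_pos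
  have he := p.hep0
  have : 0 < p.L * p.rho := by positivity
  have : 0 < p.tau * p.ep := by positivity
  refine ⟨?_, by linarith, ?_⟩
  · have : 0 ≤ (κ : ℝ) * p.w := by positivity
    linarith
  · intro i
    have := h3 i
    rw [abs_le]
    constructor <;> linarith

theorem cellp_sub_K (κ : ℕ) (h1 : 1 ≤ κ) (hκ : κ + 2 ≤ 5 * p.N * p.n) : cellp p κ ⊆ K m p.nu := by
  rintro z ⟨h1', h2, h3⟩
  have hw := p.w_pos
  have h4 := p.one_eq
  have h5 := p.W_eq
  have hc := p.hc0
  have hc1 := p.hc1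
  have h6 : ((κ : ℝ) + 2) * p.w ≤ 1 := by
    have : ((κ : ℝ) + 2) ≤ 5 * p.N * p.n := by exact_mod_cast hκ
    calc ((κ : ℝ) + 2) * p.w ≤ 5 * p.N * p.n * p.w := by gcongr
      _ = 1 := by rw [← h4, h5]; ring
  have h7 := p.hLr
  have h8 := p.h5'
  have ht := p.tau_pos
  have he := p.hep0
  have : 0 < p.tau * p.ep := by positivity
  have h1r : (1 : ℝ) ≤ κ := by exact_mod_cast h1
  refine ⟨?_, ?_, ?_⟩
  · have : p.c / 64 * p.w ≤ 1 * p.w := by gcongr; linarith
    have : 1 * p.w ≤ κ * p.w := by gcongr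
    linarith
  · have : p.c / 64 * p.w ≤ 1 * p.w := by gcongr; linarith
    nlinarith
  · intro i
    have := h3 i
    unfold hh at this
    rw [abs_le]
    constructor <;> linarith

theorem cell_sub_cellp (κ : ℕ) : p.cell κ ⊆ cellp p κ := by
  rintro z ⟨h1, h2, h3⟩
  have hw := p.w_pos
  have hc := p.hc0
  have h8 : p.h ≤ hh p := by
    unfold hh
    have := p.L_pos; have := p.rho_pos; have := p.tau_pos; have := p.hep0
    have : 0 < p.L * p.rho := by positivity
    have : 0 < 2 * p.tau * p.ep := by positivity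
    linarith
  have : 0 < p.c / 64 * p.w := by positivity
  refine ⟨by linarith, by nlinarith, fun i => ?_⟩
  have := h3 i
  constructor <;> linarith

/-- **Main lemma.** -/
theorem key (h : Dat p f s) (ρ : E m → ℝ) (hρ : ∀ z ∈ K m p.nu, ρ z ≤ 1 + p.c)
    (hvol : ∀ S ⊆ K m p.nu, MeasurableSet S →
      volume (f '' S) = ∫⁻ x in S, ENNReal.ofReal (ρ x))
    (hev : ∀ κ : ℕ, Even κ → κ + 1 < 5 * p.N * p.n →
      ∫⁻ x in p.cell κ, ENNReal.ofReal (ρ x) ≤ ENNReal.ofReal ((1 + p.c / 16) * vc p))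
    (hod : ∀ κ : ℕ, Odd κ → κ < 5 * p.N * p.n → ∀ U ⊆ p.cell κ, MeasurableSet U →
      ENNReal.ofReal (1 + p.c) * volume U ≤
        (∫⁻ x in U, ENNReal.ofReal (ρ x)) + ENNReal.ofReal (p.c / 16 * vc p)) : False := by
  classical
  obtain ⟨i, hi, hwin, κ, hκe, hκ1, hκ2, hsum⟩ := exists_cell h.mono
  have hA := h.A_pos
  have hw := p.w_pos
  have he := p.hep0
  have hc := p.hc0
  have hc1 := p.hc1
  have hn := p.n_pos
  have hN := p.N_pos
  have hvc := vc_pos (p := p)
  have hκN : κ + 2 ≤ 5 * p.N * p.n := by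
    have : (5 * i + 3) * p.n ≤ 5 * p.N * p.n := Nat.mul_le_mul_right _ (by omega)
    omega
  have hκ0 : 1 ≤ κ := by
    have : 2 * p.n ≤ (5 * i + 2) * p.n := Nat.mul_le_mul_right _ (by omega)
    have := p.hn
    omega
  set Dd : Fin p.M × (Fin m → Fin (2 * p.H)) → ℝ := fun a =>
    psi p f (Xi p (κ + 1) a) - psi p f (Xi p κ a) with hDd
  have hDd0 : ∀ a, 0 ≤ Dd a := fun a => by
    have := Xi_mono h.mono κ (by omega) a
    simp only [hDd]; linarith
  have hD0 : 0 < D0 p f := by unfold D0; positivity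
  set bad := Finset.univ.filter fun a => D0 p f < Dd a with hbad
  set good := Finset.univ.filter fun a => Dd a ≤ D0 p f with hgood
  have hcard : (good.card : ℝ) + bad.card = card p := by
    have h1 := Finset.card_filter_add_card_filter_not (s := Finset.univ) (fun a => Dd a ≤ D0 p f)
    have h2 : Finset.univ.filter (fun a => ¬ Dd a ≤ D0 p f) = bad := by
      rw [hbad]; congr 1; funext a; simp
    rw [h2] at h1
    unfold card
    rw [← Finset.card_univ, ← h1]
    push_cast
    rfl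
  have hbadc : (bad.card : ℝ) ≤ p.c / 16 * card p := by
    have h1 : (bad.card : ℝ) * D0 p f ≤ ∑ a, Dd a := by
      calc (bad.card : ℝ) * D0 p f = ∑ a ∈ bad, D0 p f := by
            rw [Finset.sum_const, nsmul_eq_mul]
        _ ≤ ∑ a ∈ bad, Dd a := Finset.sum_le_sum fun a ha => (Finset.mem_filter.1 ha).2.le
        _ ≤ ∑ a, Dd a := Finset.sum_le_sum_of_subset_of_nonneg (Finset.subset_univ _)
            fun a _ _ => hDd0 a
    have h2 : 2 * (2 * p.ep ^ 2 * Ast f) / (p.N * p.n) = 20 * p.ep ^ 2 * Ast f * p.w := by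
      unfold Par.w; field_simp; norm_num
    rw [h2] at hsum
    have h3 : (bad.card : ℝ) * D0 p f ≤ (p.c / 16 * card p) * D0 p f := by
      refine h1.trans (hsum.trans (le_of_eq ?_))
      unfold D0 card
      field_simp
      ring
    exact le_of_mul_le_mul_right h3 hD0
  -- the set `U`
  set U : Set (E m) := ⋃ a ∈ good, qb p (Xi p (κ + 1) a) with hU
  have hUm : MeasurableSet U := Finset.measurableSet_biUnion _ fun a _ => meas_qb _
  have hUc : U ⊆ p.cell (κ + 1) := by
    rw [cell_eq]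
    exact iUnion₂_subset fun a _ => subset_iUnion (fun a => qb p (Xi p (κ + 1) a)) a
  have hUK : U ⊆ K m p.nu := hUc.trans (cell_sub_K _ (by omega))
  have hUvol : volume U = ENNReal.ofReal (good.card * (vc p / card p)) := by
    rw [hU, measure_biUnion_finset (fun a _ b _ hab => qb_disj (κ + 1) hab) fun a _ => meas_qb _]
    simp only [vol_qb_eq]
    rw [Finset.sum_const, nsmul_eq_mul, ENNReal.ofReal_mul (by positivity),
      ENNReal.ofReal_natCast]
  have hUvol2 : (1 - p.c / 16) * vc p ≤ good.card * (vc p / card p) := by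
    have hcp : (0 : ℝ) < card p := by exact_mod_cast card_pos
    rw [← mul_div_assoc, le_div_iff₀ hcp]
    have : (good.card : ℝ) ≥ (1 - p.c / 16) * card p := by linarith
    nlinarith
  -- the inclusion
  have hincl : f '' U ⊆ (fun y => y + -((Ap p f * p.w) • uu f)) ⁻¹' (f '' cellp p κ) := by
    rintro _ ⟨z, hz, rfl⟩
    obtain ⟨a, ha, hza⟩ := mem_iUnion₂.1 hz
    obtain ⟨x, hxK, hfx, hx1, hx2, hx3⟩ := h.incl i hi hwin κ hκ1 hκ2 a
      (Finset.mem_filter.1 ha).2 z hza (hUK hz)
    refine ⟨x, ⟨?_, ?_, ?_⟩, ?_⟩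
    · have : 0 < p.c * p.w := by positivity
      linarith
    · have : 0 < p.c * p.w := by positivity
      nlinarith
    · intro l
      have h1 := abs_le.1 (hx3 l)
      have h2 : p.h + p.L * p.rho < hh p := by
        unfold hh
        have := p.tau_pos
        have : 0 < 2 * p.tau * p.ep := by positivity
        linarith
      constructor <;> linarith
    · rw [hfx, sub_eq_add_neg]
  have hle : volume (f '' U) ≤ volume (f '' cellp p κ) := by
    refine (measure_mono hincl).trans (le_of_eq ?_)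
    rw [measure_preimage_add_right]
  have hcpK := cellp_sub_K (p := p) κ hκ0 hκN
  rw [hvol U hUK hUm, hvol _ hcpK (meas_box _ _ _ _)] at hle
  -- the mass of the enlarged cell
  have hcm : MeasurableSet (p.cell κ) := meas_box _ _ _ _
  have hmass : ∫⁻ x in cellp p κ, ENNReal.ofReal (ρ x) ≤
      ENNReal.ofReal ((1 + p.c / 16) * vc p) +
        ENNReal.ofReal (1 + p.c) * volume (cellp p κ \ p.cell κ) := by
    have hun : cellp p κ = p.cell κ ∪ (cellp p κ \ p.cell κ) :=
      (Set.union_diff_cancel (cell_sub_cellp κ)).symm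
    rw [hun]
    refine (lintegral_union_le _ _ _).trans ?_
    refine add_le_add (hev κ hκe (by omega)) ?_
    have hm1 : MeasurableSet (cellp p κ \ p.cell κ) := (meas_box _ _ _ _).diff hcm
    rw [union_diff_cancel (cell_sub_cellp κ)]
    calc ∫⁻ x in cellp p κ \ p.cell κ, ENNReal.ofReal (ρ x) ≤
        ∫⁻ x in cellp p κ \ p.cell κ, ENNReal.ofReal (1 + p.c) := by
          refine setLIntegral_mono' hm1 fun x hx => ?_
          exact ENNReal.ofReal_le_ofReal (hρ x (hcpK hx.1))
      _ = _ := by rw [setLIntegral_const]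
  have hdiff : volume (cellp p κ \ p.cell κ) ≤
      ENNReal.ofReal (((1 + p.c / 32) ^ 2 - 1) * vc p) := by
    rw [measure_diff (cell_sub_cellp κ) hcm.nullMeasurableSet (by rw [vol_cell]; simp),
      vol_cell]
    refine (tsub_le_tsub_right (vol_cellp κ) _).trans (le_of_eq ?_)
    rw [← ENNReal.ofReal_sub _ hvc.le]
    congr 1; ring
  have hodd := hod (κ + 1) hκe.add_one (by omega) U hUc hUm
  have hfinal : ENNReal.ofReal (1 + p.c) * ENNReal.ofReal ((1 - p.c / 16) * vc p) ≤
      ENNReal.ofReal ((1 + p.c / 16) * vc p) +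
        ENNReal.ofReal (1 + p.c) * ENNReal.ofReal (((1 + p.c / 32) ^ 2 - 1) * vc p) +
        ENNReal.ofReal (p.c / 16 * vc p) := by
    calc _ ≤ ENNReal.ofReal (1 + p.c) * volume U := by
          rw [hUvol]; gcongr
      _ ≤ _ := hodd
      _ ≤ _ := by gcongr; exact hle.trans (hmass.trans (by gcongr))
  have hx0 : (0 : ℝ) ≤ (1 + p.c / 32) ^ 2 - 1 := by nlinarith
  rw [← ENNReal.ofReal_mul (by positivity), ← ENNReal.ofReal_mul (by positivity),
    ← ENNReal.ofReal_add (by positivity) (by positivity),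
    ← ENNReal.ofReal_add (by positivity) (by positivity),
    ENNReal.ofReal_le_ofReal_iff (by positivity)] at hfinal
  have h1 : (1 + p.c) * (1 - p.c / 16) ≤
      (1 + p.c / 16) + (1 + p.c) * ((1 + p.c / 32) ^ 2 - 1) + p.c / 16 := by
    by_contra hcon
    push Not at hcon
    have := mul_lt_mul_of_pos_right hcon hvc
    linarith
  nlinarith

end

end Pool.Agent.Helper724BK
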