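import Pool.Agent.Helper724_BK.Key5
import Pool.Agent.Helper724_BK.BK3

/-!
# Similarities, and the pull-back of the data
-/

set_option autoImplicit false
open MeasureTheory Metric Set Filter Topology
open scoped ENNReal NNReal

namespace Pool.Agent.Helper724BK

section
variable {m : ℕ}

/-- a similarity -/
noncomputable def sim (a : E m) (k : ℝ) (R : E m ≃ₗᵢ[ℝ] E m) (z : E m) : E m := a + k • R z

theorem sim_cont (a : E m) (k : ℝ) (R : E m ≃ₗᵢ[ℝ] E m) : Continuous (sim a k R) := by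
  unfold sim
  exact continuous_const.add (R.continuous.const_smul k)

theorem sim_dist (a : E m) (k : ℝ) (hk : 0 < k) (R : E m ≃ₗᵢ[ℝ] E m) (x y : E m) :
    dist (sim a k R x) (sim a k R y) = k * dist x y := by
  unfold sim
  rw [dist_add_left, dist_smul₀, Real.norm_eq_abs, abs_of_pos hk, R.dist_map]

theorem sim_inj (a : E m) (k : ℝ) (hk : 0 < k) (R : E m ≃ₗᵢ[ℝ] E m) :
    Function.Injective (sim a k R) := by
  intro x y hxy
  have := sim_dist a k hk R x y
  rw [hxy, dist_self] at this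
  have h1 : dist x y = 0 := by
    rcases mul_eq_zero.1 this.symm with h | h
    · exact absurd h hk.ne'
    · exact h
  exact dist_eq_zero.1 h1

/-- the inverse -/
noncomputable def simi (a : E m) (k : ℝ) (R : E m ≃ₗᵢ[ℝ] E m) (z : E m) : E m :=
  R.symm (k⁻¹ • (z - a))

theorem simi_sim (a : E m) (k : ℝ) (hk : 0 < k) (R : E m ≃ₗᵢ[ℝ] E m) (z : E m) :
    simi a k R (sim a k R z) = z := by
  unfold simi sim
  rw [add_sub_cancel_left, smul_smul, inv_mul_cancel₀ hk.ne', one_smul,
    LinearIsometryEquiv.symm_apply_apply]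

theorem simi_cont (a : E m) (k : ℝ) (R : E m ≃ₗᵢ[ℝ] E m) : Continuous (simi a k R) := by
  unfold simi
  have h1 : Continuous fun z : E m => k⁻¹ • (z - a) := by fun_prop
  exact R.symm.continuous.comp h1

/-- The assumptions on a map and a density on the box `K`. -/
structure Adm (p : Par m) (f : E m → E m) (ρ : E m → ℝ) (s : ℝ) : Prop where
  s0 : 0 < s
  cont : ContinuousOn f (K m p.nu)
  inj : InjOn f (K m p.nu)
  coarse : Coarse f (K m p.nu) p.L s
  meas : Measurable ρ
  bd : ∀ z ∈ K m p.nu, 1 ≤ ρ z ∧ ρ z ≤ 1 + p.c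
  vol : ∀ S ⊆ K m p.nu, MeasurableSet S → volume (f '' S) = ∫⁻ x in S, ENNReal.ofReal (ρ x)

/-- The general form on an arbitrary set. -/
structure AdmOn (L c : ℝ) (Ω : Set (E m)) (f : E m → E m) (ρ : E m → ℝ) (s : ℝ) : Prop where
  s0 : 0 < s
  cont : ContinuousOn f Ω
  inj : InjOn f Ω
  coarse : Coarse f Ω L s
  meas : Measurable ρ
  bd : ∀ z ∈ Ω, 1 ≤ ρ z ∧ ρ z ≤ 1 + c
  vol : ∀ S ⊆ Ω, MeasurableSet S → volume (f '' S) = ∫⁻ x in S, ENNReal.ofReal (ρ x)

/-- Pull-back under a similarity. -/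
theorem AdmOn.pull {L c : ℝ} {Ω : Set (E m)} {f : E m → E m} {ρ : E m → ℝ} {s : ℝ} {p : Par m}
    (h : AdmOn L c Ω f ρ s) (hL : p.L = L) (hc : p.c = c) (a : E m) (k : ℝ) (hk : 0 < k)
    (R : E m ≃ₗᵢ[ℝ] E m) (hΩ : sim a k R '' K m p.nu ⊆ Ω) :
    Adm p (fun z => k⁻¹ • f (sim a k R z)) (fun z => ρ (sim a k R z)) (s / k) := by
  have hmaps : MapsTo (sim a k R) (K m p.nu) Ω := fun z hz => hΩ ⟨z, hz, rfl⟩
  have hki : (0 : ℝ) < k⁻¹ := inv_pos.2 hk
  refine ⟨div_pos h.s0 hk, ?_, ?_, ?_, ?_, ?_, ?_⟩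
  · have h1 : ContinuousOn (fun z => f (sim a k R z)) (K m p.nu) :=
      h.cont.comp (sim_cont a k R).continuousOn hmaps
    exact h1.const_smul k⁻¹
  · intro x hx y hy hxy
    have h1 : f (sim a k R x) = f (sim a k R y) := smul_right_injective _ hki.ne' hxy
    exact sim_inj a k hk R (h.inj (hmaps hx) (hmaps hy) h1)
  · intro x hx y hy
    obtain ⟨h1, h2⟩ := h.coarse _ (hmaps hx) _ (hmaps hy)
    rw [sim_dist a k hk] at h1 h2
    have e1 : dist (k⁻¹ • f (sim a k R x)) (k⁻¹ • f (sim a k R y)) =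
        k⁻¹ * dist (f (sim a k R x)) (f (sim a k R y)) := by
      rw [dist_smul₀, Real.norm_eq_abs, abs_of_pos hki]
    rw [e1, hL]
    constructor
    · have e2 : L * max (dist x y) (s / k) = k⁻¹ * (L * max (k * dist x y) s) := by
        have : max (k * dist x y) s = k * max (dist x y) (s / k) := by
          rw [mul_max_of_nonneg _ _ hk.le]; congr 1; field_simp
        rw [this]; field_simp
      rw [e2]
      exact mul_le_mul_of_nonneg_left h1 hki.le
    · have e2 : L * max (k⁻¹ * dist (f (sim a k R x)) (f (sim a k R y))) (s / k) =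
          k⁻¹ * (L * max (dist (f (sim a k R x)) (f (sim a k R y))) s) := by
        have : max (k⁻¹ * dist (f (sim a k R x)) (f (sim a k R y))) (s / k) =
            k⁻¹ * max (dist (f (sim a k R x)) (f (sim a k R y))) s := by
          rw [mul_max_of_nonneg _ _ hki.le]; congr 1; field_simp
        rw [this]; ring
      rw [e2]
      have e3 : dist x y = k⁻¹ * (k * dist x y) := by field_simp
      rw [e3]
      exact mul_le_mul_of_nonneg_left h2 hki.le
  · exact h.meas.comp (sim_cont a k R).measurable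
  · intro z hz
    rw [hc]
    exact h.bd _ (hmaps hz)
  · intro S hS hSm
    have hSm' : MeasurableSet (sim a k R '' S) := by
      have : sim a k R '' S = simi a k R ⁻¹' S := by
        ext z
        constructor
        · rintro ⟨x, hx, rfl⟩
          rw [mem_preimage, simi_sim a k hk]; exact hx
        · intro hz
          refine ⟨_, hz, ?_⟩
          unfold sim simi
          rw [LinearIsometryEquiv.apply_symm_apply, smul_smul, mul_inv_cancel₀ hk.ne', one_smul,
            add_sub_cancel]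
      rw [this]
      exact (simi_cont a k R).measurable hSm
    have h1 := h.vol (sim a k R '' S) ((image_mono hS).trans hΩ) hSm'
    have h2 : (fun z => k⁻¹ • f (sim a k R z)) '' S =
        (fun z => (0 : E m) + k⁻¹ • (LinearIsometryEquiv.refl ℝ (E m)) z) ''
          (f '' (sim a k R '' S)) := by
      rw [image_image, image_image]
      simp
    rw [h2, vol_sim _ _ hki, h1]
    have h3 := lint_sim a k hk R S (hSm) (fun x => ENNReal.ofReal (ρ x))
    have h4 : (fun z => a + k • R z) = sim a k R := rfl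
    rw [h4] at h3
    rw [h3, ← mul_assoc, ← ENNReal.ofReal_mul (by positivity)]
    have h5 : k⁻¹ ^ (m + 1) * k ^ (m + 1) = 1 := by
      rw [← mul_pow, inv_mul_cancel₀ hk.ne', one_pow]
    rw [h5, ENNReal.ofReal_one, one_mul]
    rfl

theorem Adm.on {p : Par m} {f : E m → E m} {ρ : E m → ℝ} {s : ℝ} (h : Adm p f ρ s) :
    AdmOn p.L p.c (K m p.nu) f ρ s :=
  ⟨h.s0, h.cont, h.inj, h.coarse, h.meas, h.bd, h.vol⟩

/-- The `L¹` distance under a similarity. -/
theorem L1_sim (a : E m) (k : ℝ) (hk : 0 < k) (R : E m ≃ₗᵢ[ℝ] E m) (S : Set (E m))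
    (hS : MeasurableSet S) (ρ ρ' : E m → ℝ) (e : ℝ)
    (h : ∫⁻ z in sim a k R '' S, ENNReal.ofReal |ρ' z - ρ z| ≤ ENNReal.ofReal (k ^ (m + 1) * e)) :
    ∫⁻ z in S, ENNReal.ofReal |ρ' (sim a k R z) - ρ (sim a k R z)| ≤ ENNReal.ofReal e := by
  have h3 := lint_sim a k hk R S hS (fun x => ENNReal.ofReal |ρ' x - ρ x|)
  have h4 : (fun z => a + k • R z) = sim a k R := rfl
  rw [h4] at h3
  rw [h3, ENNReal.ofReal_mul (by positivity)] at h
  have h5 : ENNReal.ofReal (k ^ (m + 1)) ≠ 0 := by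
    rw [ne_eq, ENNReal.ofReal_eq_zero, not_le]; positivity
  exact (ENNReal.mul_le_mul_iff_right h5 ENNReal.ofReal_ne_top).1 h

end

end Pool.Agent.Helper724BK
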