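import Pool.Agent.Helper724_BK.Rec1

/-!
# The recursion over the levels
-/

set_option autoImplicit false
open MeasureTheory Metric Set Filter Topology
open scoped ENNReal NNReal

namespace Pool.Agent.Helper724BK

section
variable {m : ℕ} {p : Par m}

/-- the alternating pattern -/
noncomputable def pat (p : Par m) (z : E m) : ℝ :=
  open Classical in if Even ⌊z 0 / p.w⌋ then 1 else 1 + p.c

theorem pat_meas : Measurable (pat p) := by
  classical
  have h1 : Measurable fun z : E m => ⌊z 0 / p.w⌋ := by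
    have : Measurable fun x : E m => x 0 := (EuclideanSpace.proj (𝕜 := ℝ) 0).continuous.measurable
    exact Int.measurable_floor.comp (this.div_const _)
  unfold pat
  exact Measurable.ite (h1 (MeasurableSet.of_discrete (s := {k : ℤ | Even k}))) measurable_const
    measurable_const

theorem pat_bd (z : E m) : 1 ≤ pat p z ∧ pat p z ≤ 1 + p.c := by
  have := p.hc0
  unfold pat
  split_ifs <;> constructor <;> linarith

theorem pat_cell (κ : ℕ) (z : E m) (hz : z ∈ p.cell κ) :
    pat p z = if Even κ then 1 else 1 + p.c := by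
  classical
  obtain ⟨h1, h2, h3⟩ := hz
  have hw := p.w_pos
  have hfl : ⌊z 0 / p.w⌋ = (κ : ℤ) := by
    rw [Int.floor_eq_iff]
    constructor
    · rw [le_div_iff₀ hw]; push_cast; exact h1
    · rw [div_lt_iff₀ hw]; push_cast; nlinarith
  unfold pat
  rw [hfl]
  simp only [Int.even_coe_nat]

/-- the similarity of an edge -/
theorem theta_eq (b : Zv m) (j : Fin m) (t : ℤ) :
    p.theta b j t = sim (p.V b + (p.sg * p.ell) • p.dv j t) p.kap (p.Rot j t) := rfl

/-- the density of the next level -/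
theorem next_density (ρ : E m → ℝ) (hρm : Measurable ρ) (hρ : ∀ z, 1 ≤ ρ z ∧ ρ z ≤ 1 + p.c) :
    ∃ ρ' : E m → ℝ, Measurable ρ' ∧ (∀ z, 1 ≤ ρ' z ∧ ρ' z ≤ 1 + p.c) ∧
      (∀ b j t, p.IsEdge b j t → ∀ z ∈ K m p.nu, ρ' (p.theta b j t z) = ρ z) ∧
      ∀ z, (∀ b j t, p.IsEdge b j t → z ∉ p.tube b j t) → ρ' z = pat p z := by
  classical
  let ι := Option (Zv m × Fin m × ℤ)
  let T : Zv m × Fin m × ℤ → Set (E m) := fun x =>
    if p.IsEdge x.1 x.2.1 x.2.2 then p.tube x.1 x.2.1 x.2.2 else ∅
  let t : ι → Set (E m) := fun x => Option.elim x (⋃ y, T y)ᶜ T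
  let g : ι → E m → ℝ := fun x => Option.elim x (pat p) fun y z =>
    ρ (simi (p.V y.1 + (p.sg * p.ell) • p.dv y.2.1 y.2.2) p.kap (p.Rot y.2.1 y.2.2) z)
  have hTm : ∀ y, MeasurableSet (T y) := by
    intro y
    simp only [T]
    split_ifs
    · exact (meas_tube p _ _ _).1
    · exact MeasurableSet.empty
  have hTd : ∀ y y', y ≠ y' → Disjoint (T y) (T y') := by
    intro y y' hyy'
    rw [Set.disjoint_left]
    intro z hz hz'
    simp only [T] at hz hz'
    split_ifs at hz hz' with h1 h2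
    · obtain ⟨e1, e2, e3⟩ := tube_disj p y.1 y'.1 y.2.1 y'.2.1 y.2.2 y'.2.2 h1.1 h2.1 h1.2.1
        h2.2.1 z hz hz'
      exact hyy' (Prod.ext e1 (Prod.ext e2 e3))
    · exact hz'
    · exact hz
    · exact hz
  obtain ⟨ρ', hρ'm, hρ'⟩ := exists_measurable_piecewise t (by
      intro x
      cases x with
      | none => exact (MeasurableSet.iUnion hTm).compl
      | some y => exact hTm y) g (by
      intro x
      cases x with
      | none => exact pat_meas
      | some y => exact hρm.comp (simi_cont _ _ _).measurable) (by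
      intro x x' hxx' z hz
      exfalso
      cases x with
      | none =>
        cases x' with
        | none => exact hxx' rfl
        | some y => exact hz.1 (mem_iUnion.2 ⟨y, hz.2⟩)
      | some y =>
        cases x' with
        | none => exact hz.2 (mem_iUnion.2 ⟨y, hz.1⟩)
        | some y' =>
          have : y ≠ y' := fun h => hxx' (congrArg some h)
          exact Set.disjoint_left.1 (hTd y y' this) hz.1 hz.2)
  have hcov : ∀ z, ∃ x, z ∈ t x := by
    intro z
    by_cases hz : z ∈ ⋃ y, T y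
    · obtain ⟨y, hy⟩ := mem_iUnion.1 hz
      exact ⟨some y, hy⟩
    · exact ⟨none, hz⟩
  refine ⟨ρ', hρ'm, ?_, ?_, ?_⟩
  · intro z
    obtain ⟨x, hx⟩ := hcov z
    rw [hρ' x hx]
    cases x with
    | none => exact pat_bd z
    | some y => exact hρ _
  · intro b j t' he z hz
    have hx : p.theta b j t' z ∈ t (some (b, j, t')) := by
      simp only [t, Option.elim, T]
      rw [if_pos he]
      exact ⟨z, hz, rfl⟩
    rw [hρ' _ hx]
    simp only [g, Option.elim]
    rw [theta_eq, simi_sim _ _ p.kap_pos]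
  · intro z hz
    have hx : z ∈ t none := by
      intro h
      obtain ⟨y, hy⟩ := mem_iUnion.1 h
      simp only [T] at hy
      split_ifs at hy with h1
      · exact hz _ _ _ h1 hy
      · exact hy
    rw [hρ' _ hx]
    rfl

/-- all tubes -/
def TT (p : Par m) : Set (E m) :=
  ⋃ (b : Zv m) (j : Fin m) (s : ℤ) (_ : s = 1 ∨ s = -1), p.tube b j s

theorem TT_meas : MeasurableSet (TT p) := by
  unfold TT
  refine MeasurableSet.iUnion fun b => MeasurableSet.iUnion fun j => MeasurableSet.iUnion fun s =>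
    MeasurableSet.iUnion fun _ => (meas_tube p _ _ _).1

theorem TT_cell (κ : ℕ) : volume (p.cell κ ∩ TT p) ≤ ENNReal.ofReal (1 / 32 * vc p) :=
  tubes_cell p (fun b j s hs κ z hz hz' => tube_meets p b j s hs κ z hz hz') κ

theorem kap_le_one : p.kap ≤ 1 := by
  have h1 := BK3_ell_le p
  have h2 := p.tau_le_W
  have h3 := p.W_le
  have h4 := p.hsg0
  have h5 := p.ell_pos
  unfold Par.kap
  nlinarith

theorem K_zero : (0 : E m) ∈ K m p.nu := by
  refine ⟨by simp, by simp, fun i => ?_⟩
  simp; exact p.nu_pos.le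

theorem K_e0 : e0 m ∈ K m p.nu := by
  refine ⟨by simp, by simp, fun i => ?_⟩
  simp; exact p.nu_pos.le

theorem dist_e0 : dist (e0 m) 0 = 1 := by
  rw [dist_zero_right]; unfold e0; simp

theorem sbase_le_one : p.sbase ≤ 1 := by
  have h5 := p.sbase_le
  have h6 := p.tau_le_W
  have h7 := p.W_le
  have := p.tau_pos
  linarith

/-- the first mass bound -/
theorem mass_even {ρ ρ' : E m → ℝ} (hρ1 : ∀ z, 1 ≤ ρ z ∧ ρ z ≤ 1 + p.c)
    (hρT : ∀ z, z ∉ TT p → ρ z = pat p z)
    (hL1 : ∫⁻ z in K m p.nu, ENNReal.ofReal |ρ' z - ρ z| ≤ ENNReal.ofReal (p.c / 32 * vc p))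
    (κ : ℕ) (hκ : Even κ) (hκ1 : κ + 1 < 5 * p.N * p.n) :
    ∫⁻ x in p.cell κ, ENNReal.ofReal (ρ' x) ≤ ENNReal.ofReal ((1 + p.c / 16) * vc p) := by
  have hc := p.hc0
  have hvc := vc_pos (p := p)
  have hcm : MeasurableSet (p.cell κ) := meas_box _ _ _ _
  have hcK : p.cell κ ⊆ K m p.nu := cell_sub_K κ (by omega)
  have h1 : ∀ x ∈ p.cell κ, ENNReal.ofReal (ρ' x) ≤
      1 + (TT p).indicator (fun _ => ENNReal.ofReal p.c) x + ENNReal.ofReal |ρ' x - ρ x| := by
    intro x hx
    have h2 : ENNReal.ofReal (ρ' x) ≤ ENNReal.ofReal (ρ x) + ENNReal.ofReal |ρ' x - ρ x| := by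
      rw [← ENNReal.ofReal_add (by linarith [(hρ1 x).1]) (abs_nonneg _)]
      apply ENNReal.ofReal_le_ofReal
      have := le_abs_self (ρ' x - ρ x)
      linarith
    refine h2.trans (add_le_add ?_ le_rfl)
    by_cases hxT : x ∈ TT p
    · rw [indicator_of_mem hxT, ← ENNReal.ofReal_one, ← ENNReal.ofReal_add zero_le_one hc.le]
      exact ENNReal.ofReal_le_ofReal (hρ1 x).2
    · rw [indicator_of_notMem hxT, add_zero, hρT x hxT, pat_cell κ x hx, if_pos hκ,
        ENNReal.ofReal_one]
  calc ∫⁻ x in p.cell κ, ENNReal.ofReal (ρ' x)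
      ≤ ∫⁻ x in p.cell κ, (1 + (TT p).indicator (fun _ => ENNReal.ofReal p.c) x +
          ENNReal.ofReal |ρ' x - ρ x|) := setLIntegral_mono' hcm h1
    _ = volume (p.cell κ) + ENNReal.ofReal p.c * volume (p.cell κ ∩ TT p) +
          ∫⁻ x in p.cell κ, ENNReal.ofReal |ρ' x - ρ x| := by
        have hm : Measurable fun x : E m => (1 : ℝ≥0∞) +
            (TT p).indicator (fun _ => ENNReal.ofReal p.c) x :=
          Measurable.const_add (measurable_const.indicator TT_meas) _
        have hm1 : Measurable fun _ : E m => (1 : ℝ≥0∞) := measurable_const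
        rw [lintegral_add_left hm, lintegral_add_left hm1, setLIntegral_const, one_mul,
          lintegral_indicator TT_meas, setLIntegral_const, Measure.restrict_apply TT_meas,
          inter_comm]
    _ ≤ ENNReal.ofReal (vc p) + ENNReal.ofReal p.c * ENNReal.ofReal (1 / 32 * vc p) +
          ENNReal.ofReal (p.c / 32 * vc p) := by
        gcongr
        · exact (vol_cell κ).le
        · exact TT_cell κ
        · exact (lintegral_mono_set hcK).trans hL1
    _ = _ := by
        rw [← ENNReal.ofReal_mul hc.le, ← ENNReal.ofReal_add hvc.le (by positivity),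
          ← ENNReal.ofReal_add (by positivity) (by positivity)]
        congr 1; ring

/-- the second mass bound -/
theorem mass_odd {ρ ρ' : E m → ℝ} (hρ1 : ∀ z, 1 ≤ ρ z ∧ ρ z ≤ 1 + p.c)
    (hρ'm : Measurable ρ') (hρ'1 : ∀ z ∈ K m p.nu, 1 ≤ ρ' z)
    (hρT : ∀ z, z ∉ TT p → ρ z = pat p z)
    (hL1 : ∫⁻ z in K m p.nu, ENNReal.ofReal |ρ' z - ρ z| ≤ ENNReal.ofReal (p.c / 32 * vc p))
    (κ : ℕ) (hκ : Odd κ) (hκ1 : κ < 5 * p.N * p.n) (U : Set (E m)) (hU : U ⊆ p.cell κ)
    (hUm : MeasurableSet U) :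
    ENNReal.ofReal (1 + p.c) * volume U ≤
      (∫⁻ x in U, ENNReal.ofReal (ρ' x)) + ENNReal.ofReal (p.c / 16 * vc p) := by
  have hc := p.hc0
  have hvc := vc_pos (p := p)
  have hcK : p.cell κ ⊆ K m p.nu := cell_sub_K κ (by omega)
  have hne : ¬ Even κ := Nat.not_even_iff_odd.2 hκ
  have h1 : ∀ x ∈ U, ENNReal.ofReal (1 + p.c) ≤ ENNReal.ofReal (ρ' x) +
      (TT p).indicator (fun _ => ENNReal.ofReal p.c) x + ENNReal.ofReal |ρ' x - ρ x| := by
    intro x hx
    have hx1 := hρ'1 x (hcK (hU hx))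
    have h2 : ENNReal.ofReal (1 + p.c) ≤ ENNReal.ofReal (ρ x) +
        (TT p).indicator (fun _ => ENNReal.ofReal p.c) x := by
      by_cases hxT : x ∈ TT p
      · rw [indicator_of_mem hxT, ← ENNReal.ofReal_add (by linarith [(hρ1 x).1]) hc.le]
        exact ENNReal.ofReal_le_ofReal (by linarith [(hρ1 x).1])
      · rw [indicator_of_notMem hxT, add_zero, hρT x hxT, pat_cell κ x (hU hx), if_neg hne]
    have h3 : ENNReal.ofReal (ρ x) ≤ ENNReal.ofReal (ρ' x) + ENNReal.ofReal |ρ' x - ρ x| := by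
      rw [← ENNReal.ofReal_add (by linarith) (abs_nonneg _)]
      apply ENNReal.ofReal_le_ofReal
      have := neg_abs_le (ρ' x - ρ x)
      linarith
    calc ENNReal.ofReal (1 + p.c) ≤ ENNReal.ofReal (ρ x) +
          (TT p).indicator (fun _ => ENNReal.ofReal p.c) x := h2
      _ ≤ (ENNReal.ofReal (ρ' x) + ENNReal.ofReal |ρ' x - ρ x|) +
          (TT p).indicator (fun _ => ENNReal.ofReal p.c) x := by gcongr
      _ = _ := by ring
  have hmr : Measurable fun x => ENNReal.ofReal (ρ' x) := hρ'm.ennreal_ofReal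
  calc ENNReal.ofReal (1 + p.c) * volume U = ∫⁻ x in U, ENNReal.ofReal (1 + p.c) := by
        rw [setLIntegral_const]
    _ ≤ ∫⁻ x in U, (ENNReal.ofReal (ρ' x) +
      (TT p).indicator (fun _ => ENNReal.ofReal p.c) x + ENNReal.ofReal |ρ' x - ρ x|) :=
        setLIntegral_mono' hUm h1
    _ = (∫⁻ x in U, ENNReal.ofReal (ρ' x)) + ENNReal.ofReal p.c * volume (U ∩ TT p) +
          ∫⁻ x in U, ENNReal.ofReal |ρ' x - ρ x| := by
        have hm : Measurable fun x : E m => ENNReal.ofReal (ρ' x) +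
            (TT p).indicator (fun _ => ENNReal.ofReal p.c) x :=
          hmr.add (measurable_const.indicator TT_meas)
        rw [lintegral_add_left hm, lintegral_add_left hmr,
          lintegral_indicator TT_meas, setLIntegral_const, Measure.restrict_apply TT_meas,
          inter_comm]
    _ ≤ (∫⁻ x in U, ENNReal.ofReal (ρ' x)) + ENNReal.ofReal p.c * ENNReal.ofReal (1 / 32 * vc p) +
          ENNReal.ofReal (p.c / 32 * vc p) := by
        gcongr
        · exact (measure_mono (inter_subset_inter_left _ hU)).trans (TT_cell κ)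
        · exact (lintegral_mono_set (hU.trans hcK)).trans hL1
    _ = _ := by
        rw [add_assoc, ← ENNReal.ofReal_mul hc.le,
          ← ENNReal.ofReal_add (by positivity) (by positivity)]
        congr 2; ring

end

end Pool.Agent.Helper724BK
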