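import Pool.Agent.Helper724_BK.Rec2

/-!
# The recursion over the levels, conclusion
-/

set_option autoImplicit false
open MeasureTheory Metric Set Filter Topology
open scoped ENNReal NNReal

namespace Pool.Agent.Helper724BK

section
variable {m : ℕ} {p : Par m}

theorem V_mem (b : Zv m) (h0 : 0 ≤ b 0) (hT : b 0 ≤ p.T) (hB : ∀ i : Fin m, |b i.succ| ≤ p.B) :
    p.V b ∈ K m p.nu := by
  have ht := p.tau_pos
  have he := p.hep0
  refine ⟨?_, ?_, ?_⟩
  · rw [V_zero]
    have : (0 : ℝ) ≤ b 0 := by exact_mod_cast h0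
    positivity
  · rw [V_zero]
    have h1 : (b 0 : ℝ) ≤ p.T := by exact_mod_cast hT
    have h2 := p.T_tau
    nlinarith
  · intro i
    rw [V_succ, abs_mul, abs_of_pos (mul_pos ht he)]
    have h1 : |(b i.succ : ℝ)| ≤ (p.B : ℝ) := by exact_mod_cast hB i
    have h2 : p.tau * p.ep * (p.B : ℝ) ≤ p.nu := by
      have h3 := p.h5'
      have h4 := p.W_eq'
      unfold Par.B
      push_cast
      rw [h4] at h3
      nlinarith [mul_pos ht he]
    have h3 : p.tau * p.ep * |(b i.succ : ℝ)| ≤ p.tau * p.ep * p.B :=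
      mul_le_mul_of_nonneg_left h1 (mul_pos ht he).le
    linarith

/-- The statement for one level. -/
theorem level (p : Par m) (I : ℕ) : ∃ (ρ : E m → ℝ) (e : ℝ), Measurable ρ ∧
    (∀ z, 1 ≤ ρ z ∧ ρ z ≤ 1 + p.c) ∧ 0 < e ∧
    ∀ (f : E m → E m) (ρ' : E m → ℝ) (s : ℝ), Adm p f ρ' s → s ≤ p.kap ^ I * p.sbase →
      ∫⁻ z in K m p.nu, ENNReal.ofReal |ρ' z - ρ z| ≤ ENNReal.ofReal e →
      1 / p.L ≤ dist (f (e0 m)) (f 0) →
      dist (f (e0 m)) (f 0) * (1 + p.ep ^ 2 / 2) ^ I ≤ p.L := by
  have hc := p.hc0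
  have hL := p.L_pos
  have hkap := p.kap_pos
  have hkap1 := kap_le_one (p := p)
  have hsb := p.sbase_pos
  have hep := p.hep0
  induction I with
  | zero =>
    refine ⟨fun _ => 1, 1, measurable_const, fun _ => ⟨le_rfl, by linarith⟩, one_pos, ?_⟩
    intro f ρ' s h hs _ _
    have h1 := (h.coarse _ K_e0 _ K_zero).1
    rw [dist_e0] at h1
    have h2 : s ≤ 1 := by
      have := sbase_le_one (p := p)
      simp only [pow_zero, one_mul] at hs
      linarith
    rw [max_eq_left h2, mul_one] at h1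
    simpa using h1
  | succ I ih =>
    obtain ⟨ρ, e, hρm, hρ, he, hlev⟩ := ih
    obtain ⟨ρ1, hρ1m, hρ1, hρ1θ, hρ1p⟩ := next_density (p := p) ρ hρm hρ
    have hvc := vc_pos (p := p)
    refine ⟨ρ1, min (p.kap ^ (m + 1) * e) (p.c / 32 * vc p), hρ1m, hρ1,
      lt_min (by positivity) (by positivity), ?_⟩
    intro f ρ' s h hs hL1 hlow
    by_contra hcon
    push Not at hcon
    set A := dist (f (e0 m)) (f 0) with hA
    have hA0 : 0 < A := lt_of_lt_of_le (by positivity) hlow
    have hs1 : s ≤ p.sbase := by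
      refine hs.trans ?_
      have : p.kap ^ (I + 1) ≤ 1 := pow_le_one₀ hkap.le hkap1
      nlinarith
    -- the children
    have hchild : ∀ b j t, p.IsEdge b j t →
        dist (f (p.theta b j t (e0 m))) (f (p.theta b j t 0)) ≤
          (1 + p.ep ^ 2 / 2) * A * p.kap := by
      intro b j t hE
      have hsub := tube_sub p b j t hE
      have hadm := h.on.pull (p := p) rfl rfl (p.V b + (p.sg * p.ell) • p.dv j t) p.kap hkap
        (p.Rot j t) hsub
      rw [← theta_eq] at hadm
      have hL1' : ∫⁻ z in K m p.nu, ENNReal.ofReal |ρ' (p.theta b j t z) - ρ z| ≤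
          ENNReal.ofReal e := by
        have h1 : ∫⁻ z in K m p.nu, ENNReal.ofReal |ρ' (p.theta b j t z) - ρ z| =
            ∫⁻ z in K m p.nu, ENNReal.ofReal |ρ' (p.theta b j t z) - ρ1 (p.theta b j t z)| := by
          refine setLIntegral_congr_fun (meas_K m p.nu).1 fun z hz => ?_
          simp only [hρ1θ b j t hE z hz]
        rw [h1]
        refine L1_sim (p.V b + (p.sg * p.ell) • p.dv j t) p.kap hkap (p.Rot j t) _
          (meas_K m p.nu).1 ρ1 ρ' e ?_
        refine (lintegral_mono_set hsub).trans (hL1.trans ?_)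
        exact ENNReal.ofReal_le_ofReal (min_le_left _ _)
      have hk := hlev _ _ _ hadm (by
        rw [div_le_iff₀ hkap]
        refine hs.trans (le_of_eq ?_)
        ring) hL1'
      have hd : dist (p.kap⁻¹ • f (p.theta b j t (e0 m))) (p.kap⁻¹ • f (p.theta b j t 0)) =
          p.kap⁻¹ * dist (f (p.theta b j t (e0 m))) (f (p.theta b j t 0)) := by
        rw [dist_smul₀, Real.norm_eq_abs, abs_of_pos (inv_pos.2 hkap)]
      rw [hd] at hk
      set X := dist (f (p.theta b j t (e0 m))) (f (p.theta b j t 0)) with hX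
      have hgoal : p.kap⁻¹ * X ≤ (1 + p.ep ^ 2 / 2) * A := by
        by_cases hlow' : 1 / p.L ≤ p.kap⁻¹ * X
        · have h2 := hk hlow'
          have h3 : p.kap⁻¹ * X * (1 + p.ep ^ 2 / 2) ^ I <
              (1 + p.ep ^ 2 / 2) * A * (1 + p.ep ^ 2 / 2) ^ I := by
            calc _ ≤ p.L := h2
              _ < A * (1 + p.ep ^ 2 / 2) ^ (I + 1) := hcon
              _ = _ := by ring
          exact (lt_of_mul_lt_mul_right h3 (by positivity)).le
        · push Not at hlow'
          nlinarith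
      calc X = p.kap⁻¹ * X * p.kap := by field_simp
        _ ≤ _ := mul_le_mul_of_nonneg_right hgoal hkap.le
    have hdat : Dat p f s := by
      refine ⟨h.cont, h.inj, h.coarse, hs1, hlow, ?_⟩
      intro b j t hE
      have hsg := p.hsg0
      have hell := p.ell_pos
      have h1 := hchild b j t hE
      have hsub := tube_sub p b j t hE
      have hV0 : p.V b ∈ K m p.nu := V_mem b hE.2.2.1 (by linarith [hE.2.2.2.1]) hE.2.2.2.2.1
      have hV1 : p.V (b + dir j t) ∈ K m p.nu := by
        apply V_mem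
        · simp only [Pi.add_apply, dir_zero]; linarith [hE.2.2.1]
        · simp only [Pi.add_apply, dir_zero]; exact hE.2.2.2.1
        · intro i
          simp only [Pi.add_apply, dir_succ]
          split_ifs with hij
          · rw [hij]; exact hE.2.2.2.2.2
          · rw [add_zero]; exact hE.2.2.2.2.1 i
      have hθ0 : p.theta b j t 0 ∈ K m p.nu := hsub ⟨0, K_zero, rfl⟩
      have hθ1 : p.theta b j t (e0 m) ∈ K m p.nu := hsub ⟨e0 m, K_e0, rfl⟩
      have hde := dist_edge p b j t hE.1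
      have hd0 : dist (p.theta b j t 0) (p.V b) = p.sg * p.ell := by
        rw [theta_zero, dist_eq_norm, add_sub_cancel_left, norm_smul, ← dist_eq_norm, hde,
          Real.norm_eq_abs, abs_of_pos hsg]
      have hd1 : dist (p.V (b + dir j t)) (p.theta b j t (e0 m)) = p.sg * p.ell := by
        rw [theta_e0 p b j t hE.1, dist_eq_norm]
        have : p.V (b + dir j t) - (p.V b + (1 - p.sg) • (p.V (b + dir j t) - p.V b)) =
            p.sg • (p.V (b + dir j t) - p.V b) := by
          rw [sub_smul, one_smul]; abel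
        rw [this, norm_smul, ← dist_eq_norm, hde, Real.norm_eq_abs, abs_of_pos hsg]
      have hsl : s ≤ p.sg * p.ell := by
        refine hs1.trans ?_
        unfold Par.sbase Par.ell
        have h1 : 1 ≤ Real.sqrt (1 + p.ep ^ 2) := Real.one_le_sqrt.2 (by nlinarith)
        have := p.tau_pos
        have : p.tau * 1 ≤ p.tau * Real.sqrt (1 + p.ep ^ 2) := by gcongr
        nlinarith
      have hf0 := (h.coarse _ hθ0 _ hV0).1
      have hf1 := (h.coarse _ hV1 _ hθ1).1
      rw [hd0, max_eq_left hsl] at hf0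
      rw [hd1, max_eq_left hsl] at hf1
      have ht1 := dist_triangle (f (p.V (b + dir j t))) (f (p.theta b j t (e0 m))) (f (p.V b))
      have ht2 := dist_triangle (f (p.theta b j t (e0 m))) (f (p.theta b j t 0)) (f (p.V b))
      have hkl : p.kap ≤ p.ell := by
        unfold Par.kap; nlinarith
      have h2 : (1 + p.ep ^ 2 / 2) * A * p.kap ≤ (1 + p.ep ^ 2 / 2) * A * p.ell := by gcongr
      have h3 : 2 * p.L * p.sg ≤ p.ep ^ 2 / 2 * A := by
        have h4 := p.hsg2
        have h5 : 2 * p.L * p.sg ≤ p.ep ^ 2 / 2 * (1 / p.L) := by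
          rw [mul_one_div, le_div_iff₀ hL]; nlinarith
        refine h5.trans ?_
        gcongr
      nlinarith
    have hL1c : ∫⁻ z in K m p.nu, ENNReal.ofReal |ρ' z - ρ1 z| ≤
        ENNReal.ofReal (p.c / 32 * vc p) :=
      hL1.trans (ENNReal.ofReal_le_ofReal (min_le_right _ _))
    have hT : ∀ z, z ∉ TT p → ρ1 z = pat p z := by
      intro z hz
      apply hρ1p
      intro b j t hE hz'
      apply hz
      unfold TT
      simp only [mem_iUnion]
      exact ⟨b, j, t, hE.1, hz'⟩
    exact key hdat ρ' (fun z hz => (h.bd z hz).2) h.vol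
      (fun κ hκ hκ1 => mass_even hρ1 hT hL1c κ hκ hκ1)
      (fun κ hκ hκ1 U hU hUm => mass_odd hρ1 h.meas (fun z hz => (h.bd z hz).1) hT hL1c κ hκ
        hκ1 U hU hUm)

/-- **No map at all**, if the number of levels is large. -/
theorem no_map (p : Par m) (I : ℕ) (hI : p.L ^ 2 < (1 + p.ep ^ 2 / 2) ^ I) :
    ∃ (ρ : E m → ℝ) (e : ℝ), Measurable ρ ∧ (∀ z, 1 ≤ ρ z ∧ ρ z ≤ 1 + p.c) ∧ 0 < e ∧
    ∀ (f : E m → E m) (ρ' : E m → ℝ) (s : ℝ), Adm p f ρ' s → s ≤ p.kap ^ I * p.sbase →
      ¬ ∫⁻ z in K m p.nu, ENNReal.ofReal |ρ' z - ρ z| ≤ ENNReal.ofReal e := by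
  obtain ⟨ρ, e, h1, h2, h3, h4⟩ := level p I
  refine ⟨ρ, e, h1, h2, h3, ?_⟩
  intro f ρ' s h hs hL1
  have hL := p.L_pos
  have hL1' := p.hL
  have hkap := p.kap_pos
  have hkap1 := kap_le_one (p := p)
  have hsb := p.sbase_pos
  have hs1 : s ≤ p.sbase := by
    refine hs.trans ?_
    have : p.kap ^ I ≤ 1 := pow_le_one₀ hkap.le hkap1
    nlinarith
  have hlow : 1 / p.L ≤ dist (f (e0 m)) (f 0) := by
    have h5 := (h.coarse _ K_e0 _ K_zero).2
    rw [dist_e0] at h5
    have h6 : p.L * s < 1 := by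
      have h7 := p.hsg2
      have h8 : p.ep ^ 2 ≤ 1 := by nlinarith [p.hep0, p.hep1]
      have h9 : s ≤ p.sg := by
        refine hs1.trans ?_
        unfold Par.sbase
        have := p.tau_le_W; have := p.W_le; have := p.hsg0; have := p.tau_pos
        nlinarith
      have h10 : p.L * s ≤ p.L * p.sg := by gcongr
      have h11 : p.L * p.sg ≤ p.L ^ 2 * p.sg := by
        have := p.hsg0
        have : p.L * p.sg * 1 ≤ p.L * p.sg * p.L := by gcongr
        nlinarith
      nlinarith
    rw [div_le_iff₀ hL]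
    rcases le_total (dist (f (e0 m)) (f 0)) s with h7 | h7
    · rw [max_eq_right h7] at h5; linarith
    · rw [max_eq_left h7] at h5; linarith
  have h5 := h4 f ρ' s h hs hL1 hlow
  have h6 : 1 / p.L * (1 + p.ep ^ 2 / 2) ^ I ≤ p.L := by
    refine le_trans ?_ h5
    have := p.hep0
    gcongr
  rw [one_div, inv_mul_le_iff₀ hL] at h6
  nlinarith

end

end Pool.Agent.Helper724BK
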